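import Pool.Agent.Q67.VD.Alg

/-!
The vorticity in a frame.
-/

set_option autoImplicit false

open MeasureTheory Set Metric
open scoped ENNReal ContDiff
open H459R3.NS Pool.Agent.W268.NS

namespace Pool.Agent.Q67.VD

/-- the component of the vorticity in the direction `e` -/
noncomputable def af (e : V) (v : V → V) (x : V) : ℝ := ∑ m, e m * vort v x m

/-- the part of the vorticity orthogonal to `e` -/
noncomputable def bf (e : V) (v : V → V) (i : Fin 3) (x : V) : ℝ := vort v x i - af e v x * e i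

/-- the cross product of `e` with the vorticity -/
noncomputable def Gf (e : V) (v : V → V) (i : Fin 3) (x : V) : ℝ := crossProduct e (vort v x) i

section

variable {v : V → V} (hv : ∀ i, SP (fun y => v y i))

lemma sp_const (c : ℝ) : SP (fun _ => c) := ⟨contDiff_const, fun _ _ => rfl⟩

lemma _root_.H459R3.NS.SP.cmul {f : V → ℝ} (hf : SP f) (c : ℝ) : SP (fun x => c * f x) := (sp_const c).mul hf

lemma pd_cmul {f : V → ℝ} (hf : SP f) (c : ℝ) (j : Fin 3) (x : V) :
    pd j (fun y => c * f y) x = c * pd j f x := by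
  unfold pd
  have h := (hf.diff x).hasFDerivAt.const_mul c
  rw [h.fderiv]
  simp

lemma pd_sub' {f g : V → ℝ} (hf : SP f) (hg : SP g) (j : Fin 3) (x : V) :
    pd j (fun y => f y - g y) x = pd j f x - pd j g x := by
  unfold pd
  have h := (hf.diff x).hasFDerivAt.sub (hg.diff x).hasFDerivAt
  have h2 : fderiv ℝ (fun y => f y - g y) x = fderiv ℝ f x - fderiv ℝ g x := h.fderiv
  rw [h2]
  rfl

include hv in
lemma sp_af (e : V) : SP (af e v) := SP.sum fun m _ => (sp_vort hv m).cmul (e m)

include hv in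
lemma sp_bf (e : V) (i : Fin 3) : SP (bf e v i) := by
  have h : SP (fun x => vort v x i - e i * af e v x) :=
    SP.sub' (sp_vort hv i) ((sp_af hv e).cmul (e i))
  have e1 : bf e v i = fun x => vort v x i - e i * af e v x := by
    funext x; unfold bf; ring
  rw [e1]; exact h

lemma Gf_zero (e : V) (v : V → V) : Gf e v 0 = fun x => e 1 * vort v x 2 - e 2 * vort v x 1 := by
  funext x; rw [Gf, cross_apply]; rfl

lemma Gf_one (e : V) (v : V → V) : Gf e v 1 = fun x => e 2 * vort v x 0 - e 0 * vort v x 2 := by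
  funext x; rw [Gf, cross_apply]; rfl

lemma Gf_two (e : V) (v : V → V) : Gf e v 2 = fun x => e 0 * vort v x 1 - e 1 * vort v x 0 := by
  funext x; rw [Gf, cross_apply]; rfl

include hv in
lemma sp_Gf (e : V) (i : Fin 3) : SP (Gf e v i) := by
  have h := fun (a b : Fin 3) (c d : ℝ) => SP.sub' ((sp_vort hv a).cmul c) ((sp_vort hv b).cmul d)
  fin_cases i
  · show SP (Gf e v 0)
    rw [Gf_zero]; exact h 2 1 _ _
  · show SP (Gf e v 1)
    rw [Gf_one]; exact h 0 2 _ _
  · show SP (Gf e v 2)
    rw [Gf_two]; exact h 1 0 _ _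

lemma abs_Gf_le (e : V) (v : V → V) (i : Fin 3) (x : V) :
    |Gf e v i x| ≤ len (crossProduct e (vort v x)) := abs_le_len _ _

include hv in
lemma pd_div (hdiv : ∀ x, ∑ i, pd i (fun y => v y i) x = 0) (i : Fin 3) (x : V) :
    pd i (pd 0 fun y => v y 0) x + pd i (pd 1 fun y => v y 1) x
      + pd i (pd 2 fun y => v y 2) x = 0 := by
  have h1 := pd_sum (s := Finset.univ) (f := fun k => pd k fun y => v y k)
    (fun k _ => (hv k).pd k) i x
  have h2 : (fun y => ∑ k, pd k (fun z => v z k) y) = fun _ => 0 := funext hdiv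
  have h3 : pd i (fun y => ∑ k, pd k (fun z => v z k) y) x = 0 := by
    rw [h2]
    unfold pd
    simp
  rw [h3] at h1
  rw [Fin.sum_univ_three] at h1
  exact h1.symm

include hv in
lemma lap_lin (hdiv : ∀ x, ∑ i, pd i (fun y => v y i) x = 0) (e : V) (x : V) :
    lap (lin e v) x = ∑ i, pd i (Gf e v i) x := by
  have hw := fun i => sp_vort hv i
  have hl : ∀ j, pd j (lin e v) = fun y => ∑ m, e m * pd j (fun z => v z m) y := fun j =>
    funext fun y => pd_lin hv e j y
  have hv' : ∀ j, ∀ i, SP (fun y => (fun z : V => (fun k => pd j (fun w => v w k) z : V)) y i) :=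
    fun j i => (hv i).pd j
  have hl2 : ∀ j, pd j (pd j (lin e v)) x = ∑ m, e m * pd j (pd j (fun z => v z m)) x := by
    intro j
    rw [hl j]
    exact pd_lin (hv' j) e j x
  have hω : ∀ (i a b : Fin 3) (c d : ℝ), pd i (fun y => c * vort v y a - d * vort v y b) x
      = c * pd i (fun y => vort v y a) x - d * pd i (fun y => vort v y b) x := by
    intro i a b c d
    rw [pd_sub' ((hw a).cmul c) ((hw b).cmul d), pd_cmul (hw a), pd_cmul (hw b)]
  have hω0 : ∀ i, pd i (fun y => vort v y 0) x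
      = pd i (pd 1 fun y => v y 2) x - pd i (pd 2 fun y => v y 1) x := fun i =>
    pd_sub' ((hv 2).pd 1) ((hv 1).pd 2) i x
  have hω1 : ∀ i, pd i (fun y => vort v y 1) x
      = pd i (pd 2 fun y => v y 0) x - pd i (pd 0 fun y => v y 2) x := fun i =>
    pd_sub' ((hv 0).pd 2) ((hv 2).pd 0) i x
  have hω2 : ∀ i, pd i (fun y => vort v y 2) x
      = pd i (pd 0 fun y => v y 1) x - pd i (pd 1 fun y => v y 0) x := fun i =>
    pd_sub' ((hv 1).pd 0) ((hv 0).pd 1) i x
  unfold lap
  rw [Fin.sum_univ_three, Fin.sum_univ_three, hl2, hl2, hl2, Gf_zero, Gf_one, Gf_two, hω, hω, hω]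
  simp only [Fin.sum_univ_three, hω0, hω1, hω2]
  have d0 := pd_div hv hdiv 0 x
  have d1 := pd_div hv hdiv 1 x
  have d2 := pd_div hv hdiv 2 x
  have c10 : ∀ k, pd 1 (pd 0 fun y => v y k) x = pd 0 (pd 1 fun y => v y k) x := fun k => by
    rw [pd_comm (hv k) 1 0]
  have c20 : ∀ k, pd 2 (pd 0 fun y => v y k) x = pd 0 (pd 2 fun y => v y k) x := fun k => by
    rw [pd_comm (hv k) 2 0]
  have c21 : ∀ k, pd 2 (pd 1 fun y => v y k) x = pd 1 (pd 2 fun y => v y k) x := fun k => by
    rw [pd_comm (hv k) 2 1]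
  rw [c10, c20, c21] at *
  simp only [c10, c20, c21] at *
  linear_combination e 0 * d0 + e 1 * d1 + e 2 * d2

include hv in
lemma stretch_split (e : V) (x : V) : stretchRate v x
    = af e v x * ∑ i, (vort v x i + bf e v i x) * pd i (lin e v) x
      + ∑ i, ∑ j, bf e v i x * bf e v j x * gradM v x i j := by
  have h1 : ∀ i, pd i (lin e v) x = ∑ m, e m * gradM v x i m := fun i => pd_lin hv e i x
  simp_rw [h1]
  unfold stretchRate bf af
  simp only [Fin.sum_univ_three]
  have w0 : vort v x 0 = gradM v x 1 2 - gradM v x 2 1 := rfl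
  have w1 : vort v x 1 = gradM v x 2 0 - gradM v x 0 2 := rfl
  have w2 : vort v x 2 = gradM v x 0 1 - gradM v x 1 0 := rfl
  rw [w0, w1, w2]
  ring

end

end Pool.Agent.Q67.VD
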