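import Pool.Agent.Q67.VD.Defs
import Pool.Agent.W268.NS.Crit

/-!
Periodic functions: translations, averages over balls.
-/

set_option autoImplicit false

open MeasureTheory Set Metric
open scoped ENNReal ContDiff Pointwise
open H459R3.NS Pool.Agent.W268.NS

namespace Pool.Agent.Q67.VD

lemma fd_ae : (ZSpan.fundamentalDomain (Pi.basisFun ℝ (Fin 3)) : Set V) =ᵐ[volume] cube := by
  rw [ZSpan.fundamentalDomain_pi_basisFun]
  exact Measure.univ_pi_Ico_ae_eq_Icc (μ := fun _ : Fin 3 => (volume : Measure ℝ))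

lemma per_span {F : Type*} {f : V → F} (hf : Per f)
    (g : (Submodule.span ℤ (Set.range (Pi.basisFun ℝ (Fin 3)))).toAddSubgroup) (x : V) :
    f (g +ᵥ x) = f x := by
  obtain ⟨g, hg0⟩ := g
  have hg : g ∈ Submodule.span ℤ (Set.range (Pi.basisFun ℝ (Fin 3))) := hg0
  rw [Module.Basis.mem_span_iff_repr_mem] at hg
  have h1 : ∀ i, ∃ m : ℤ, (m : ℝ) = g i := by
    intro i
    obtain ⟨m, hm⟩ := hg i
    refine ⟨m, ?_⟩
    simpa using hm
  choose m hm using h1
  have h2 : (⟨g, hg0⟩ :
      (Submodule.span ℤ (Set.range (Pi.basisFun ℝ (Fin 3)))).toAddSubgroup) +ᵥ x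
        = x + fun i => (m i : ℝ) := by
    rw [AddSubgroup.vadd_def]
    funext i
    simp [hm, add_comm]
  rw [h2, hf.int]

/-- translation invariance of the integral of a periodic function -/
lemma lint_shift {G : V → ℝ≥0∞} (hp : Per G) (a : V) :
    ∫⁻ x in cube, G (x + a) = ∫⁻ x in cube, G x := by
  have hD := ZSpan.isAddFundamentalDomain' (Pi.basisFun ℝ (Fin 3)) (volume : Measure V)
  have hD2 := hD.vadd_of_comm a
  have hc : Countable (Submodule.span ℤ (Set.range (Pi.basisFun ℝ (Fin 3)))).toAddSubgroup :=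
    (inferInstance : Countable (Submodule.span ℤ (Set.range (Pi.basisFun ℝ (Fin 3)))))
  have e1 : ∫⁻ x in cube, G x = ∫⁻ x in ZSpan.fundamentalDomain (Pi.basisFun ℝ (Fin 3)), G x :=
    setLIntegral_congr fd_ae.symm
  have e2 : ∫⁻ x in cube, G (x + a)
      = ∫⁻ x in ZSpan.fundamentalDomain (Pi.basisFun ℝ (Fin 3)), G (x + a) :=
    setLIntegral_congr fd_ae.symm
  rw [e1, e2, hD.setLIntegral_eq hD2 G fun g x => per_span hp g x]
  have h3 : (MeasurableEmbedding (fun x : V => x + a)) := measurableEmbedding_addRight a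
  have h4 := (measurePreserving_add_right (volume : Measure V) a).setLIntegral_comp_emb h3 G
    (ZSpan.fundamentalDomain (Pi.basisFun ℝ (Fin 3)))
  refine h4.trans ?_
  congr 2
  ext x
  simp only [mem_image, mem_vadd_set, vadd_eq_add]
  constructor
  · rintro ⟨y, hy, rfl⟩
    exact ⟨y, hy, add_comm _ _⟩
  · rintro ⟨y, hy, rfl⟩
    exact ⟨y, hy, add_comm _ _⟩

lemma int_shift {E : Type*} [NormedAddCommGroup E] [NormedSpace ℝ E] {G : V → E} (hp : Per G)
    (a : V) : ∫ x in cube, G (x + a) = ∫ x in cube, G x := by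
  have hD := ZSpan.isAddFundamentalDomain' (Pi.basisFun ℝ (Fin 3)) (volume : Measure V)
  have hD2 := hD.vadd_of_comm a
  have hc : Countable (Submodule.span ℤ (Set.range (Pi.basisFun ℝ (Fin 3)))).toAddSubgroup :=
    (inferInstance : Countable (Submodule.span ℤ (Set.range (Pi.basisFun ℝ (Fin 3)))))
  have e1 : ∫ x in cube, G x = ∫ x in ZSpan.fundamentalDomain (Pi.basisFun ℝ (Fin 3)), G x :=
    setIntegral_congr_set fd_ae.symm
  have e2 : ∫ x in cube, G (x + a)
      = ∫ x in ZSpan.fundamentalDomain (Pi.basisFun ℝ (Fin 3)), G (x + a) :=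
    setIntegral_congr_set fd_ae.symm
  rw [e1, e2, hD.setIntegral_eq hD2 fun g x => per_span hp g x]
  have h3 : (MeasurableEmbedding (fun x : V => x + a)) := measurableEmbedding_addRight a
  have h4 := (measurePreserving_add_right (volume : Measure V) a).setIntegral_image_emb h3 G
    (ZSpan.fundamentalDomain (Pi.basisFun ℝ (Fin 3)))
  refine h4.symm.trans ?_
  congr 2
  ext x
  simp only [mem_image, mem_vadd_set, vadd_eq_add]
  constructor
  · rintro ⟨y, hy, rfl⟩
    exact ⟨y, hy, add_comm _ _⟩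
  · rintro ⟨y, hy, rfl⟩
    exact ⟨y, hy, add_comm _ _⟩

/-- averages of averages -/
lemma int_avg {g φ : V → ℝ} (hg : Continuous g) (hp : Per g) (hφ : Continuous φ) (ρ : ℝ) :
    ∫ x in cube, ∫ z in closedBall (0 : V) ρ, φ z * g (x + z)
      = (∫ z in closedBall (0 : V) ρ, φ z) * ∫ x in cube, g x := by
  rw [integral_integral_swap]
  · have e : ∀ z, ∫ x in cube, φ z * g (x + z) = φ z * ∫ x in cube, g x := by
      intro z
      rw [integral_const_mul, int_shift hp]
    simp_rw [e]
    rw [integral_mul_const]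
  · have hc : Continuous (Function.uncurry fun x z : V => φ z * g (x + z)) := by
      unfold Function.uncurry
      exact (hφ.comp continuous_snd).mul (hg.comp (continuous_fst.add continuous_snd))
    rw [Measure.prod_restrict]
    exact hc.continuousOn.integrableOn_compact
      ((isCompact_Icc : IsCompact cube).prod (isCompact_closedBall 0 ρ))

lemma vol_ball (x : V) {r : ℝ} (hr : 0 ≤ r) :
    volume (closedBall x r) = ENNReal.ofReal ((2 * r) ^ 3) := by
  rw [Real.volume_pi_closedBall x hr]
  simp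

lemma vol_ball_real (x : V) {r : ℝ} (hr : 0 ≤ r) :
    volume.real (closedBall x r) = (2 * r) ^ 3 := by
  rw [measureReal_def, vol_ball x hr, ENNReal.toReal_ofReal (by positivity)]

/-- the integral over a small ball is at most the one over the period cell -/
lemma int_ball_le {g : V → ℝ} (hg : Continuous g) (hp : Per g) (h0 : ∀ x, 0 ≤ g x) (x : V)
    {r : ℝ} (hr : r ≤ 1 / 2) : ∫ y in closedBall x r, g y ≤ ∫ y in cube, g y := by
  have h1 : closedBall x r ⊆ (fun y => y + (x - fun _ => 1 / 2)) '' cube := by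
    intro y hy
    rw [mem_closedBall, dist_pi_le_iff'] at hy
    refine ⟨y - (x - fun _ => 1 / 2), ⟨fun i => ?_, fun i => ?_⟩, by simp⟩
    · have := hy i
      rw [Real.dist_eq, abs_le] at this
      simp only [Pi.zero_apply, Pi.sub_apply]
      linarith [this.1]
    · have := hy i
      rw [Real.dist_eq, abs_le] at this
      simp only [Pi.one_apply, Pi.sub_apply]
      linarith [this.2]
  have h3 : (MeasurableEmbedding (fun y : V => y + (x - fun _ => 1 / 2))) :=
    measurableEmbedding_addRight _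
  have h4 := (measurePreserving_add_right (volume : Measure V)
    (x - fun _ => 1 / 2)).setIntegral_image_emb h3 g cube
  rw [int_shift hp] at h4
  rw [← h4]
  refine setIntegral_mono_set ?_ (Filter.Eventually.of_forall h0) (Filter.Eventually.of_forall h1)
  have hK : IsCompact ((fun y : V => y + (x - fun _ => 1 / 2)) '' cube) :=
    (isCompact_Icc : IsCompact cube).image (by fun_prop)
  exact hg.continuousOn.integrableOn_compact hK

/-- integration by parts, one of the functions has compact support -/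
lemma ibp_cs {F g : V → ℝ} (hF : ContDiff ℝ 1 F) (hc : HasCompactSupport F)
    (hg : ContDiff ℝ 1 g) (j : Fin 3) :
    ∫ x, F x * pd j g x = -∫ x, pd j F x * g x := by
  unfold pd
  have c1 : Continuous (fun x => fderiv ℝ F x (Pi.single j 1)) :=
    (hF.continuous_fderiv one_ne_zero).clm_apply continuous_const
  have c2 : Continuous (fun x => fderiv ℝ g x (Pi.single j 1)) :=
    (hg.continuous_fderiv one_ne_zero).clm_apply continuous_const
  refine integral_mul_fderiv_eq_neg_fderiv_mul_of_integrable ?_ ?_ ?_ ?_ ?_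
  · refine (c1.mul hg.continuous).integrable_of_hasCompactSupport ?_
    exact HasCompactSupport.mul_right (hc.fderiv_apply (𝕜 := ℝ) _)
  · exact (hF.continuous.mul c2).integrable_of_hasCompactSupport hc.mul_right
  · exact (hF.continuous.mul hg.continuous).integrable_of_hasCompactSupport hc.mul_right
  · exact fun x _ => hF.differentiable one_ne_zero x
  · exact fun x _ => hg.differentiable one_ne_zero x

lemma ker_eq (ρ : ℝ) : (closedBall (0 : V) ρ).indicator (fun z : V => (‖z‖ ^ 2)⁻¹)
    = fun z : V => ((Iic ρ).indicator fun y : ℝ => (y ^ 2)⁻¹) ‖z‖ := by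
  funext z
  by_cases hz : ‖z‖ ≤ ρ
  · rw [indicator_of_mem (by simpa using hz), indicator_of_mem (by simpa using hz)]
  · rw [indicator_of_notMem (by simpa using hz), indicator_of_notMem (by simpa using hz)]

lemma ker_eq2 (ρ : ℝ) : EqOn (fun y : ℝ => y ^ (Module.finrank ℝ V - 1) •
    ((Iic ρ).indicator fun y : ℝ => (y ^ 2)⁻¹) y) ((Ioc 0 ρ).indicator fun _ => 1) (Ioi 0) := by
  intro y hy
  have hy0 : (0 : ℝ) < y := hy
  by_cases h : y ≤ ρ
  · simp only
    rw [indicator_of_mem (show y ∈ Iic ρ from h), indicator_of_mem (show y ∈ Ioc 0 ρ from ⟨hy0, h⟩)]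
    have : Module.finrank ℝ V = 3 := by simp
    rw [this]
    simp only [smul_eq_mul]
    field_simp
  · simp only
    rw [indicator_of_notMem (show y ∉ Iic ρ from h), indicator_of_notMem (fun h2 => h h2.2)]
    simp

lemma ker_int (ρ : ℝ) : IntegrableOn (fun z : V => (‖z‖ ^ 2)⁻¹) (closedBall 0 ρ) := by
  rw [← integrable_indicator_iff isClosed_closedBall.measurableSet, ker_eq,
    integrable_fun_norm_addHaar, integrableOn_congr_fun (ker_eq2 ρ) measurableSet_Ioi]
  refine IntegrableOn.integrable_indicator ?_ measurableSet_Ioc |>.integrableOn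
  exact integrableOn_const (by simp)

lemma ker_val {ρ : ℝ} (hρ : 0 ≤ ρ) : ∫ z in closedBall (0 : V) ρ, (‖z‖ ^ 2)⁻¹ = 24 * ρ := by
  rw [← integral_indicator isClosed_closedBall.measurableSet, ker_eq, integral_fun_norm_addHaar,
    setIntegral_congr_fun measurableSet_Ioi (ker_eq2 ρ)]
  have h1 : volume.real (ball (0 : V) 1) = 8 := by
    rw [measureReal_def, Real.volume_pi_ball _ one_pos]
    simp
    norm_num
  rw [h1, setIntegral_indicator measurableSet_Ioc,
    show Ioi (0 : ℝ) ∩ Ioc 0 ρ = Ioc 0 ρ from inter_eq_right.2 fun y hy => hy.1]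
  simp [hρ]
  ring

lemma per_bdd {f : V → ℝ} (hp : Per f) (hc : Continuous f) : ∃ B : ℝ, 0 ≤ B ∧ ∀ x, |f x| ≤ B := by
  obtain ⟨B, hB⟩ := (isCompact_Icc : IsCompact cube).exists_bound_of_continuousOn hc.continuousOn
  refine ⟨B, (abs_nonneg _).trans (hB 0 ⟨le_rfl, zero_le_one⟩), fun x => ?_⟩
  have h1 : f x = f (fun i => Int.fract (x i)) := by
    have h2 := hp.int (fun i => ⌊x i⌋) (fun i => Int.fract (x i))
    rw [← h2]
    congr 1
    funext i
    exact (Int.fract_add_floor (x i)).symm
  rw [h1]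
  exact hB _ ⟨fun i => Int.fract_nonneg _, fun i => (Int.fract_lt_one _).le⟩

lemma pot_integrable {f : V → ℝ} (hp : Per f) (hc : Continuous f) (ρ : ℝ) (x : V) :
    IntegrableOn (fun z => |f (x + z)| / ‖z‖ ^ 2) (closedBall 0 ρ) := by
  obtain ⟨B, hB, hf⟩ := per_bdd hp hc
  refine ((ker_int ρ).const_mul B).mono' ?_ ?_
  · refine Measurable.aestronglyMeasurable ?_
    have h1 : Measurable f := hc.measurable
    fun_prop
  · refine Filter.Eventually.of_forall fun z => ?_
    rw [Real.norm_eq_abs, abs_div, abs_abs, abs_of_nonneg (sq_nonneg ‖z‖), div_eq_mul_inv]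
    exact mul_le_mul_of_nonneg_right (hf _) (by positivity)

lemma pot_cont {f : V → ℝ} (hp : Per f) (hc : Continuous f) (ρ : ℝ) : Continuous (pot ρ f) := by
  obtain ⟨B, hB, hf⟩ := per_bdd hp hc
  unfold pot
  refine continuous_of_dominated (bound := fun z => B * (‖z‖ ^ 2)⁻¹) (fun x => ?_) (fun x => ?_)
    ((ker_int ρ).const_mul B) ?_
  · exact (pot_integrable hp hc ρ x).aestronglyMeasurable
  · refine Filter.Eventually.of_forall fun z => ?_
    rw [Real.norm_eq_abs, abs_div, abs_abs, abs_of_nonneg (sq_nonneg ‖z‖), div_eq_mul_inv]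
    exact mul_le_mul_of_nonneg_right (hf _) (by positivity)
  · refine Filter.Eventually.of_forall fun z => ?_
    fun_prop

lemma pot_per {f : V → ℝ} (hp : Per f) (ρ : ℝ) : Per (pot ρ f) := by
  intro i x
  unfold pot
  congr 1
  funext z
  rw [show x + Pi.single i 1 + z = x + z + Pi.single i 1 by abel, hp]

lemma pot_nonneg (f : V → ℝ) (ρ : ℝ) (x : V) : 0 ≤ pot ρ f x :=
  integral_nonneg fun z => by positivity

lemma pot_le {f g : V → ℝ} (hf : Per f) (hfc : Continuous f) (hg : Per g) (hgc : Continuous g)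
    {ρ δ M : ℝ} (hρ : 0 ≤ ρ) {x : V}
    (h : ∀ z, ‖z‖ ≤ ρ → |f (x + z)| ≤ δ * |g (x + z)| + M) :
    pot ρ f x ≤ δ * pot ρ g x + 24 * M * ρ := by
  have e : δ * pot ρ g x + 24 * M * ρ = ∫ z in closedBall (0 : V) ρ,
      (δ * (|g (x + z)| / ‖z‖ ^ 2) + M * (‖z‖ ^ 2)⁻¹) := by
    rw [integral_add ((pot_integrable hg hgc ρ x).const_mul δ) ((ker_int ρ).const_mul M),
      integral_const_mul, integral_const_mul, ker_val hρ]
    unfold pot
    ring
  rw [e]
  unfold pot
  refine setIntegral_mono_on (pot_integrable hf hfc ρ x)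
    (((pot_integrable hg hgc ρ x).const_mul δ).add ((ker_int ρ).const_mul M))
    isClosed_closedBall.measurableSet fun z hz => ?_
  have h1 := h z (by simpa using hz)
  have h2 : 0 ≤ (‖z‖ ^ 2)⁻¹ := by positivity
  have h3 := mul_le_mul_of_nonneg_right h1 h2
  rw [div_eq_mul_inv, div_eq_mul_inv]
  linarith

end Pool.Agent.Q67.VD
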