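import Pool.Agent.W268.NS.Defs

/-!
Definitions for the criterion on the direction of the vorticity.
-/

open MeasureTheory Set Metric
open scoped ENNReal
open H459R3.NS Pool.Agent.W268.NS

namespace Pool.Agent.Q67.VD

/-- The Euclidean length of a vector. -/
noncomputable def len (a : V) : ℝ := √(a ⬝ᵥ a)

/-- The Euclidean length of the vorticity. -/
noncomputable def om (v : V → V) (x : V) : ℝ := len (vort v x)

/-- `∫ |f| ≤ K r` on all cubes with side `2 r`, `r ≤ ρ`. -/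
def Mor (K ρ : ℝ) (f : V → ℝ) : Prop :=
  ∀ x r, 0 < r → r ≤ ρ → ∫ y in closedBall x r, |f y| ≤ K * r

/-- The truncated potential of order one: the integral of `|f (x + z)| / ‖z‖²` over the `z` with
`‖z‖ ≤ ρ`. -/
noncomputable def pot (ρ : ℝ) (f : V → ℝ) (x : V) : ℝ :=
  ∫ z in closedBall (0 : V) ρ, |f (x + z)| / ‖z‖ ^ 2

/-- Gagliardo-Nirenberg inequality with a Morrey norm. -/
def StmGN : Prop := ∃ C : ℝ, 0 < C ∧ ∀ (K ρ : ℝ) (f : V → ℝ), 0 ≤ K → 0 < ρ → ρ ≤ 1 →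
  SP f → Mor K ρ f →
    ∫ x in cube, |f x| ^ 3 ≤
      C * K * ((∑ j, ∫ x in cube, pd j f x ^ 2) + (∫ x in cube, f x ^ 2) / ρ ^ 2)

/-- The trilinear estimate for the potential. -/
def StmTri : Prop := ∃ C : ℝ, 0 < C ∧ ∀ (K ρ : ℝ) (f : V → ℝ), 0 ≤ K → 0 < ρ → ρ ≤ 1 →
  Continuous f → Per f → (∀ x, 0 ≤ f x) → Mor K ρ f →
    ∫ x in cube, f x ^ 2 * pot ρ f x ^ 2 ≤ C * K * ∫ x in cube, f x ^ 3

/-- Pointwise bound of the solution `f` of `Δ f = div G`. -/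
def StmPot : Prop := ∃ C : ℝ, 0 < C ∧ ∀ (ρ : ℝ) (f : V → ℝ) (G : Fin 3 → V → ℝ), 0 < ρ → ρ ≤ 1 →
  SP f → (∀ i, SP (G i)) → (∀ x, lap f x = ∑ i, pd i (G i) x) → ∀ x,
    |f x| ≤ C * ((∑ i, pot ρ (G i) x) + (∫ z in closedBall (0 : V) ρ, |f (x + z)|) / ρ ^ 3)

/-- The Morrey bound for the vorticity from the cone condition. -/
def StmFlux : Prop := ∃ C : ℝ, 0 < C ∧ ∀ (v : V → V) (M R κ : ℝ), (∀ i, SP (fun y => v y i)) →
  (∀ x, ∑ i, pd i (fun y => v y i) x = 0) → 0 ≤ M → 0 < R → R ≤ 1 → 0 < κ → κ ≤ 1 →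
  (∀ x y, ‖x - y‖ ≤ R → M < om v x → M < om v y →
    κ * (om v x * om v y) ≤ vort v x ⬝ᵥ vort v y) →
  Mor (C / κ ^ 2 * (√(energy v / R) + M * R ^ 2)) (R / 8) (om v)

/-- The sum of the moduli of the derivatives of the vorticity. -/
noncomputable def dom (v : V → V) (x : V) : ℝ := ∑ i, ∑ j, |pd j (fun y => vort v y i) x|

/-- Small oscillation of the (unoriented) direction of the vorticity, where it exceeds `M`. -/
def Osc (v : V → V) (M δ R : ℝ) : Prop := ∀ x y, ‖x - y‖ ≤ R → M < om v x → M < om v y →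
  len (crossProduct (vort v x) (vort v y)) ≤ δ * (om v x * om v y)

/-- The local estimate of the production of enstrophy. -/
def StmLoc : Prop := ∃ C : ℝ, 0 < C ∧ ∀ (v : V → V) (ρ δ M : ℝ), (∀ i, SP (fun y => v y i)) →
  (∀ x, ∑ i, pd i (fun y => v y i) x = 0) → 0 < ρ → ρ ≤ 1 / 4 → 0 ≤ δ → δ ≤ 1 → 0 ≤ M →
  Osc v M δ (4 * ρ) →
    ∫ x in cube, stretchRate v x ≤ C * ∫ x in cube,
      ((pot ρ (om v) x + √(energy v / ρ ^ 3)) *
          (δ * om v x * dom v x + M * dom v x + om v x ^ 2 / ρ)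
        + (M + √(energy v / ρ ^ 3)) * (om v x * dom v x))

/-- The production of enstrophy under a Morrey bound and small oscillation of the direction. -/
def StmFix : Prop := ∃ C : ℝ, 0 < C ∧ ∀ (v : V → V) (K ρ δ M ε : ℝ), (∀ i, SP (fun y => v y i)) →
  (∀ x, ∑ i, pd i (fun y => v y i) x = 0) → 0 ≤ K → 0 < ρ → ρ ≤ 1 / 4 → 0 ≤ δ → δ ≤ 1 → 0 ≤ M →
  0 < ε → ε ≤ 1 → Mor K ρ (om v) → Osc v M δ (4 * ρ) →
    ∫ x in cube, stretchRate v x ≤ (C * δ * K + ε) * palin v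
      + C / (ε * ρ ^ 3) * ((1 + K) ^ 2 + M ^ 2 + enstrophy v) * enstrophy v

end Pool.Agent.Q67.VD
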