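import Pool.Agent.Q153.VD.Core

/-!
The truncated Newton kernel.
-/

set_option autoImplicit false

open MeasureTheory Set Metric Filter Topology
open scoped ContDiff
open H459R3.NS

namespace Pool.Agent.Q67.VD

open Pool.Agent.Q153.VD (nn nn_nonneg nn_ge nn_smul nn_smooth s P E D A T Cut smooth_pd diff_of pd_coord)

lemma nn_pos {z : V} (hz : z ≠ 0) : 0 < nn z := by
  have h1 := nn_ge z
  have h2 : 0 < ‖z‖ := norm_pos_iff.2 hz
  have h3 : 0 < ‖z‖ ^ 2 := by positivity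
  linarith

lemma P0_eq (z : V) : P 0 z = (√(nn z))⁻¹ := by
  rw [P, s]
  congr 2
  ring

lemma P0_nonneg (z : V) : 0 ≤ P 0 z := by rw [P0_eq]; positivity

lemma P0_le {z : V} (hz : z ≠ 0) : P 0 z ≤ ‖z‖⁻¹ := by
  rw [P0_eq]
  refine inv_anti₀ (norm_pos_iff.2 hz) ?_
  exact Real.le_sqrt_of_sq_le (nn_ge z)

lemma P0_smul {c : ℝ} (hc : 0 < c) (z : V) : P 0 (c • z) = c⁻¹ * P 0 z := by
  rw [P0_eq, P0_eq, nn_smul, Real.sqrt_mul (sq_nonneg c), Real.sqrt_sq hc.le, mul_inv]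

lemma E0_smul {c : ℝ} (hc : 0 < c) (i : Fin 3) (z : V) : E 0 i (c • z) = (c ^ 2)⁻¹ * E 0 i z := by
  rw [E, E, P0_smul hc, Pi.smul_apply, smul_eq_mul]
  field_simp

lemma P0_cd {z : V} (hz : z ≠ 0) : ContDiffAt ℝ ∞ (P 0) z := by
  have h1 : P 0 = fun z => (√(nn z))⁻¹ := funext P0_eq
  rw [h1]
  have h2 := nn_pos hz
  exact (nn_smooth.contDiffAt.sqrt h2.ne').inv (Real.sqrt_pos.2 h2).ne'

lemma E0_cd {z : V} (hz : z ≠ 0) (i : Fin 3) : ContDiffAt ℝ ∞ (E 0 i) z := by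
  have h1 : E 0 i = fun z => -(z i * P 0 z ^ 3) := rfl
  rw [h1]
  have h2 : ContDiffAt ℝ ∞ (fun z : V => z i) z := by fun_prop
  exact (h2.mul ((P0_cd hz).pow 3)).neg

lemma pd_mul_at {f g : V → ℝ} {x : V} (hf : ContDiffAt ℝ ∞ f x) (hg : ContDiffAt ℝ ∞ g x)
    (j : Fin 3) : pd j (fun y => f y * g y) x = f x * pd j g x + pd j f x * g x := by
  have h1 := fderiv_fun_mul (hf.differentiableAt (by simp)) (hg.differentiableAt (by simp))
  simp only [pd, h1]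
  simp only [add_apply, smul_apply, smul_eq_mul]
  ring

lemma pd_add_at {f g : V → ℝ} {x : V} (hf : ContDiffAt ℝ ∞ f x) (hg : ContDiffAt ℝ ∞ g x)
    (j : Fin 3) : pd j (fun y => f y + g y) x = pd j f x + pd j g x := by
  have h1 := fderiv_fun_add (hf.differentiableAt (by simp)) (hg.differentiableAt (by simp))
  simp only [pd, h1]
  rfl

lemma pd_P0 {z : V} (hz : z ≠ 0) (i : Fin 3) : pd i (P 0) z = E 0 i z := by
  have h2 := nn_pos hz
  have hs := Real.sqrt_pos.2 h2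
  have h1 : HasDerivAt (fun t => (√t)⁻¹) (-(1 / 2) * (√(nn z))⁻¹ ^ 3) (nn z) := by
    have h3 := ((hasDerivAt_id (nn z)).sqrt h2.ne').fun_inv hs.ne'
    refine h3.congr_deriv ?_
    simp only [id]
    field_simp
  have h4 := Pool.Agent.Q153.VD.pd_comp_nn z h1 i
  have h5 : (fun y => (√(nn y))⁻¹) = P 0 := (funext P0_eq).symm
  rw [h5] at h4
  rw [h4, E, P0_eq]
  ring

lemma pd_P0_cube {z : V} (hz : z ≠ 0) (j : Fin 3) :
    pd j (fun y => P 0 y ^ 3) z = -(3 * (z j * P 0 z ^ 5)) := by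
  have h2 := nn_pos hz
  have hs := Real.sqrt_pos.2 h2
  have h1 : HasDerivAt (fun t => (√t)⁻¹ ^ 3) (-(3 / 2) * (√(nn z))⁻¹ ^ 5) (nn z) := by
    have h3 := (((hasDerivAt_id (nn z)).sqrt h2.ne').fun_inv hs.ne').fun_pow 3
    refine h3.congr_deriv ?_
    show (3 : ℝ) * (√(nn z))⁻¹ ^ 2 * (-(1 / (2 * √(nn z))) / √(nn z) ^ 2) = _
    field_simp
  have h4 := Pool.Agent.Q153.VD.pd_comp_nn z h1 j
  have h5 : (fun y => (√(nn y))⁻¹ ^ 3) = fun y => P 0 y ^ 3 := funext fun y => by rw [P0_eq]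
  rw [h5] at h4
  rw [h4, P0_eq]
  ring

lemma E0_le {z : V} (hz : z ≠ 0) (i : Fin 3) : |E 0 i z| ≤ (‖z‖ ^ 2)⁻¹ := by
  have h2 : 0 < ‖z‖ := norm_pos_iff.2 hz
  have h1 := P0_le hz
  have h0 := P0_nonneg z
  rw [E, abs_neg, abs_mul, abs_of_nonneg (pow_nonneg h0 3)]
  have h3 : |z i| ≤ ‖z‖ := norm_le_pi_norm z i
  calc |z i| * P 0 z ^ 3 ≤ ‖z‖ * (‖z‖⁻¹) ^ 3 := by gcongr
    _ = (‖z‖ ^ 2)⁻¹ := by field_simp

lemma pd_E0_le {z : V} (hz : z ≠ 0) (i j : Fin 3) : |pd j (E 0 i) z| ≤ 4 * (‖z‖ ^ 3)⁻¹ := by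
  have h2 : 0 < ‖z‖ := norm_pos_iff.2 hz
  have h1 := P0_le hz
  have h0 := P0_nonneg z
  have h4 : E 0 i = fun z => -(z i * P 0 z ^ 3) := rfl
  have hz1 : ContDiffAt ℝ ∞ (fun z : V => z i) z := by fun_prop
  rw [h4, Pool.Agent.Q153.VD.pd_neg, pd_mul_at hz1 ((P0_cd hz).pow 3), pd_P0_cube hz, pd_coord,
    abs_neg]
  have hi : |z i| ≤ ‖z‖ := norm_le_pi_norm z i
  have hj : |z j| ≤ ‖z‖ := norm_le_pi_norm z j
  refine (abs_add_le _ _).trans ?_
  have a1 : |z i * -(3 * (z j * P 0 z ^ 5))| ≤ 3 * (‖z‖ ^ 3)⁻¹ := by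
    rw [abs_mul, abs_neg, abs_mul, abs_mul, abs_of_nonneg (pow_nonneg h0 5),
      abs_of_pos (by norm_num : (0 : ℝ) < 3)]
    calc |z i| * (3 * (|z j| * P 0 z ^ 5)) ≤ ‖z‖ * (3 * (‖z‖ * (‖z‖⁻¹) ^ 5)) := by gcongr
      _ = 3 * (‖z‖ ^ 3)⁻¹ := by field_simp
  have a2 : |(if j = i then (1 : ℝ) else 0) * P 0 z ^ 3| ≤ (‖z‖ ^ 3)⁻¹ := by
    rw [abs_mul, abs_of_nonneg (pow_nonneg h0 3)]
    have h5 : |(if j = i then (1 : ℝ) else 0)| ≤ 1 := by split_ifs <;> simp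
    calc |(if j = i then (1 : ℝ) else 0)| * P 0 z ^ 3 ≤ 1 * (‖z‖⁻¹) ^ 3 := by gcongr
      _ = (‖z‖ ^ 3)⁻¹ := by rw [one_mul, inv_pow]
  linarith

section

variable {χ : V → ℝ} {K : ℝ} (h : Cut χ K)

include h in
lemma T0_smooth (i : Fin 3) : ContDiff ℝ ∞ (T χ 0 i) := by
  rw [contDiff_iff_contDiffAt]
  intro z
  by_cases hz : ‖z‖ < 1 / 2
  · have h1 : T χ 0 i =ᶠ[𝓝 z] fun _ => 0 := by
      have ho : IsOpen {z : V | ‖z‖ < 1 / 2} := isOpen_lt continuous_norm continuous_const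
      filter_upwards [ho.mem_nhds hz] with y hy
      rw [T, h.one1 i y hy, h.one2 i y hy]
      ring
    exact contDiffAt_const.congr_of_eventuallyEq h1
  · have hz0 : z ≠ 0 := by
      rintro rfl
      rw [norm_zero] at hz
      norm_num at hz
    have e : T χ 0 i = fun z => pd i (pd i χ) z * P 0 z + 2 * (pd i χ z * E 0 i z) := rfl
    rw [e]
    exact ((smooth_pd (smooth_pd h.smooth i) i).contDiffAt.mul (P0_cd hz0)).add
      (contDiffAt_const.mul ((smooth_pd h.smooth i).contDiffAt.mul (E0_cd hz0 i)))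

include h in
lemma A0_cd {z : V} (hz : z ≠ 0) (i : Fin 3) : ContDiffAt ℝ ∞ (A χ 0 i) z :=
  ((smooth_pd h.smooth i).contDiffAt.mul (P0_cd hz)).add (h.smooth.contDiffAt.mul (E0_cd hz i))

lemma tendsto_eps : Tendsto (fun n : ℕ => (1 : ℝ) / ((n : ℝ) + 1)) atTop (𝓝 0) :=
  tendsto_one_div_add_atTop_nhds_zero_nat

lemma P_lim {z : V} (hz : z ≠ 0) :
    Tendsto (fun n : ℕ => P (1 / ((n : ℝ) + 1)) z) atTop (𝓝 (P 0 z)) := by
  have h1 : Tendsto (fun n : ℕ => √(nn z + (1 / ((n : ℝ) + 1)) ^ 2)) atTop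
      (𝓝 (√(nn z + 0 ^ 2))) :=
    ((tendsto_const_nhds.add (tendsto_eps.pow 2))).sqrt
  refine h1.inv₀ ?_
  have := nn_pos hz
  exact (Real.sqrt_pos.2 (by simpa using this)).ne'

lemma E_lim {z : V} (hz : z ≠ 0) (i : Fin 3) :
    Tendsto (fun n : ℕ => E (1 / ((n : ℝ) + 1)) i z) atTop (𝓝 (E 0 i z)) :=
  (((P_lim hz).pow 3).const_mul (z i)).neg

lemma A_lim {z : V} (hz : z ≠ 0) (i : Fin 3) :
    Tendsto (fun n : ℕ => A χ (1 / ((n : ℝ) + 1)) i z) atTop (𝓝 (A χ 0 i z)) :=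
  ((P_lim hz).const_mul _).add ((E_lim hz i).const_mul _)

lemma T_lim {z : V} (hz : z ≠ 0) (i : Fin 3) :
    Tendsto (fun n : ℕ => T χ (1 / ((n : ℝ) + 1)) i z) atTop (𝓝 (T χ 0 i z)) :=
  ((P_lim hz).const_mul _).add (((E_lim hz i).const_mul _).const_mul 2)

include h in
lemma A0_le {z : V} (hz : z ≠ 0) (i : Fin 3) : |A χ 0 i z| ≤ (K + 1) * (‖z‖ ^ 2)⁻¹ := by
  refine le_of_tendsto (A_lim (χ := χ) hz i).abs (Eventually.of_forall fun n => ?_)
  exact Pool.Agent.Q153.VD.A_le h (by positivity) i z hz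

include h in
lemma A0_zero {z : V} (hz : 1 < ‖z‖) (i : Fin 3) : A χ 0 i z = 0 :=
  Pool.Agent.Q153.VD.A_zero h 0 i z hz

include h in
lemma T0_zero {z : V} (hz : 1 < ‖z‖) (i : Fin 3) : T χ 0 i z = 0 :=
  Pool.Agent.Q153.VD.T_zero h 0 i z hz

lemma ae_ne_zero : ∀ᵐ z : V, z ≠ 0 := by simp [ae_iff]

include h in
/-- the representation on the unit scale -/
lemma ident0 {w : V → ℝ} (hw : ContDiff ℝ ∞ w) {g : Fin 3 → V → ℝ} (hg : ∀ i, ContDiff ℝ ∞ (g i))
    (hlap : ∀ z, lap w z = ∑ i, pd i (g i) z) :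
    w 0 * ∫ z : V, D 1 z = (∑ i, ∫ z, w z * T χ 0 i z) + ∑ i, ∫ z, g i z * A χ 0 i z := by
  refine tendsto_nhds_unique (Pool.Agent.Q153.VD.lim_D h hw.continuous) ?_
  have e : ∀ n : ℕ, ∫ z, w z * (χ z * D (1 / ((n : ℝ) + 1)) z)
      = (∑ i, ∫ z, w z * T χ (1 / ((n : ℝ) + 1)) i z)
        + ∑ i, ∫ z, g i z * A χ (1 / ((n : ℝ) + 1)) i z := fun n =>
    Pool.Agent.Q153.VD.ident h (by positivity) hw hg hlap
  simp_rw [e]
  refine (tendsto_finsetSum _ fun i _ => ?_).add (tendsto_finsetSum _ fun i _ => ?_)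
  · refine tendsto_integral_of_dominated_convergence
      ((closedBall (0 : V) 1).indicator fun z => |w z| * (10 * K)) ?_ ?_ ?_ ?_
    · intro n
      exact (hw.continuous.mul (Pool.Agent.Q153.VD.smoothT h (by positivity)
        i).continuous).aestronglyMeasurable
    · refine (integrable_indicator_iff measurableSet_closedBall).2 ?_
      exact (hw.continuous.abs.mul continuous_const).continuousOn.integrableOn_compact
        (isCompact_closedBall 0 1)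
    · intro n
      refine ae_of_all _ fun z => ?_
      rw [Real.norm_eq_abs]
      by_cases h2 : z ∈ closedBall (0 : V) 1
      · rw [indicator_of_mem h2, abs_mul]
        exact mul_le_mul_of_nonneg_left (Pool.Agent.Q153.VD.T_le h (by positivity) i z)
          (abs_nonneg _)
      · rw [indicator_of_notMem h2]
        rw [mem_closedBall, dist_zero_right, not_le] at h2
        rw [Pool.Agent.Q153.VD.T_zero h _ i z h2, mul_zero, abs_zero]
    · filter_upwards [ae_ne_zero] with z hz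
      exact (T_lim hz i).const_mul _
  · refine tendsto_integral_of_dominated_convergence
      ((closedBall (0 : V) 1).indicator fun z => (K + 1) * (|g i z| / ‖z‖ ^ 2)) ?_ ?_ ?_ ?_
    · intro n
      exact ((hg i).continuous.mul (Pool.Agent.Q153.VD.smoothA h (by positivity)
        i).continuous).aestronglyMeasurable
    · refine (integrable_indicator_iff measurableSet_closedBall).2 ?_
      exact (Pool.Agent.Q153.VD.int_pot (hg i).continuous).const_mul _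
    · intro n
      filter_upwards [ae_ne_zero] with z hz
      rw [Real.norm_eq_abs]
      by_cases h2 : z ∈ closedBall (0 : V) 1
      · rw [indicator_of_mem h2, abs_mul]
        have h3 := Pool.Agent.Q153.VD.A_le h (ε := 1 / ((n : ℝ) + 1)) (by positivity) i z hz
        calc |g i z| * |A χ (1 / ((n : ℝ) + 1)) i z|
            ≤ |g i z| * ((K + 1) * (‖z‖ ^ 2)⁻¹) := by gcongr
          _ = (K + 1) * (|g i z| / ‖z‖ ^ 2) := by ring
      · rw [indicator_of_notMem h2]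
        rw [mem_closedBall, dist_zero_right, not_le] at h2
        rw [Pool.Agent.Q153.VD.A_zero h _ i z h2, mul_zero, abs_zero]
    · filter_upwards [ae_ne_zero] with z hz
      exact (A_lim hz i).const_mul _

end

end Pool.Agent.Q67.VD
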