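import Pool.Agent.Q67.VD.Basic

/-!
Vector algebra, and the direction of the vorticity.
-/

set_option autoImplicit false

open MeasureTheory Set Metric
open scoped ENNReal ContDiff
open H459R3.NS Pool.Agent.W268.NS

namespace Pool.Agent.Q67.VD

/-- The direction of the vorticity. -/
noncomputable def dir (v : V → V) (x : V) : V := (om v x)⁻¹ • vort v x

/-- The direction varies at most by `δ (1 + ‖x - y‖ / ρ)` over distances `‖x - y‖ ≤ R`, where the
vorticity exceeds `M`. -/
def Coh (v : V → V) (M δ ρ R : ℝ) : Prop := ∀ x y, ‖x - y‖ ≤ R → M < om v x → M < om v y →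
  len (dir v x - dir v y) ≤ δ * (1 + ‖x - y‖ / ρ)

lemma len_eq (a : V) : len a = ‖(WithLp.toLp 2 a : EuclideanSpace ℝ (Fin 3))‖ := by
  rw [EuclideanSpace.norm_eq, len]
  congr 1
  simp only [dotProduct, Real.norm_eq_abs, sq_abs]
  exact Finset.sum_congr rfl fun i _ => (sq _).symm

lemma len_nonneg (a : V) : 0 ≤ len a := Real.sqrt_nonneg _

lemma len_sq (a : V) : len a ^ 2 = a 0 ^ 2 + a 1 ^ 2 + a 2 ^ 2 := by
  rw [len, Real.sq_sqrt]
  · simp only [dotProduct, Fin.sum_univ_three]; ring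
  · simp only [dotProduct, Fin.sum_univ_three]; nlinarith [sq_nonneg (a 0), sq_nonneg (a 1), sq_nonneg (a 2)]

lemma abs_le_len (a : V) (i : Fin 3) : |a i| ≤ len a := by
  refine abs_le_of_sq_le_sq ?_ (len_nonneg a)
  rw [len_sq]
  fin_cases i <;> simp <;> nlinarith [sq_nonneg (a 0), sq_nonneg (a 1), sq_nonneg (a 2)]

lemma len_le_of_sq {a : V} {c : ℝ} (hc : 0 ≤ c) (h : a 0 ^ 2 + a 1 ^ 2 + a 2 ^ 2 ≤ c ^ 2) :
    len a ≤ c := by
  have h2 : len a ^ 2 ≤ c ^ 2 := by rw [len_sq]; exact h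
  have h3 := abs_le_of_sq_le_sq h2 hc
  rwa [abs_of_nonneg (len_nonneg a)] at h3

lemma len_smul (c : ℝ) (a : V) : len (c • a) = |c| * len a := by
  rw [len_eq, len_eq, WithLp.toLp_smul, norm_smul, Real.norm_eq_abs]

lemma len_zero : len (0 : V) = 0 := by
  rw [len_eq, WithLp.toLp_zero, norm_zero]

lemma cross_len_le (a b : V) : len (crossProduct a b) ≤ len a * len b := by
  refine len_le_of_sq (mul_nonneg (len_nonneg _) (len_nonneg _)) ?_
  rw [mul_pow, len_sq, len_sq, cross_apply]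
  simp
  nlinarith [sq_nonneg (a 0 * b 0 + a 1 * b 1 + a 2 * b 2)]

lemma om_nonneg (v : V → V) (x : V) : 0 ≤ om v x := len_nonneg _

lemma vort_le (v : V → V) (x : V) (i : Fin 3) : |vort v x i| ≤ om v x := abs_le_len _ _

lemma om_smul_dir {v : V → V} {x : V} (h : 0 < om v x) : om v x • dir v x = vort v x := by
  rw [dir, smul_smul, mul_inv_cancel₀ h.ne', one_smul]

lemma len_dir {v : V → V} {x : V} (h : 0 < om v x) : len (dir v x) = 1 := by
  rw [dir, len_smul, abs_of_pos (inv_pos.2 h)]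
  exact inv_mul_cancel₀ h.ne'

/-- the component orthogonal to `e` -/
lemma perp_le {e a : V} (he : len e = 1) (i : Fin 3) :
    |a i - (∑ m, e m * a m) * e i| ≤ len (crossProduct e a) := by
  have h1 : e 0 ^ 2 + e 1 ^ 2 + e 2 ^ 2 = 1 := by
    rw [← len_sq, he, one_pow]
  have h2 : (fun i => a i - (∑ m, e m * a m) * e i) = -crossProduct e (crossProduct e a) := by
    rw [cross_apply, cross_apply]
    funext i
    fin_cases i <;> simp [Fin.sum_univ_three] <;> linear_combination (-(a _)) * h1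
  have h3 : |a i - (∑ m, e m * a m) * e i| ≤ len (crossProduct e (crossProduct e a)) := by
    have h4 : a i - (∑ m, e m * a m) * e i = (-crossProduct e (crossProduct e a)) i :=
      congrFun h2 i
    rw [h4, Pi.neg_apply, abs_neg]
    exact abs_le_len _ _
  refine h3.trans ((cross_len_le _ _).trans ?_)
  rw [he, one_mul]

lemma perp_le_len {e a : V} (he : len e = 1) (i : Fin 3) :
    |a i - (∑ m, e m * a m) * e i| ≤ len a :=
  (perp_le he i).trans ((cross_len_le _ _).trans (by rw [he, one_mul]))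

lemma dot_le_len {e a : V} (he : len e = 1) : |∑ m, e m * a m| ≤ len a := by
  have h1 : e 0 ^ 2 + e 1 ^ 2 + e 2 ^ 2 = 1 := by
    rw [← len_sq, he, one_pow]
  refine abs_le_of_sq_le_sq ?_ (len_nonneg a)
  rw [len_sq, Fin.sum_univ_three]
  nlinarith [sq_nonneg (e 0 * a 1 - e 1 * a 0), sq_nonneg (e 0 * a 2 - e 2 * a 0),
    sq_nonneg (e 1 * a 2 - e 2 * a 1)]

/-- the cross product of the vorticity with the direction at a point with large vorticity -/
lemma cross_dir_le {v : V → V} {M δ ρ R : ℝ} (hM : 0 ≤ M) (hρ : 0 < ρ) (hδ : 0 ≤ δ)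
    (h : Coh v M δ ρ R) {y₀ y : V} (h0 : M < om v y₀) (hy : ‖y - y₀‖ ≤ R) :
    len (crossProduct (dir v y₀) (vort v y)) ≤ δ * (1 + ‖y - y₀‖ / ρ) * om v y + M ∧
    (M < om v y → len (crossProduct (dir v y₀) (vort v y)) ≤ δ * (1 + ‖y - y₀‖ / ρ) * om v y) := by
  have hd : len (dir v y₀) = 1 := len_dir (hM.trans_lt h0)
  have key : M < om v y →
      len (crossProduct (dir v y₀) (vort v y)) ≤ δ * (1 + ‖y - y₀‖ / ρ) * om v y := by
    intro hy1
    have h1 := h y y₀ hy hy1 h0
    have hpos : 0 < om v y := hM.trans_lt hy1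
    have h2 : crossProduct (dir v y₀) (vort v y)
        = om v y • crossProduct (dir v y₀) (dir v y - dir v y₀) := by
      rw [← om_smul_dir hpos, map_smul, map_sub, cross_self, sub_zero]
    rw [h2, len_smul, abs_of_pos hpos, mul_comm]
    refine mul_le_mul_of_nonneg_right ?_ hpos.le
    refine (cross_len_le _ _).trans ?_
    rw [hd, one_mul]
    exact h1
  refine ⟨?_, key⟩
  rcases lt_or_ge M (om v y) with h1 | h1
  · have := key h1
    linarith
  · have h2 : len (crossProduct (dir v y₀) (vort v y)) ≤ M := by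
      refine (cross_len_le _ _).trans ?_
      rw [hd, one_mul]
      exact h1
    have h3 : 0 ≤ δ * (1 + ‖y - y₀‖ / ρ) * om v y :=
      mul_nonneg (mul_nonneg hδ (by positivity)) (om_nonneg _ _)
    linarith

end Pool.Agent.Q67.VD
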