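import Pool.Agent.Q67.VD.Defs

/-!
Second part of the definitions for the criterion on the direction of the vorticity.
-/

open MeasureTheory Set Metric
open scoped ENNReal
open H459R3.NS Pool.Agent.W268.NS

namespace Pool.Agent.Q67.VD

/-- The integral of `|f (x + z)| / ‖z‖³` over the `z` with `ρ / 2 < ‖z‖ ≤ L`. -/
noncomputable def far (ρ L : ℝ) (f : V → ℝ) (x : V) : ℝ :=
  ∫ z in closedBall (0 : V) L \ closedBall 0 (ρ / 2), |f (x + z)| / ‖z‖ ^ 3

/-- Decomposition of the solution `f` of `Δ f = div G` in a small part and a part with a bounded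
gradient. -/
def StmDec : Prop := ∃ C : ℝ, 0 < C ∧ ∀ (ρ L : ℝ) (f : V → ℝ) (G : Fin 3 → V → ℝ), 0 < ρ →
  ρ ≤ L → L ≤ 1 → SP f → (∀ i, SP (G i)) → (∀ x, lap f x = ∑ i, pd i (G i) x) →
    ∃ f₂ : V → ℝ, SP f₂ ∧ (∀ x, |f x - f₂ x| ≤ C * ∑ i, pot ρ (G i) x) ∧
      ∀ x j, |pd j f₂ x| ≤
        C * ((∑ i, far ρ L (G i) x) + (∫ z in closedBall (0 : V) L, |f (x + z)|) / L ^ 4)

end Pool.Agent.Q67.VD
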