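import Pool.Agent.Q67.VD.Dec1
import Pool.Agent.Q67.VD.Defs2
import Pool.Agent.Q67.VD.Basic
import Pool.Agent.Q153.VD.Pot

/-!
The representation on all scales, and derivatives of smooth averages.
-/

set_option autoImplicit false

open MeasureTheory Set Metric Filter Topology
open scoped ContDiff Convolution
open H459R3.NS

namespace Pool.Agent.Q67.VD

open Pool.Agent.Q153.VD (nn nn_nonneg nn_ge nn_smul nn_smooth s P E D A T Cut smooth_pd diff_of pd_coord)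

/-- smooth averages and their derivatives -/
lemma conv_smooth {F k : V → ℝ} (hF : Continuous F) (hk : ContDiff ℝ ∞ k)
    (hc : HasCompactSupport k) : ContDiff ℝ ∞ (fun x => ∫ z, F (x + z) * k z) ∧
    ∀ x j, pd j (fun x => ∫ z, F (x + z) * k z) x = -∫ z, F (x + z) * pd j k z := by
  set k' : V → ℝ := fun z => k (-z) with hk'
  have hk's : ContDiff ℝ ∞ k' := hk.comp contDiff_neg
  have hk'c : HasCompactSupport k' := hc.comp_homeomorph (Homeomorph.neg V)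
  have e : ∀ k : V → ℝ, (fun x => ∫ z, F (x + z) * k z)
      = F ⋆[ContinuousLinearMap.lsmul ℝ ℝ, volume] fun z => k (-z) := by
    intro k
    funext x
    rw [convolution_def]
    simp only [ContinuousLinearMap.lsmul_apply, smul_eq_mul]
    rw [← integral_add_right_eq_self (fun t => F t * k (-(x - t))) x]
    congr 1
    funext z
    rw [add_comm z x]
    congr 2
    abel
  have h1 : ContDiff ℝ ∞ (fun x => ∫ z, F (x + z) * k z) := by
    rw [e k]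
    exact hk'c.contDiff_convolution_right _ hF.locallyIntegrable hk's
  refine ⟨h1, fun x j => ?_⟩
  have h2 : HasFDerivAt (fun x => ∫ z, F (x + z) * k z)
      ((F ⋆[(ContinuousLinearMap.lsmul ℝ ℝ).precompR V, volume] fderiv ℝ k') x) x := by
    rw [e k]
    exact hk'c.hasFDerivAt_convolution_right _ hF.locallyIntegrable
      (hk's.of_le (by norm_cast)) x
  rw [pd, h2.fderiv, convolution_def]
  have hfd : Continuous (fderiv ℝ k') := hk's.continuous_fderiv (by norm_cast)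
  have hint : Integrable (fun t => ((ContinuousLinearMap.lsmul ℝ ℝ).precompR V) (F t)
      (fderiv ℝ k' (x - t))) := by
    have hcs : HasCompactSupport (fun t => fderiv ℝ k' (x - t)) :=
      (hk'c.fderiv (𝕜 := ℝ)).comp_homeomorph (Homeomorph.subLeft x)
    refine Continuous.integrable_of_hasCompactSupport ?_ ?_
    · exact (((ContinuousLinearMap.lsmul ℝ ℝ).precompR V).continuous.comp hF).clm_apply
        (hfd.comp (continuous_const.sub continuous_id))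
    · exact hcs.mono fun t ht => by
        rw [Function.mem_support] at ht ⊢
        intro h0
        apply ht
        rw [h0, map_zero]
  rw [ContinuousLinearMap.integral_apply hint]
  have e4 : ∀ t, ((ContinuousLinearMap.lsmul ℝ ℝ).precompR V) (F t) (fderiv ℝ k' (x - t))
      (Pi.single j 1) = F t * fderiv ℝ k' (x - t) (Pi.single j 1) := fun t => rfl
  simp_rw [e4]
  have e2 : ∀ z, fderiv ℝ k' z (Pi.single j 1) = -pd j k (-z) := by
    intro z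
    have h3 : HasFDerivAt k' ((fderiv ℝ k (-z)).comp (-ContinuousLinearMap.id ℝ V)) z :=
      (diff_of hk (-z)).hasFDerivAt.comp z (hasFDerivAt_id z).neg
    rw [h3.fderiv]
    simp [pd]
  simp_rw [e2]
  have e3 : ∫ z, F (x + z) * pd j k z = _ := congrFun (e (pd j k)) x
  rw [e3, convolution_def, ← integral_neg]
  congr 1
  funext t
  simp

section

variable {χ : V → ℝ} {K : ℝ} (h : Cut χ K)

/-- the kernel for `f` -/
noncomputable def kT (χ : V → ℝ) (ρ : ℝ) (i : Fin 3) (z : V) : ℝ := (ρ ^ 3)⁻¹ * T χ 0 i (ρ⁻¹ • z)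

/-- the kernel for `G` -/
noncomputable def kA (χ : V → ℝ) (ρ : ℝ) (i : Fin 3) (z : V) : ℝ := (ρ ^ 2)⁻¹ * A χ 0 i (ρ⁻¹ • z)

lemma int_scale {ρ : ℝ} (hρ : 0 < ρ) (F k : V → ℝ) (x : V) :
    ∫ z, F (x + ρ • z) * k z = ∫ z, F (x + z) * ((ρ ^ 3)⁻¹ * k (ρ⁻¹ • z)) := by
  have h2 := Measure.integral_comp_smul (volume : Measure V)
    (fun z => F (x + z) * k (ρ⁻¹ • z)) ρ
  have h3 : Module.finrank ℝ V = 3 := by simp
  rw [h3, abs_of_pos (by positivity), smul_eq_mul] at h2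
  have h4 : ∀ z : V, ρ⁻¹ • ρ • z = z := fun z => by
    rw [smul_smul, inv_mul_cancel₀ hρ.ne', one_smul]
  simp_rw [h4] at h2
  rw [h2, ← integral_const_mul]
  congr 1
  funext z
  ring

include h in
/-- the representation on the scale `ρ` -/
lemma repr {ρ : ℝ} (hρ : 0 < ρ) {f : V → ℝ} {G : Fin 3 → V → ℝ} (hf : SP f) (hG : ∀ i, SP (G i))
    (hlap : ∀ x, lap f x = ∑ i, pd i (G i) x) (x : V) :
    f x * ∫ z : V, D 1 z = (∑ i, ∫ z, f (x + z) * kT χ ρ i z)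
      + ∑ i, ∫ z, G i (x + z) * kA χ ρ i z := by
  have h1 := ident0 h (w := fun z : V => f (x + ρ • z))
    (Pool.Agent.Q153.VD.smooth_aff hf.smooth x ρ) (g := fun i z => ρ * G i (x + ρ • z))
    (fun i => contDiff_const.mul (Pool.Agent.Q153.VD.smooth_aff (hG i).smooth x ρ)) (by
      intro z
      rw [Pool.Agent.Q153.VD.lap_aff hf.smooth, hlap, Finset.mul_sum]
      refine Finset.sum_congr rfl fun i _ => ?_
      rw [Pool.Agent.Q153.VD.pd_const_mul (Pool.Agent.Q153.VD.smooth_aff (hG i).smooth x ρ),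
        Pool.Agent.Q153.VD.pd_aff (hG i).smooth]
      ring)
  rw [smul_zero, add_zero] at h1
  rw [h1]
  congr 1
  · refine Finset.sum_congr rfl fun i _ => ?_
    exact int_scale hρ f (T χ 0 i) x
  · refine Finset.sum_congr rfl fun i _ => ?_
    have e1 : ∀ z, ρ * G i (x + ρ • z) * A χ 0 i z = G i (x + ρ • z) * (ρ * A χ 0 i z) :=
      fun z => by ring
    simp_rw [e1]
    rw [int_scale hρ (G i) (fun z => ρ * A χ 0 i z) x]
    congr 1
    funext z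
    unfold kA
    field_simp

include h in
lemma kA_zero {ρ : ℝ} (hρ : 0 < ρ) {z : V} (hz : ρ < ‖z‖) (i : Fin 3) : kA χ ρ i z = 0 := by
  unfold kA
  rw [A0_zero h _ i, mul_zero]
  rw [norm_smul, norm_inv, Real.norm_eq_abs, abs_of_pos hρ, inv_mul_eq_div, lt_div_iff₀ hρ]
  linarith

include h in
lemma kT_zero {ρ : ℝ} (hρ : 0 < ρ) {z : V} (hz : ρ < ‖z‖) (i : Fin 3) : kT χ ρ i z = 0 := by
  unfold kT
  rw [T0_zero h _ i, mul_zero]
  rw [norm_smul, norm_inv, Real.norm_eq_abs, abs_of_pos hρ, inv_mul_eq_div, lt_div_iff₀ hρ]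
  linarith

include h in
lemma kA_le {ρ : ℝ} (hρ : 0 < ρ) {z : V} (hz : z ≠ 0) (i : Fin 3) :
    |kA χ ρ i z| ≤ (K + 1) * (‖z‖ ^ 2)⁻¹ := by
  have hz' : ρ⁻¹ • z ≠ 0 := smul_ne_zero (inv_ne_zero hρ.ne') hz
  have h1 := A0_le h hz' i
  have h2 : 0 < ‖z‖ := norm_pos_iff.2 hz
  unfold kA
  rw [abs_mul, abs_of_pos (by positivity)]
  rw [norm_smul, norm_inv, Real.norm_eq_abs, abs_of_pos hρ] at h1
  calc (ρ ^ 2)⁻¹ * |A χ 0 i (ρ⁻¹ • z)| ≤ (ρ ^ 2)⁻¹ * ((K + 1) * ((ρ⁻¹ * ‖z‖) ^ 2)⁻¹) := by gcongr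
    _ = (K + 1) * (‖z‖ ^ 2)⁻¹ := by field_simp

include h in
lemma kT_smooth (ρ : ℝ) (i : Fin 3) : ContDiff ℝ ∞ (kT χ ρ i) :=
  contDiff_const.mul ((T0_smooth h i).comp (contDiff_const_smul _))

include h in
lemma kT_cs {ρ : ℝ} (hρ : 0 < ρ) (i : Fin 3) : HasCompactSupport (kT χ ρ i) :=
  HasCompactSupport.intro (isCompact_closedBall (0 : V) ρ) fun z hz => kT_zero h hρ (by
    rwa [mem_closedBall, dist_zero_right, not_le] at hz) i

/-- the difference of the kernels on two scales -/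
noncomputable def kd (χ : V → ℝ) (ρ L : ℝ) (i : Fin 3) (z : V) : ℝ := kA χ L i z - kA χ ρ i z

include h in
lemma kA_near {ρ : ℝ} (hρ : 0 < ρ) {z : V} (hz : ‖z‖ < ρ / 2) (i : Fin 3) :
    kA χ ρ i z = E 0 i z := by
  have h1 : ‖ρ⁻¹ • z‖ < 1 / 2 := by
    rw [norm_smul, norm_inv, Real.norm_eq_abs, abs_of_pos hρ, inv_mul_eq_div, div_lt_iff₀ hρ]
    linarith
  unfold kA
  rw [A, h.one1 i _ h1, h.one _ h1.le, zero_mul, zero_add, one_mul, E0_smul (inv_pos.2 hρ)]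
  field_simp

include h in
lemma kd_near {ρ L : ℝ} (hρ : 0 < ρ) (hL : ρ ≤ L) {z : V} (hz : ‖z‖ < ρ / 2) (i : Fin 3) :
    kd χ ρ L i z = 0 := by
  unfold kd
  rw [kA_near h hρ hz, kA_near h (hρ.trans_le hL) (by linarith), sub_self]

include h in
lemma kA_cd {ρ : ℝ} (hρ : 0 < ρ) {z : V} (hz : z ≠ 0) (i : Fin 3) :
    ContDiffAt ℝ ∞ (kA χ ρ i) z := by
  have hz' : ρ⁻¹ • z ≠ 0 := smul_ne_zero (inv_ne_zero hρ.ne') hz
  have h1 : ContDiffAt ℝ ∞ (fun z : V => A χ 0 i (ρ⁻¹ • z)) z :=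
    ContDiffAt.comp z (A0_cd h hz' i) (contDiff_const_smul _).contDiffAt
  exact contDiffAt_const.mul h1

include h in
lemma kd_smooth {ρ L : ℝ} (hρ : 0 < ρ) (hL : ρ ≤ L) (i : Fin 3) : ContDiff ℝ ∞ (kd χ ρ L i) := by
  rw [contDiff_iff_contDiffAt]
  intro z
  by_cases hz : ‖z‖ < ρ / 2
  · have h1 : kd χ ρ L i =ᶠ[𝓝 z] fun _ => 0 := by
      have ho : IsOpen {z : V | ‖z‖ < ρ / 2} := isOpen_lt continuous_norm continuous_const
      filter_upwards [ho.mem_nhds hz] with y hy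
      exact kd_near h hρ hL hy i
    exact contDiffAt_const.congr_of_eventuallyEq h1
  · have hz0 : z ≠ 0 := by
      rintro rfl
      rw [norm_zero] at hz
      exact hz (by positivity)
    exact (kA_cd h (hρ.trans_le hL) hz0 i).sub (kA_cd h hρ hz0 i)

include h in
lemma kd_zero {ρ L : ℝ} (hρ : 0 < ρ) (hL : ρ ≤ L) {z : V} (hz : L < ‖z‖) (i : Fin 3) :
    kd χ ρ L i z = 0 := by
  unfold kd
  rw [kA_zero h (hρ.trans_le hL) hz, kA_zero h hρ (hL.trans_lt hz), sub_self]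

include h in
lemma kd_cs {ρ L : ℝ} (hρ : 0 < ρ) (hL : ρ ≤ L) (i : Fin 3) : HasCompactSupport (kd χ ρ L i) :=
  HasCompactSupport.intro (isCompact_closedBall (0 : V) L) fun z hz => kd_zero h hρ hL (by
    rwa [mem_closedBall, dist_zero_right, not_le] at hz) i

lemma pd_eq_zero {g : V → ℝ} {z : V} {U : Set V} (hU : IsOpen U) (hz : z ∈ U)
    (hg : ∀ y ∈ U, g y = 0) (i : Fin 3) : pd i g z = 0 := by
  have h1 : g =ᶠ[𝓝 z] fun _ => 0 := by
    filter_upwards [hU.mem_nhds hz] with y hy using hg y hy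
  rw [pd, h1.fderiv_eq]
  simp

include h in
lemma pd_A0_le : ∃ C : ℝ, 0 < C ∧ ∀ i j (z : V), z ≠ 0 → |pd j (A χ 0 i) z| ≤ C * (‖z‖ ^ 3)⁻¹ := by
  have b2 : ∀ i j, ∃ C, ∀ z, ‖pd j (pd i χ) z‖ ≤ C := fun i j =>
    (smooth_pd (smooth_pd h.smooth i) j).continuous.bounded_above_of_compact_support
      ((h.cs.fderiv_apply ℝ (Pi.single i 1)).fderiv_apply ℝ (Pi.single j 1))
  choose B hB using b2
  have hB0 : ∀ i j, 0 ≤ B i j := fun i j => (norm_nonneg _).trans (hB i j 0)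
  have hK := h.Kpos
  refine ⟨(∑ i, ∑ j, B i j) + 2 * K + 4, ?_, fun i j z hz => ?_⟩
  · have : 0 ≤ ∑ i, ∑ j, B i j := Finset.sum_nonneg fun i _ => Finset.sum_nonneg fun j _ => hB0 i j
    positivity
  have hn : 0 < ‖z‖ := norm_pos_iff.2 hz
  have hBij : B i j ≤ ∑ i, ∑ j, B i j :=
    (Finset.single_le_sum (f := fun j => B i j) (fun j _ => hB0 i j) (Finset.mem_univ j)).trans
      (Finset.single_le_sum (f := fun i => ∑ j, B i j)
        (fun i _ => Finset.sum_nonneg fun j _ => hB0 i j) (Finset.mem_univ i))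
  by_cases h1 : 1 < ‖z‖
  · have ho : IsOpen {z : V | 1 < ‖z‖} := isOpen_lt continuous_const continuous_norm
    rw [pd_eq_zero ho h1 (fun y hy => A0_zero h hy i), abs_zero]
    have : 0 ≤ ∑ i, ∑ j, B i j := Finset.sum_nonneg fun i _ => Finset.sum_nonneg fun j _ => hB0 i j
    positivity
  · push Not at h1
    have e1 : A χ 0 i = fun y => pd i χ y * P 0 y + χ y * E 0 i y := rfl
    have c1 := (smooth_pd h.smooth i).contDiffAt (x := z)
    rw [e1, pd_add_at (c1.mul (P0_cd hz)) (h.smooth.contDiffAt.mul (E0_cd hz i)),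
      pd_mul_at c1 (P0_cd hz), pd_mul_at h.smooth.contDiffAt (E0_cd hz i), pd_P0 hz]
    have p1 : P 0 z ≤ (‖z‖ ^ 3)⁻¹ := by
      refine (P0_le hz).trans (inv_anti₀ (by positivity) ?_)
      calc ‖z‖ ^ 3 = ‖z‖ ^ 2 * ‖z‖ := by ring
        _ ≤ 1 * ‖z‖ := by gcongr; exact pow_le_one₀ hn.le h1
        _ = ‖z‖ := one_mul _
    have p2 : ∀ k, |E 0 k z| ≤ (‖z‖ ^ 3)⁻¹ := by
      intro k
      refine (E0_le hz k).trans (inv_anti₀ (by positivity) ?_)
      calc ‖z‖ ^ 3 = ‖z‖ * ‖z‖ ^ 2 := by ring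
        _ ≤ 1 * ‖z‖ ^ 2 := by gcongr
        _ = ‖z‖ ^ 2 := one_mul _
    have p3 := pd_E0_le hz i j
    have hq : 0 ≤ (‖z‖ ^ 3)⁻¹ := by positivity
    have q1 : |pd i χ z * E 0 j z| ≤ K * (‖z‖ ^ 3)⁻¹ := by
      rw [abs_mul]
      exact mul_le_mul (h.bd1 i z) (p2 j) (abs_nonneg _) hK
    have q2 : |pd j (pd i χ) z * P 0 z| ≤ (∑ i, ∑ j, B i j) * (‖z‖ ^ 3)⁻¹ := by
      rw [abs_mul, abs_of_nonneg (P0_nonneg z)]
      exact mul_le_mul ((hB i j z).trans hBij) p1 (P0_nonneg z) ((hB0 i j).trans hBij)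
    have q3 : |χ z * pd j (E 0 i) z| ≤ 1 * (4 * (‖z‖ ^ 3)⁻¹) := by
      rw [abs_mul, abs_of_nonneg (h.nonneg z)]
      exact mul_le_mul (h.le_one z) p3 (abs_nonneg _) zero_le_one
    have q4 : |pd j χ z * E 0 i z| ≤ K * (‖z‖ ^ 3)⁻¹ := by
      rw [abs_mul]
      exact mul_le_mul (h.bd1 j z) (p2 i) (abs_nonneg _) hK
    refine (abs_add_le _ _).trans ((add_le_add (abs_add_le _ _) (abs_add_le _ _)).trans ?_)
    linarith

lemma pd_smul {g : V → ℝ} {c : ℝ} {z : V} (hg : ContDiffAt ℝ ∞ g (c • z)) (j : Fin 3) :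
    pd j (fun z : V => g (c • z)) z = c * pd j g (c • z) := by
  have h1 : HasFDerivAt (fun z : V => c • z) (c • ContinuousLinearMap.id ℝ V) z :=
    (hasFDerivAt_id z).const_smul c
  have h3 : HasFDerivAt (fun z : V => g (c • z))
      ((fderiv ℝ g (c • z)).comp (c • ContinuousLinearMap.id ℝ V)) z :=
    (hg.differentiableAt (by simp)).hasFDerivAt.comp z h1
  rw [pd, h3.fderiv]
  simp [pd]

lemma pd_cmul_at {g : V → ℝ} {z : V} (hg : ContDiffAt ℝ ∞ g z) (c : ℝ) (j : Fin 3) :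
    pd j (fun z : V => c * g z) z = c * pd j g z := by
  rw [pd, fderiv_const_mul (hg.differentiableAt (by simp))]
  rfl

include h in
lemma pd_kA {ρ : ℝ} (hρ : 0 < ρ) {z : V} (hz : z ≠ 0) (i j : Fin 3) :
    pd j (kA χ ρ i) z = (ρ ^ 3)⁻¹ * pd j (A χ 0 i) (ρ⁻¹ • z) := by
  have hz' : ρ⁻¹ • z ≠ 0 := smul_ne_zero (inv_ne_zero hρ.ne') hz
  have h1 : ContDiffAt ℝ ∞ (fun z : V => A χ 0 i (ρ⁻¹ • z)) z :=
    ContDiffAt.comp z (A0_cd h hz' i) (contDiff_const_smul _).contDiffAt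
  have e : kA χ ρ i = fun z => (ρ ^ 2)⁻¹ * A χ 0 i (ρ⁻¹ • z) := rfl
  rw [e, pd_cmul_at h1, pd_smul (A0_cd h hz' i)]
  field_simp

include h in
lemma pd_kA_le {C : ℝ} (hC : ∀ i j (z : V), z ≠ 0 → |pd j (A χ 0 i) z| ≤ C * (‖z‖ ^ 3)⁻¹)
    {ρ : ℝ} (hρ : 0 < ρ) {z : V} (hz : z ≠ 0) (i j : Fin 3) :
    |pd j (kA χ ρ i) z| ≤ C * (‖z‖ ^ 3)⁻¹ := by
  have hz' : ρ⁻¹ • z ≠ 0 := smul_ne_zero (inv_ne_zero hρ.ne') hz
  have h1 := hC i j _ hz'
  have h2 : 0 < ‖z‖ := norm_pos_iff.2 hz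
  rw [pd_kA h hρ hz, abs_mul, abs_of_pos (by positivity)]
  rw [norm_smul, norm_inv, Real.norm_eq_abs, abs_of_pos hρ] at h1
  calc (ρ ^ 3)⁻¹ * |pd j (A χ 0 i) (ρ⁻¹ • z)| ≤ (ρ ^ 3)⁻¹ * (C * ((ρ⁻¹ * ‖z‖) ^ 3)⁻¹) := by
        gcongr
    _ = C * (‖z‖ ^ 3)⁻¹ := by field_simp

include h in
lemma pd_kd_le {C : ℝ} (hC : ∀ i j (z : V), z ≠ 0 → |pd j (A χ 0 i) z| ≤ C * (‖z‖ ^ 3)⁻¹)
    {ρ L : ℝ} (hρ : 0 < ρ) (hL : ρ ≤ L) {z : V} (hz : z ≠ 0) (i j : Fin 3) :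
    |pd j (kd χ ρ L i) z| ≤ 2 * C * (‖z‖ ^ 3)⁻¹ := by
  have hL0 := hρ.trans_le hL
  have e : kd χ ρ L i = fun z => kA χ L i z - kA χ ρ i z := rfl
  have h1 : pd j (kd χ ρ L i) z = pd j (kA χ L i) z - pd j (kA χ ρ i) z := by
    have := fderiv_fun_sub ((kA_cd h hL0 hz i).differentiableAt (by simp))
      ((kA_cd h hρ hz i).differentiableAt (by simp))
    rw [e, pd, this]
    rfl
  rw [h1]
  refine (abs_sub _ _).trans ?_
  have a1 := pd_kA_le h hC hL0 hz i j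
  have a2 := pd_kA_le h hC hρ hz i j
  linarith

include h in
lemma pd_kd_near {ρ L : ℝ} (hρ : 0 < ρ) (hL : ρ ≤ L) {z : V} (hz : ‖z‖ ≤ ρ / 2) (i j : Fin 3) :
    pd j (kd χ ρ L i) z = 0 := by
  have hc : Continuous (pd j (kd χ ρ L i)) := (smooth_pd (kd_smooth h hρ hL i) j).continuous
  have ho : IsOpen {z : V | ‖z‖ < ρ / 2} := isOpen_lt continuous_norm continuous_const
  have h1 : ∀ y ∈ ball (0 : V) (ρ / 2), pd j (kd χ ρ L i) y = 0 := by
    intro y hy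
    rw [mem_ball, dist_zero_right] at hy
    exact pd_eq_zero ho hy (fun w hw => kd_near h hρ hL hw i) j
  have h2 : closure (ball (0 : V) (ρ / 2)) ⊆ {y | pd j (kd χ ρ L i) y = 0} :=
    closure_minimal h1 (isClosed_eq hc continuous_const)
  rw [closure_ball _ (by positivity)] at h2
  exact h2 (by rw [mem_closedBall, dist_zero_right]; exact hz)

end

end Pool.Agent.Q67.VD
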