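import Pool.Agent.Q67.VD.Dec2
import Pool.Agent.Q67.VD.Fields

/-!
Decomposition of the solution of `Δ f = div G`.
-/

set_option autoImplicit false

open MeasureTheory Set Metric Filter Topology
open scoped ContDiff
open H459R3.NS

namespace Pool.Agent.Q67.VD

open Pool.Agent.Q153.VD (nn nn_nonneg nn_ge nn_smul nn_smooth s P E D A T Cut smooth_pd diff_of pd_coord)

lemma int_bd {F k b : V → ℝ} {S : Set V} (hS : MeasurableSet S)
    (hb : IntegrableOn (fun z => |F z| * b z) S) (hk : ∀ z, z ∉ S → k z = 0)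
    (hkb : ∀ z ∈ S, z ≠ 0 → |k z| ≤ b z) : |∫ z, F z * k z| ≤ ∫ z in S, |F z| * b z := by
  refine abs_integral_le_integral_abs.trans ?_
  rw [← integral_indicator hS]
  refine integral_mono_of_nonneg (ae_of_all _ fun z => abs_nonneg _) ?_ ?_
  · exact (integrable_indicator_iff hS).2 hb
  · filter_upwards [ae_ne_zero] with z hz
    by_cases h : z ∈ S
    · rw [indicator_of_mem h, abs_mul]
      exact mul_le_mul_of_nonneg_left (hkb z h hz) (abs_nonneg _)
    · rw [indicator_of_notMem h, hk z h, mul_zero, abs_zero]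

lemma P0_meas : Measurable (P 0) := by
  have h1 : P 0 = fun z => (√(nn z))⁻¹ := funext P0_eq
  rw [h1]
  exact (nn_smooth.continuous.measurable.sqrt).inv

lemma E0_meas (i : Fin 3) : Measurable (E 0 i) :=
  ((measurable_pi_apply i).mul (P0_meas.pow_const 3)).neg

section

variable {χ : V → ℝ} {K : ℝ} (h : Cut χ K)

include h in
lemma kA_meas (ρ : ℝ) (i : Fin 3) : Measurable (kA χ ρ i) := by
  have h1 : Measurable (A χ 0 i) :=
    ((smooth_pd h.smooth i).continuous.measurable.mul P0_meas).add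
      (h.smooth.continuous.measurable.mul (E0_meas i))
  exact (h1.comp (measurable_const_smul _)).const_mul _

include h in
lemma kA_int {ρ : ℝ} (hρ : 0 < ρ) (i : Fin 3) {F : V → ℝ} (hF : Continuous F) (hp : Per F)
    (x : V) : Integrable (fun z => F (x + z) * kA χ ρ i z) := by
  have hFc : Continuous (fun z => F (x + z)) := by fun_prop
  have h1 := (pot_integrable hp hF ρ x).const_mul (K + 1)
  rw [← IntegrableOn, ← integrable_indicator_iff measurableSet_closedBall] at h1
  refine h1.mono' (hFc.measurable.mul (kA_meas h ρ i)).aestronglyMeasurable ?_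
  filter_upwards [ae_ne_zero] with z hz
  by_cases h2 : z ∈ closedBall (0 : V) ρ
  · rw [indicator_of_mem h2, norm_mul, Real.norm_eq_abs, Real.norm_eq_abs]
    calc |F (x + z)| * |kA χ ρ i z| ≤ |F (x + z)| * ((K + 1) * (‖z‖ ^ 2)⁻¹) :=
          mul_le_mul_of_nonneg_left (kA_le h hρ hz i) (abs_nonneg _)
      _ = (K + 1) * (|F (x + z)| / ‖z‖ ^ 2) := by ring
  · rw [indicator_of_notMem h2]
    rw [mem_closedBall, dist_zero_right, not_le] at h2
    rw [kA_zero h hρ h2, mul_zero, norm_zero]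

include h in
lemma int_kA {ρ : ℝ} (hρ : 0 < ρ) (i : Fin 3) {F : V → ℝ} (hF : Continuous F) (hp : Per F)
    (x : V) : |∫ z, F (x + z) * kA χ ρ i z| ≤ (K + 1) * pot ρ F x := by
  have e : ∀ z, |F (x + z)| * ((K + 1) * (‖z‖ ^ 2)⁻¹) = (K + 1) * (|F (x + z)| / ‖z‖ ^ 2) :=
    fun z => by ring
  have h1 := int_bd (F := fun z => F (x + z)) (k := kA χ ρ i)
    (b := fun z => (K + 1) * (‖z‖ ^ 2)⁻¹) (S := closedBall (0 : V) ρ) measurableSet_closedBall
    (by simp_rw [e]; exact (pot_integrable hp hF ρ x).const_mul _)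
    (fun z hz => kA_zero h hρ (by rwa [mem_closedBall, dist_zero_right, not_le] at hz) i)
    (fun z _ hz => kA_le h hρ hz i)
  refine h1.trans (le_of_eq ?_)
  simp_rw [e]
  rw [integral_const_mul]
  rfl

include h in
lemma int_kd {C : ℝ} (hC : ∀ i j (z : V), z ≠ 0 → |pd j (A χ 0 i) z| ≤ C * (‖z‖ ^ 3)⁻¹)
    {ρ L : ℝ} (hρ : 0 < ρ) (hL : ρ ≤ L) (i j : Fin 3) {F : V → ℝ} (hF : Continuous F)
    (x : V) : |∫ z, F (x + z) * pd j (kd χ ρ L i) z| ≤ 2 * C * far ρ L F x := by
  have e : ∀ z, |F (x + z)| * (2 * C * (‖z‖ ^ 3)⁻¹) = 2 * C * (|F (x + z)| / ‖z‖ ^ 3) :=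
    fun z => by ring
  have hS : MeasurableSet (closedBall (0 : V) L \ closedBall 0 (ρ / 2)) :=
    measurableSet_closedBall.diff measurableSet_closedBall
  have hint : IntegrableOn (fun z => |F (x + z)| / ‖z‖ ^ 3)
      (closedBall (0 : V) L \ closedBall 0 (ρ / 2)) := by
    have hK : IsCompact (closedBall (0 : V) L ∩ {z | ρ / 2 ≤ ‖z‖}) :=
      (isCompact_closedBall 0 L).inter_right (isClosed_le continuous_const continuous_norm)
    refine IntegrableOn.mono_set (t := closedBall (0 : V) L ∩ {z | ρ / 2 ≤ ‖z‖}) ?_ ?_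
    · refine ContinuousOn.integrableOn_compact hK ?_
      refine ContinuousOn.div (by fun_prop) (by fun_prop) fun z hz => ?_
      have : 0 < ‖z‖ := lt_of_lt_of_le (by positivity) hz.2
      positivity
    · rintro z ⟨h1, h2⟩
      rw [mem_closedBall, dist_zero_right, not_le] at h2
      exact ⟨h1, h2.le⟩
  have h1 := int_bd (F := fun z => F (x + z)) (k := pd j (kd χ ρ L i))
    (b := fun z => 2 * C * (‖z‖ ^ 3)⁻¹) hS
    (by simp_rw [e]; exact hint.const_mul _)
    (fun z hz => by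
      by_cases hz2 : ‖z‖ ≤ ρ / 2
      · exact pd_kd_near h hρ hL hz2 i j
      · have ho : IsOpen {z : V | L < ‖z‖} := isOpen_lt continuous_const continuous_norm
        refine pd_eq_zero ho ?_ (fun y hy => kd_zero h hρ hL hy i) j
        by_contra h3
        rw [Set.mem_ofPred_eq, not_lt] at h3
        apply hz
        refine ⟨by rw [mem_closedBall, dist_zero_right]; exact h3, ?_⟩
        rw [mem_closedBall, dist_zero_right]
        exact hz2)
    (fun z _ hz => pd_kd_le h hC hρ hL hz i j)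
  refine h1.trans (le_of_eq ?_)
  simp_rw [e]
  rw [integral_const_mul]
  rfl

include h in
lemma int_kT {C : ℝ} (hC : ∀ i j (z : V), |pd j (T χ 0 i) z| ≤ C)
    {L : ℝ} (hL : 0 < L) (i j : Fin 3) {F : V → ℝ} (hF : Continuous F)
    (x : V) : |∫ z, F (x + z) * pd j (kT χ L i) z|
      ≤ C * ((∫ z in closedBall (0 : V) L, |F (x + z)|) / L ^ 4) := by
  have hpd : ∀ z, pd j (kT χ L i) z = (L ^ 3)⁻¹ * (L⁻¹ * pd j (T χ 0 i) (L⁻¹ • z)) := by
    intro z
    have h1 : ContDiffAt ℝ ∞ (fun z : V => T χ 0 i (L⁻¹ • z)) z :=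
      ((T0_smooth h i).comp (contDiff_const_smul _)).contDiffAt
    have e : kT χ L i = fun z => (L ^ 3)⁻¹ * T χ 0 i (L⁻¹ • z) := rfl
    rw [e, pd_cmul_at h1, pd_smul (T0_smooth h i).contDiffAt]
  have h1 := int_bd (F := fun z => F (x + z)) (k := pd j (kT χ L i))
    (b := fun _ => (L ^ 3)⁻¹ * (L⁻¹ * C)) (S := closedBall (0 : V) L) measurableSet_closedBall
    (by
      refine Continuous.continuousOn ?_ |>.integrableOn_compact (isCompact_closedBall 0 L)
      fun_prop)
    (fun z hz => by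
      have ho : IsOpen {z : V | L < ‖z‖} := isOpen_lt continuous_const continuous_norm
      rw [mem_closedBall, dist_zero_right, not_le] at hz
      exact pd_eq_zero ho hz (fun y hy => kT_zero h hL hy i) j)
    (fun z _ _ => by
      rw [hpd, abs_mul, abs_mul, abs_of_pos (by positivity : 0 < (L ^ 3)⁻¹),
        abs_of_pos (by positivity : 0 < L⁻¹)]
      have := hC i j (L⁻¹ • z)
      gcongr)
  refine h1.trans (le_of_eq ?_)
  rw [integral_mul_const]
  field_simp

end

theorem stmDec : StmDec := by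
  obtain ⟨χ, K, h⟩ := Pool.Agent.Q153.VD.exists_cut
  have hK := h.Kpos
  obtain ⟨C1, hC1, hA⟩ := pd_A0_le h
  have hT : ∀ i j, ∃ C, ∀ z, ‖pd j (T χ 0 i) z‖ ≤ C := fun i j =>
    (smooth_pd (T0_smooth h i) j).continuous.bounded_above_of_compact_support
      ((HasCompactSupport.intro (isCompact_closedBall (0 : V) 1) fun z hz => T0_zero h (by
        rwa [mem_closedBall, dist_zero_right, not_le] at hz) i).fderiv_apply ℝ (Pi.single j 1))
  choose B hB using hT
  have hB0 : ∀ i j, 0 ≤ B i j := fun i j => (norm_nonneg _).trans (hB i j 0)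
  set C2 : ℝ := ∑ i, ∑ j, B i j with hC2
  have hC20 : 0 ≤ C2 := Finset.sum_nonneg fun i _ => Finset.sum_nonneg fun j _ => hB0 i j
  have hT2 : ∀ i j z, |pd j (T χ 0 i) z| ≤ C2 := by
    intro i j z
    refine (hB i j z).trans ?_
    exact (Finset.single_le_sum (f := fun j => B i j) (fun j _ => hB0 i j)
      (Finset.mem_univ j)).trans (Finset.single_le_sum (f := fun i => ∑ j, B i j)
        (fun i _ => Finset.sum_nonneg fun j _ => hB0 i j) (Finset.mem_univ i))
  set c : ℝ := ∫ z : V, D 1 z with hc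
  have hc0 : 0 < c := Pool.Agent.Q153.VD.D_int_pos
  refine ⟨c⁻¹ * (K + 1 + 2 * C1 + 3 * C2), by positivity, ?_⟩
  intro ρ L f G hρ hL _ hf hG hlap
  have hL0 : 0 < L := hρ.trans_le hL
  -- the pieces
  have sp1 : ∀ (F : V → ℝ) (k : V → ℝ), Continuous F → Per F → ContDiff ℝ ∞ k →
      HasCompactSupport k → SP (fun x => ∫ z, F (x + z) * k z) := by
    intro F k hF hp hk hkc
    refine ⟨(conv_smooth hF hk hkc).1, fun i x => ?_⟩
    congr 1
    funext z
    rw [show x + Pi.single i 1 + z = x + z + Pi.single i 1 by abel, hp]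
  have s1 : ∀ i, SP (fun x => ∫ z, f (x + z) * kT χ ρ i z) := fun i =>
    sp1 f _ hf.cont hf.per (kT_smooth h ρ i) (kT_cs h hρ i)
  have s2 : ∀ i, SP (fun x => ∫ z, f (x + z) * kT χ L i z) := fun i =>
    sp1 f _ hf.cont hf.per (kT_smooth h L i) (kT_cs h hL0 i)
  have s3 : ∀ i, SP (fun x => ∫ z, G i (x + z) * kd χ ρ L i z) := fun i =>
    sp1 (G i) _ (hG i).cont (hG i).per (kd_smooth h hρ hL i) (kd_cs h hρ hL i)
  have key : ∀ x, ∑ i, ∫ z, f (x + z) * kT χ ρ i z
      = (∑ i, ∫ z, f (x + z) * kT χ L i z) + ∑ i, ∫ z, G i (x + z) * kd χ ρ L i z := by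
    intro x
    have r1 := repr h hρ hf hG hlap x
    have r2 := repr h hL0 hf hG hlap x
    have r3 : ∀ i, ∫ z, G i (x + z) * kd χ ρ L i z
        = (∫ z, G i (x + z) * kA χ L i z) - ∫ z, G i (x + z) * kA χ ρ i z := by
      intro i
      rw [← integral_sub (kA_int h hL0 i (hG i).cont (hG i).per x)
        (kA_int h hρ i (hG i).cont (hG i).per x)]
      congr 1
      funext z
      unfold kd
      ring
    simp_rw [r3]
    rw [Finset.sum_sub_distrib]
    linarith
  refine ⟨fun x => c⁻¹ * ∑ i, ∫ z, f (x + z) * kT χ ρ i z, ?_, fun x => ?_, fun x j => ?_⟩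
  · exact (SP.sum fun i _ => s1 i).cmul _
  · have r1 := repr h hρ hf hG hlap x
    have e1 : f x - c⁻¹ * ∑ i, ∫ z, f (x + z) * kT χ ρ i z
        = c⁻¹ * ∑ i, ∫ z, G i (x + z) * kA χ ρ i z := by
      have h1 : f x = c⁻¹ * (f x * c) := by field_simp
      rw [h1, r1]
      ring
    rw [e1, abs_mul, abs_of_pos (inv_pos.2 hc0), mul_assoc]
    refine mul_le_mul_of_nonneg_left ?_ (inv_pos.2 hc0).le
    refine (Finset.abs_sum_le_sum_abs _ _).trans ?_
    rw [Finset.mul_sum]
    refine Finset.sum_le_sum fun i _ => (int_kA h hρ i (hG i).cont (hG i).per x).trans ?_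
    exact mul_le_mul_of_nonneg_right (by linarith) (pot_nonneg _ _ _)
  · have e0 : (fun x => c⁻¹ * ∑ i, ∫ z, f (x + z) * kT χ ρ i z)
        = fun x => c⁻¹ * ((∑ i, ∫ z, f (x + z) * kT χ L i z)
          + ∑ i, ∫ z, G i (x + z) * kd χ ρ L i z) := funext fun x => by rw [key]
    have sA : SP (fun x => ∑ i, ∫ z, f (x + z) * kT χ L i z) := SP.sum fun i _ => s2 i
    have sB : SP (fun x => ∑ i, ∫ z, G i (x + z) * kd χ ρ L i z) := SP.sum fun i _ => s3 i
    rw [e0, pd_cmul (sA.add sB), pd_add_at sA.smooth.contDiffAt sB.smooth.contDiffAt,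
      pd_sum fun i _ => s2 i, pd_sum fun i _ => s3 i]
    have e2 : ∀ i, pd j (fun x => ∫ z, f (x + z) * kT χ L i z) x
        = -∫ z, f (x + z) * pd j (kT χ L i) z := fun i =>
      (conv_smooth hf.cont (kT_smooth h L i) (kT_cs h hL0 i)).2 x j
    have e3 : ∀ i, pd j (fun x => ∫ z, G i (x + z) * kd χ ρ L i z) x
        = -∫ z, G i (x + z) * pd j (kd χ ρ L i) z := fun i =>
      (conv_smooth (hG i).cont (kd_smooth h hρ hL i) (kd_cs h hρ hL i)).2 x j
    simp_rw [e2, e3]
    rw [abs_mul, abs_of_pos (inv_pos.2 hc0), mul_assoc]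
    refine mul_le_mul_of_nonneg_left ?_ (inv_pos.2 hc0).le
    have a1 : |∑ i, -∫ z, f (x + z) * pd j (kT χ L i) z|
        ≤ 3 * C2 * ((∫ z in closedBall (0 : V) L, |f (x + z)|) / L ^ 4) := by
      refine (Finset.abs_sum_le_sum_abs _ _).trans ?_
      have : ∀ i ∈ (Finset.univ : Finset (Fin 3)), |-∫ z, f (x + z) * pd j (kT χ L i) z|
          ≤ C2 * ((∫ z in closedBall (0 : V) L, |f (x + z)|) / L ^ 4) := fun i _ => by
        rw [abs_neg]
        exact int_kT h hT2 hL0 i j hf.cont x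
      refine (Finset.sum_le_sum this).trans (le_of_eq ?_)
      simp only [Finset.sum_const, Finset.card_univ, Fintype.card_fin, nsmul_eq_mul]
      push_cast
      ring
    have a2 : |∑ i, -∫ z, G i (x + z) * pd j (kd χ ρ L i) z| ≤ 2 * C1 * ∑ i, far ρ L (G i) x := by
      refine (Finset.abs_sum_le_sum_abs _ _).trans ?_
      rw [Finset.mul_sum]
      refine Finset.sum_le_sum fun i _ => ?_
      rw [abs_neg]
      exact int_kd h hA hρ hL i j (hG i).cont x
    have b1 : 0 ≤ ∑ i, far ρ L (G i) x := Finset.sum_nonneg fun i _ =>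
      integral_nonneg fun z => by positivity
    have b2 : 0 ≤ (∫ z in closedBall (0 : V) L, |f (x + z)|) / L ^ 4 :=
      div_nonneg (integral_nonneg fun z => abs_nonneg _) (by positivity)
    refine (abs_add_le _ _).trans ((add_le_add a1 a2).trans ?_)
    nlinarith [mul_nonneg hK b1, mul_nonneg hK b2, mul_nonneg hC1.le b1, mul_nonneg hC1.le b2,
      mul_nonneg hC20 b1, mul_nonneg hC20 b2]

end Pool.Agent.Q67.VD
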