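import Pool.Agent.Q67.VD.LocC

/-!
The production of enstrophy under a Morrey bound and a coherent direction of the vorticity.
-/

set_option autoImplicit false

open MeasureTheory Set Metric Filter
open scoped ENNReal ContDiff Topology
open H459R3.NS Pool.Agent.W268.NS

namespace Pool.Agent.Q67.VD

/-- The production of enstrophy at a fixed time. -/
def StmFix2 : Prop := ∃ C : ℝ, 0 < C ∧ ∀ (v : V → V) (K L ρ δ M ε : ℝ),
  (∀ i, SP (fun y => v y i)) → (∀ x, ∑ i, pd i (fun y => v y i) x = 0) → 0 ≤ K → 0 < ρ → ρ ≤ L →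
  L ≤ 1 / 2 → 0 ≤ δ → δ ≤ 1 → 0 < M → 0 < ε → Mor K L (om v) → Coh v M δ ρ (4 * L) →
    ∫ x in cube, stretchRate v x ≤ C * ((δ * K + ε) * palin v
      + ((δ * K + ε) / ρ ^ 2 + M ^ 2 / ε + √(energy v / L ^ 5)) * enstrophy v)

section

variable {v : V → V} (hv : ∀ i, SP (fun y => v y i))

lemma om_sq (v : V → V) (x : V) : om v x ^ 2 = ∑ i, vort v x i ^ 2 := by
  rw [om, len_sq, Fin.sum_univ_three]

lemma om_sq_le (v : V → V) (x : V) : om v x ^ 2 ≤ 2 * ∑ i, ∑ j, gradM v x i j ^ 2 := by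
  have w0 : vort v x 0 = gradM v x 1 2 - gradM v x 2 1 := rfl
  have w1 : vort v x 1 = gradM v x 2 0 - gradM v x 0 2 := rfl
  have w2 : vort v x 2 = gradM v x 0 1 - gradM v x 1 0 := rfl
  rw [om_sq]
  simp only [Fin.sum_univ_three]
  rw [w0, w1, w2]
  nlinarith [sq_nonneg (gradM v x 1 2 + gradM v x 2 1), sq_nonneg (gradM v x 2 0 + gradM v x 0 2),
    sq_nonneg (gradM v x 0 1 + gradM v x 1 0), sq_nonneg (gradM v x 0 0),
    sq_nonneg (gradM v x 1 1), sq_nonneg (gradM v x 2 2)]

include hv in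
lemma int_gradSq : ∫ x in cube, ∑ i, ∑ j, gradM v x i j ^ 2 = enstrophy v := by
  have hc : ∀ i j, Continuous (fun x => gradM v x i j ^ 2) := fun i j => (sp_grad hv i j).cont.pow 2
  rw [integral_finsetSum _ fun i _ => integrableOn_cube (continuous_finsetSum _ fun j _ => hc i j)]
  have e1 : ∀ i, ∫ x in cube, ∑ j, gradM v x i j ^ 2 = ∑ j, ∫ x in cube, gradM v x i j ^ 2 :=
    fun i => integral_finsetSum _ fun j _ => integrableOn_cube (hc i j)
  simp_rw [e1]
  rw [Finset.sum_comm]
  rfl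

include hv in
lemma int_om_sq_le : ∫ x in cube, om v x ^ 2 ≤ 2 * enstrophy v := by
  rw [← int_gradSq hv, ← integral_const_mul]
  refine integral_mono (integrableOn_cube ((om_cont hv).pow 2)) (integrableOn_cube ?_)
    (om_sq_le v)
  exact continuous_const.mul (continuous_finsetSum _ fun i _ => continuous_finsetSum _ fun j _ =>
    (sp_grad hv i j).cont.pow 2)

lemma sum3_sq_le (a : Fin 3 → ℝ) : (∑ i, a i) ^ 2 ≤ 3 * ∑ i, a i ^ 2 := by
  simp only [Fin.sum_univ_three]
  nlinarith [sq_nonneg (a 0 - a 1), sq_nonneg (a 1 - a 2), sq_nonneg (a 0 - a 2)]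

lemma sum9_sq_le (a : Fin 3 → Fin 3 → ℝ) : (∑ i, ∑ j, |a i j|) ^ 2 ≤ 9 * ∑ i, ∑ j, a i j ^ 2 := by
  refine (sum3_sq_le _).trans ?_
  have : ∑ i, (∑ j, |a i j|) ^ 2 ≤ ∑ i, 3 * ∑ j, a i j ^ 2 := by
    refine Finset.sum_le_sum fun i _ => (sum3_sq_le _).trans (le_of_eq ?_)
    simp_rw [sq_abs]
  rw [← Finset.mul_sum] at this
  linarith

include hv in
lemma int_gm_sq_le : ∫ x in cube, gm v x ^ 2 ≤ 9 * enstrophy v := by
  rw [← int_gradSq hv, ← integral_const_mul]
  refine integral_mono (integrableOn_cube ((gm_cont hv).pow 2)) (integrableOn_cube ?_)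
    (fun x => sum9_sq_le _)
  exact continuous_const.mul (continuous_finsetSum _ fun i _ => continuous_finsetSum _ fun j _ =>
    (sp_grad hv i j).cont.pow 2)

include hv in
lemma int_hess_le (a b j : Fin 3) : ∫ x in cube, pd j (fun y => gradM v y a b) x ^ 2 ≤ palin v := by
  have h1 := grd_pd_le_lap (hv b) a
  have h2 : grd (pd a (fun y => v y b)) ^ 2 ≤ nrm (lap (fun y => v y b)) ^ 2 :=
    pow_le_pow_left₀ (grd_nonneg _) h1 2
  rw [grd_sq, nrm_sq] at h2
  have h3 : ∫ x in cube, pd j (fun y => gradM v y a b) x ^ 2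
      ≤ ∑ j, ∫ x in cube, pd j (pd a (fun y => v y b)) x ^ 2 :=
    Finset.single_le_sum (f := fun j => ∫ x in cube, pd j (pd a (fun y => v y b)) x ^ 2)
      (fun _ _ => integral_nonneg fun _ => sq_nonneg _) (Finset.mem_univ j)
  have h4 : ∫ x in cube, lap (fun y => v y b) x ^ 2 ≤ palin v :=
    Finset.single_le_sum (f := fun i => ∫ x in cube, lap (fun y => v y i) x ^ 2)
      (fun _ _ => integral_nonneg fun _ => sq_nonneg _) (Finset.mem_univ b)
  exact h3.trans (h2.trans h4)

include hv in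
lemma int_pd_vort_le (i j : Fin 3) :
    ∫ x in cube, pd j (fun y => vort v y i) x ^ 2 ≤ 4 * palin v := by
  have key : ∀ a b c d : Fin 3, ∫ x in cube, pd j (fun y => gradM v y a b - gradM v y c d) x ^ 2
      ≤ 4 * palin v := by
    intro a b c d
    have h1 : ∀ x, pd j (fun y => gradM v y a b - gradM v y c d) x ^ 2
        ≤ 2 * pd j (fun y => gradM v y a b) x ^ 2 + 2 * pd j (fun y => gradM v y c d) x ^ 2 := by
      intro x
      rw [pd_sub' (sp_grad hv a b) (sp_grad hv c d)]
      nlinarith [sq_nonneg (pd j (fun y => gradM v y a b) x + pd j (fun y => gradM v y c d) x)]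
    have c1 : Continuous (fun x => pd j (fun y => gradM v y a b) x ^ 2) :=
      ((sp_grad hv a b).pd j).cont.pow 2
    have c2 : Continuous (fun x => pd j (fun y => gradM v y c d) x ^ 2) :=
      ((sp_grad hv c d).pd j).cont.pow 2
    have c3 : Continuous (fun x => pd j (fun y => gradM v y a b - gradM v y c d) x ^ 2) :=
      ((SP.sub' (sp_grad hv a b) (sp_grad hv c d)).pd j).cont.pow 2
    have j1 : Integrable (fun x => 2 * pd j (fun y => gradM v y a b) x ^ 2)
        (volume.restrict cube) := (integrableOn_cube c1).const_mul 2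
    have j2 : Integrable (fun x => 2 * pd j (fun y => gradM v y c d) x ^ 2)
        (volume.restrict cube) := (integrableOn_cube c2).const_mul 2
    have h2 := integral_mono (integrableOn_cube c3) (j1.add j2) h1
    refine h2.trans ?_
    rw [integral_add' j1 j2, integral_const_mul, integral_const_mul]
    have := int_hess_le hv a b j
    have := int_hess_le hv c d j
    linarith
  fin_cases i
  · exact key 1 2 2 1
  · exact key 2 0 0 2
  · exact key 0 1 1 0

include hv in
lemma int_dom_sq_le : ∫ x in cube, dom v x ^ 2 ≤ 324 * palin v := by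
  have hc : ∀ i j, Continuous (fun x => pd j (fun y => vort v y i) x ^ 2) := fun i j =>
    ((sp_vort hv i).pd j).cont.pow 2
  have h1 : ∫ x in cube, dom v x ^ 2
      ≤ ∫ x in cube, 9 * ∑ i, ∑ j, pd j (fun y => vort v y i) x ^ 2 := by
    refine integral_mono (integrableOn_cube ((dom_cont hv).pow 2)) (integrableOn_cube ?_)
      (fun x => sum9_sq_le _)
    exact continuous_const.mul (continuous_finsetSum _ fun i _ => continuous_finsetSum _ fun j _ =>
      hc i j)
  refine h1.trans ?_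
  rw [integral_const_mul,
    integral_finsetSum _ fun i _ => integrableOn_cube (continuous_finsetSum _ fun j _ => hc i j)]
  have e1 : ∀ i, ∫ x in cube, ∑ j, pd j (fun y => vort v y i) x ^ 2
      = ∑ j, ∫ x in cube, pd j (fun y => vort v y i) x ^ 2 :=
    fun i => integral_finsetSum _ fun j _ => integrableOn_cube (hc i j)
  simp_rw [e1]
  have h2 : ∑ i, ∑ j, ∫ x in cube, pd j (fun y => vort v y i) x ^ 2
      ≤ ∑ i : Fin 3, ∑ j : Fin 3, 4 * palin v :=
    Finset.sum_le_sum fun i _ => Finset.sum_le_sum fun j _ => int_pd_vort_le hv i j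
  simp only [Finset.sum_const, Finset.card_univ, Fintype.card_fin, nsmul_eq_mul] at h2
  push_cast at h2
  linarith

include hv in
/-- the sum of the gradients of the components of the vorticity -/
lemma sum_pd_le_dom : ∑ i, ∑ j, ∫ x in cube, pd j (fun y => vort v y i) x ^ 2
    ≤ ∫ x in cube, dom v x ^ 2 := by
  have hc : ∀ i j, Continuous (fun x => pd j (fun y => vort v y i) x ^ 2) := fun i j =>
    ((sp_vort hv i).pd j).cont.pow 2
  have e1 : ∀ i, ∫ x in cube, ∑ j, pd j (fun y => vort v y i) x ^ 2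
      = ∑ j, ∫ x in cube, pd j (fun y => vort v y i) x ^ 2 :=
    fun i => integral_finsetSum _ fun j _ => integrableOn_cube (hc i j)
  simp_rw [← e1]
  rw [← integral_finsetSum _ fun i _ =>
    integrableOn_cube (continuous_finsetSum _ fun j _ => hc i j)]
  refine integral_mono (integrableOn_cube ?_) (integrableOn_cube ((dom_cont hv).pow 2)) fun x => ?_
  · exact continuous_finsetSum _ fun i _ => continuous_finsetSum _ fun j _ => hc i j
  · have h1 : ∀ i ∈ (Finset.univ : Finset (Fin 3)), ∑ j, pd j (fun y => vort v y i) x ^ 2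
        ≤ (∑ j, |pd j (fun y => vort v y i) x|) ^ 2 := by
      intro i _
      simp only [Fin.sum_univ_three]
      have a0 := abs_nonneg (pd 0 (fun y => vort v y i) x)
      have a1 := abs_nonneg (pd 1 (fun y => vort v y i) x)
      have a2 := abs_nonneg (pd 2 (fun y => vort v y i) x)
      rw [← sq_abs (pd 0 _ x), ← sq_abs (pd 1 _ x), ← sq_abs (pd 2 _ x)]
      nlinarith [mul_nonneg a0 a1, mul_nonneg a0 a2, mul_nonneg a1 a2]
    refine (Finset.sum_le_sum h1).trans ?_
    unfold dom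
    have h2 : ∀ i, 0 ≤ ∑ j, |pd j (fun y => vort v y i) x| := fun i =>
      Finset.sum_nonneg fun j _ => abs_nonneg _
    simp only [Fin.sum_univ_three (f := fun i => (∑ j, |pd j (fun y => vort v y i) x|) ^ 2),
      Fin.sum_univ_three (f := fun i => ∑ j, |pd j (fun y => vort v y i) x|)]
    nlinarith [mul_nonneg (h2 0) (h2 1), mul_nonneg (h2 0) (h2 2), mul_nonneg (h2 1) (h2 2)]

end

lemma cube_sum_le (a : Fin 3 → ℝ) (ha : ∀ i, 0 ≤ a i) : (∑ i, a i) ^ 3 ≤ 9 * ∑ i, a i ^ 3 := by
  simp only [Fin.sum_univ_three]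
  have h0 := ha 0
  have h1 := ha 1
  have h2 := ha 2
  nlinarith [mul_nonneg (add_nonneg h0 h1) (sq_nonneg (a 0 - a 1)),
    mul_nonneg (add_nonneg h0 h2) (sq_nonneg (a 0 - a 2)),
    mul_nonneg (add_nonneg h1 h2) (sq_nonneg (a 1 - a 2)),
    mul_nonneg h0 (sq_nonneg (a 1 - a 2)), mul_nonneg h1 (sq_nonneg (a 0 - a 2)),
    mul_nonneg h2 (sq_nonneg (a 0 - a 1))]

end Pool.Agent.Q67.VD
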