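import Pool.Agent.Q67.VD.Fix

/-!
The production of enstrophy under a Morrey bound and a coherent direction of the vorticity.
-/

set_option autoImplicit false

open MeasureTheory Set Metric Filter
open scoped ENNReal ContDiff Topology
open H459R3.NS Pool.Agent.W268.NS

namespace Pool.Agent.Q67.VD

lemma len_le_sum (a : V) : len a ≤ ∑ i, |a i| := by
  refine len_le_of_sq (Finset.sum_nonneg fun _ _ => abs_nonneg _) ?_
  simp only [Fin.sum_univ_three]
  have a0 := abs_nonneg (a 0)
  have a1 := abs_nonneg (a 1)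
  have a2 := abs_nonneg (a 2)
  rw [← sq_abs (a 0), ← sq_abs (a 1), ← sq_abs (a 2)]
  nlinarith [mul_nonneg a0 a1, mul_nonneg a0 a2, mul_nonneg a1 a2]

section

variable {v : V → V} (hv : ∀ i, SP (fun y => v y i))

include hv in
lemma int_om_cube {C K ρ : ℝ} (hK : 0 ≤ K) (hC : 0 < C)
    (gn : ∀ f : V → ℝ, SP f → Mor K ρ f →
      ∫ x in cube, |f x| ^ 3 ≤
        C * K * ((∑ j, ∫ x in cube, pd j f x ^ 2) + (∫ x in cube, f x ^ 2) / ρ ^ 2))
    (hm : Mor K ρ (om v)) :
    ∫ x in cube, om v x ^ 3 ≤ 9 * (C * K *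
      ((∫ x in cube, dom v x ^ 2) + (∫ x in cube, om v x ^ 2) / ρ ^ 2)) := by
  have hoc := om_cont hv
  have h1 : ∫ x in cube, om v x ^ 3 ≤ ∫ x in cube, 9 * ∑ i, |vort v x i| ^ 3 := by
    refine integral_mono (integrableOn_cube (hoc.pow 3)) (integrableOn_cube ?_) fun x => ?_
    · exact continuous_const.mul (continuous_finsetSum _ fun i _ => (sp_vort hv i).cont.abs.pow 3)
    · exact (pow_le_pow_left₀ (om_nonneg _ _) (len_le_sum _) 3).trans
        (cube_sum_le _ fun i => abs_nonneg _)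
  have hi : ∀ i : Fin 3, Continuous (fun x => |vort v x i| ^ 3) := fun i =>
    (sp_vort hv i).cont.abs.pow 3
  have hi2 : ∀ i : Fin 3, Continuous (fun x => vort v x i ^ 2) := fun i =>
    (sp_vort hv i).cont.pow 2
  rw [integral_const_mul, integral_finsetSum _ fun i _ => integrableOn_cube (hi i)] at h1
  refine h1.trans (mul_le_mul_of_nonneg_left ?_ (by norm_num))
  have h2 : ∀ i : Fin 3, ∫ x in cube, |vort v x i| ^ 3 ≤
      C * K * ((∑ j, ∫ x in cube, pd j (fun y => vort v y i) x ^ 2)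
        + (∫ x in cube, vort v x i ^ 2) / ρ ^ 2) := by
    intro i
    refine gn _ (sp_vort hv i) ?_
    intro x r hr hrρ
    refine le_trans ?_ (hm x r hr hrρ)
    refine integral_mono ?_ ?_ fun y => ?_
    · exact (sp_vort hv i).cont.abs.continuousOn.integrableOn_compact (isCompact_closedBall _ _)
    · exact hoc.abs.continuousOn.integrableOn_compact (isCompact_closedBall _ _)
    · exact (vort_le v y i).trans (le_abs_self _)
  refine (Finset.sum_le_sum fun i _ => h2 i).trans ?_
  rw [← Finset.mul_sum, Finset.sum_add_distrib, ← Finset.sum_div,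
    ← integral_finsetSum _ fun i _ => integrableOn_cube (hi2 i)]
  refine mul_le_mul_of_nonneg_left ?_ (by positivity)
  refine add_le_add (sum_pd_le_dom hv) (le_of_eq ?_)
  simp_rw [om_sq]

end

theorem fix2 (hgn : StmGN) (htri : StmTri) (hdec : StmDec) : StmFix2 := by
  obtain ⟨C1, hC1, gn⟩ := hgn
  obtain ⟨C2, hC2, tri⟩ := htri
  obtain ⟨C3, hC3, loc⟩ := loc2 hdec
  -- `∫ (Ω pot)² ≤ c² K² X`
  set c : ℝ := √(9 * C1 * C2) with hc
  have hc0 : 0 < c := Real.sqrt_pos.2 (by positivity)
  have hc2 : c ^ 2 = 9 * C1 * C2 := Real.sq_sqrt (by positivity)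
  refine ⟨C3 * (1000 * (2 * c + 1)), by positivity, ?_⟩
  intro v K L ρ δ M ε hv hdiv hK hρ hρL hL hδ hδ1 hM hε hm hco
  have hoc := om_cont hv
  have hdc := dom_cont hv
  have hgc := gm_cont hv
  have hpc := pot_cont (om_per hv) hoc ρ
  have hmρ : Mor K ρ (om v) := fun x r hr hrρ => hm x r hr (hrρ.trans hρL)
  have hρ1 : ρ ≤ 1 := by linarith
  have hY := int_om_sq_le hv
  have hZ := int_dom_sq_le hv
  have hG := int_gm_sq_le hv
  set Y := ∫ x in cube, om v x ^ 2 with hYd
  set Z := ∫ x in cube, dom v x ^ 2 with hZd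
  set G := ∫ x in cube, gm v x ^ 2 with hGd
  have hY0 : 0 ≤ Y := integral_nonneg fun _ => sq_nonneg _
  have hZ0 : 0 ≤ Z := integral_nonneg fun _ => sq_nonneg _
  have hG0 : 0 ≤ G := integral_nonneg fun _ => sq_nonneg _
  have hP : ∫ x in cube, (om v x * pot ρ (om v) x) ^ 2 ≤ (c * K) ^ 2 * (Z + Y / ρ ^ 2) := by
    have h1 := tri K ρ (om v) hK hρ hρ1 hoc (om_per hv) (om_nonneg v) hmρ
    have h2 := int_om_cube hv hK hC1 (fun f hf hmf => gn K ρ f hK hρ hρ1 hf hmf) hmρ
    simp_rw [mul_pow]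
    refine h1.trans ((mul_le_mul_of_nonneg_left h2 (by positivity)).trans (le_of_eq ?_))
    rw [hc2]
    ring
  set X := Z + Y / ρ ^ 2 with hX
  have hYρ0 : 0 ≤ Y / ρ ^ 2 := by positivity
  have hX0 : 0 ≤ X := by positivity
  -- norms
  have nP : nrm (fun x => om v x * pot ρ (om v) x) ≤ c * K * √X := by
    have : c * K * √X = √((c * K) ^ 2 * X) := by
      rw [Real.sqrt_mul (by positivity), Real.sqrt_sq (by positivity)]
    rw [this]
    exact Real.sqrt_le_sqrt hP
  have nZ : nrm (dom v) ≤ √X := Real.sqrt_le_sqrt (by rw [hX]; linarith)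
  have nY : nrm (om v) ≤ ρ * √X := by
    have : ρ * √X = √(ρ ^ 2 * X) := by
      rw [Real.sqrt_mul (by positivity), Real.sqrt_sq hρ.le]
    rw [this]
    refine Real.sqrt_le_sqrt ?_
    rw [hX, mul_add, mul_div_cancel₀ _ (by positivity : ρ ^ 2 ≠ 0)]
    have : 0 ≤ ρ ^ 2 * Z := by positivity
    linarith
  have sX : √X * √X = X := Real.mul_self_sqrt hX0
  have t1 : ∫ x in cube, (om v x * pot ρ (om v) x) * dom v x ≤ c * K * X := by
    refine (le_abs_self _).trans ((abs_int_mul_le (hoc.mul hpc) hdc).trans ?_)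
    calc _ ≤ (c * K * √X) * √X := mul_le_mul nP nZ (nrm_nonneg _) (by positivity)
      _ = c * K * X := by rw [mul_assoc, sX]
  have t2 : ∫ x in cube, (om v x * pot ρ (om v) x) * om v x ≤ c * K * ρ * X := by
    refine (le_abs_self _).trans ((abs_int_mul_le (hoc.mul hpc) hoc).trans ?_)
    calc _ ≤ (c * K * √X) * (ρ * √X) := mul_le_mul nP nY (nrm_nonneg _) (by positivity)
      _ = c * K * ρ * (√X * √X) := by ring
      _ = c * K * ρ * X := by rw [sX]
  have t3 : M * ρ * ∫ x in cube, om v x * dom v x ≤ ε * Z + M ^ 2 / ε * Y := by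
    have h1 := (le_abs_self _).trans (abs_int_mul_le hoc hdc)
    have h2 : M * ρ * (nrm (om v) * nrm (dom v)) ≤ ε * Z + M ^ 2 / ε * Y := by
      have e1 : Y = nrm (om v) ^ 2 := (nrm_sq _).symm
      have e2 : Z = nrm (dom v) ^ 2 := (nrm_sq _).symm
      rw [e1, e2]
      have n1 := nrm_nonneg (om v)
      have n2 := nrm_nonneg (dom v)
      have h3 : M * (nrm (om v) * nrm (dom v)) ≤ ε * nrm (dom v) ^ 2
          + M ^ 2 / ε * nrm (om v) ^ 2 := by
        have h4 : 0 ≤ ε * (nrm (dom v) - M / ε * nrm (om v)) ^ 2 := by positivity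
        have h5 : ε * (nrm (dom v) - M / ε * nrm (om v)) ^ 2
            = ε * nrm (dom v) ^ 2 + M ^ 2 / ε * nrm (om v) ^ 2
              - 2 * (M * (nrm (om v) * nrm (dom v))) := by
          field_simp
          ring
        rw [h5] at h4
        have h6 : 0 ≤ M * (nrm (om v) * nrm (dom v)) := by positivity
        linarith
      refine le_trans ?_ h3
      have h7 : 0 ≤ M * (nrm (om v) * nrm (dom v)) := by positivity
      nlinarith
    exact (mul_le_mul_of_nonneg_left h1 (by positivity)).trans h2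
  have t4 : ∫ x in cube, om v x * gm v x ≤ (Y + G) / 2 := by
    have h1 := (le_abs_self _).trans (abs_int_mul_le hoc hgc)
    have e1 : Y = nrm (om v) ^ 2 := (nrm_sq _).symm
    have e2 : G = nrm (gm v) ^ 2 := (nrm_sq _).symm
    rw [e1, e2]
    nlinarith [sq_nonneg (nrm (om v) - nrm (gm v))]
  -- the integral of the density
  set F : ℝ := δ * K / ρ ^ 2 + M / ρ + √(energy v / L ^ 5) with hF
  have hBf : ∫ x in cube, Bf v K L ρ δ M x
      = δ * (∫ x in cube, (om v x * pot ρ (om v) x) * dom v x)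
        + δ / ρ * (∫ x in cube, (om v x * pot ρ (om v) x) * om v x)
        + M * ρ * (∫ x in cube, om v x * dom v x) + (M + F) * Y
        + M * ∫ x in cube, om v x * gm v x := by
    have e1 : ∀ x, Bf v K L ρ δ M x = ((((δ * ((om v x * pot ρ (om v) x) * dom v x)
        + δ / ρ * ((om v x * pot ρ (om v) x) * om v x))
        + M * ρ * (om v x * dom v x)) + (M + F) * om v x ^ 2) + M * (om v x * gm v x)) := by
      intro x
      unfold Bf
      rw [← hF]
      field_simp
      ring
    simp_rw [e1]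
    have i1 : IntegrableOn (fun x => δ * ((om v x * pot ρ (om v) x) * dom v x)) cube :=
      integrableOn_cube (by fun_prop)
    have i2 : IntegrableOn (fun x => δ / ρ * ((om v x * pot ρ (om v) x) * om v x)) cube :=
      integrableOn_cube (by fun_prop)
    have i3 : IntegrableOn (fun x => M * ρ * (om v x * dom v x)) cube :=
      integrableOn_cube (by fun_prop)
    have i4 : IntegrableOn (fun x => (M + F) * om v x ^ 2) cube :=
      integrableOn_cube (by fun_prop)
    have i5 : IntegrableOn (fun x => M * (om v x * gm v x)) cube :=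
      integrableOn_cube (by fun_prop)
    have i12 : IntegrableOn (fun x => δ * ((om v x * pot ρ (om v) x) * dom v x)
        + δ / ρ * ((om v x * pot ρ (om v) x) * om v x)) cube := i1.add i2
    have i123 : IntegrableOn (fun x => δ * ((om v x * pot ρ (om v) x) * dom v x)
        + δ / ρ * ((om v x * pot ρ (om v) x) * om v x) + M * ρ * (om v x * dom v x)) cube :=
      i12.add i3
    have i1234 : IntegrableOn (fun x => δ * ((om v x * pot ρ (om v) x) * dom v x)
        + δ / ρ * ((om v x * pot ρ (om v) x) * om v x) + M * ρ * (om v x * dom v x)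
        + (M + F) * om v x ^ 2) cube := i123.add i4
    rw [integral_add i1234 i5, integral_add i123 i4, integral_add i12 i3, integral_add i1 i2]
    simp_rw [integral_const_mul]
    rfl
  -- conclusion
  refine (loc v K L ρ δ M hv hdiv hK hρ hρL hL hδ hδ1 hM hm hco).trans ?_
  rw [mul_assoc]
  refine mul_le_mul_of_nonneg_left ?_ hC3.le
  rw [hBf]
  have hPal : 0 ≤ palin v := by linarith
  have hEn : 0 ≤ enstrophy v := by linarith
  set S := √(energy v / L ^ 5) with hS
  have hS0 : 0 ≤ S := Real.sqrt_nonneg _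
  have u1 : δ * (∫ x in cube, (om v x * pot ρ (om v) x) * dom v x) ≤ c * (δ * K) * X := by
    calc _ ≤ δ * (c * K * X) := mul_le_mul_of_nonneg_left t1 hδ
      _ = _ := by ring
  have u2 : δ / ρ * (∫ x in cube, (om v x * pot ρ (om v) x) * om v x) ≤ c * (δ * K) * X := by
    calc _ ≤ δ / ρ * (c * K * ρ * X) := mul_le_mul_of_nonneg_left t2 (by positivity)
      _ = _ := by field_simp
  have u3 : M ≤ M ^ 2 / ε + ε / ρ ^ 2 := by
    have h1 : M ≤ M ^ 2 / ε + ε := by
      have h2 : M ^ 2 / ε + ε - M = ((M - ε / 2) ^ 2 + 3 / 4 * ε ^ 2) / ε := by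
        field_simp
        ring
      have h3 : 0 ≤ ((M - ε / 2) ^ 2 + 3 / 4 * ε ^ 2) / ε := by positivity
      linarith
    have h2 : ε ≤ ε / ρ ^ 2 := by
      rw [le_div_iff₀ (by positivity)]
      have : ρ ^ 2 ≤ 1 := pow_le_one₀ hρ.le hρ1
      nlinarith
    linarith
  have u4 : M / ρ ≤ M ^ 2 / ε + ε / ρ ^ 2 := by
    have h1 : M ^ 2 / ε + ε / ρ ^ 2 - M / ρ
        = ((M * ρ - ε / 2) ^ 2 + 3 / 4 * ε ^ 2) / (ε * ρ ^ 2) := by
      field_simp
      ring
    have h3 : 0 ≤ ((M * ρ - ε / 2) ^ 2 + 3 / 4 * ε ^ 2) / (ε * ρ ^ 2) := by positivity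
    linarith
  set A := M ^ 2 / ε with hA
  have hA0 : 0 ≤ A := by positivity
  set B := ε / ρ ^ 2 with hB
  have hB0 : 0 ≤ B := by positivity
  set J := δ * K with hJ
  have hJ0 : 0 ≤ J := by positivity
  have eJ : (J + ε) / ρ ^ 2 = J / ρ ^ 2 + B := by rw [hB]; ring
  rw [eJ]
  set T := J / ρ ^ 2 with hT
  have hT0 : 0 ≤ T := by positivity
  have u5 : c * J * X ≤ c * (J * (324 * palin v)) + c * (T * (2 * enstrophy v)) := by
    have e1 : c * J * X = c * (J * Z) + c * (T * Y) := by rw [hX, hT]; ring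
    rw [e1]
    exact add_le_add (mul_le_mul_of_nonneg_left (mul_le_mul_of_nonneg_left hZ hJ0) hc0.le)
      (mul_le_mul_of_nonneg_left (mul_le_mul_of_nonneg_left hY hT0) hc0.le)
  have u6 : ε * Z + A * Y ≤ ε * (324 * palin v) + A * (2 * enstrophy v) :=
    add_le_add (mul_le_mul_of_nonneg_left hZ hε.le) (mul_le_mul_of_nonneg_left hY hA0)
  have u7 : (M + F) * Y ≤ (2 * (A + B) + T + S) * (2 * enstrophy v) := by
    refine mul_le_mul ?_ hY hY0 (by positivity)
    rw [hF]
    linarith
  have u8 : M * ∫ x in cube, om v x * gm v x ≤ (A + B) * (11 / 2 * enstrophy v) := by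
    calc _ ≤ M * ((Y + G) / 2) := mul_le_mul_of_nonneg_left t4 hM.le
      _ ≤ (A + B) * (11 / 2 * enstrophy v) :=
          mul_le_mul u3 (by linarith) (by positivity) (by positivity)
  have p1 : 0 ≤ J * palin v := by positivity
  have p2 : 0 ≤ ε * palin v := by positivity
  have p3 : 0 ≤ A * enstrophy v := by positivity
  have p4 : 0 ≤ B * enstrophy v := by positivity
  have p5 : 0 ≤ T * enstrophy v := by positivity
  have p6 : 0 ≤ S * enstrophy v := by positivity
  nlinarith [mul_nonneg hc0.le p1, mul_nonneg hc0.le p2, mul_nonneg hc0.le p3,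
    mul_nonneg hc0.le p4, mul_nonneg hc0.le p5, mul_nonneg hc0.le p6]

end Pool.Agent.Q67.VD
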