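import Pool.Agent.Q67.VD.Time

/-!
Directions of the vorticity which are Hoelder continuous.
-/

set_option autoImplicit false

open MeasureTheory Set Metric Filter
open scoped ENNReal ContDiff Topology
open H459R3.NS Pool.Agent.W268.NS

namespace Pool.Agent.Q67.VD

/-- The two-scale criterion with the constant `C`. -/
def Crit (C : ℝ) : Prop :=
  ∀ (ν T : ℝ) (u : ℝ → V → V) (p : ℝ → V → ℝ) (T₀ : ℝ) (κ R₀ R₁ M Γ : ℝ → ℝ), 0 < ν →
    IsSol ν T u p → T₀ ∈ Ico 0 T →
    (∀ t ∈ Ioo T₀ T, 0 < M t ∧ 0 < κ t ∧ κ t ≤ 1 ∧ 0 < R₁ t ∧ R₁ t ≤ R₀ t ∧ R₀ t ≤ 1 ∧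
      ν / R₁ t ^ 2 + M t ^ 2 / ν + √(energy (u T₀) / R₀ t ^ 5) ≤ Γ t ∧
      ∀ x y, ‖x - y‖ ≤ R₀ t → M t < om (u t) x → M t < om (u t) y →
        κ t ≤ dir (u t) x ⬝ᵥ dir (u t) y ∧
        len (dir (u t) x - dir (u t) y)
          ≤ min 1 (κ t ^ 2 * ν / (C * (√(energy (u T₀) / R₀ t) + M t)))
            * (1 + ‖x - y‖ / R₁ t)) →
    IntegrableOn Γ (Ioo T₀ T) →
    (∀ t ∈ Ico T₀ T, enstrophy (u t) ≤ enstrophy (u T₀) * Real.exp (C * ∫ s in T₀..t, Γ s)) ∧
    ∃ B, ∀ t ∈ Ico 0 T, ∀ x i, |u t x i| ≤ B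

lemma two_scales {G β δ r R₁ : ℝ} (hβ0 : 0 < β) (hβ1 : β ≤ 1) (hG : 0 < G) (hδ : 0 < δ)
    (hr : 0 ≤ r) (hR : R₁ = (δ / G) ^ (1 / β)) : G * r ^ β ≤ δ * (1 + r / R₁) := by
  have hR0 : 0 < R₁ := by rw [hR]; positivity
  have hRβ : G * R₁ ^ β = δ := by
    rw [hR, ← Real.rpow_mul (by positivity), one_div, inv_mul_cancel₀ hβ0.ne', Real.rpow_one]
    field_simp
  have e1 : G * r ^ β = δ * (r / R₁) ^ β := by
    rw [Real.div_rpow hr hR0.le, ← hRβ]
    have : R₁ ^ β ≠ 0 := (Real.rpow_pos_of_pos hR0 _).ne'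
    field_simp
  rw [e1]
  refine mul_le_mul_of_nonneg_left ?_ hδ.le
  have hs : 0 ≤ r / R₁ := by positivity
  rcases le_total (r / R₁) 1 with h | h
  · have : (r / R₁) ^ β ≤ 1 := Real.rpow_le_one hs h hβ0.le
    linarith
  · have : (r / R₁) ^ β ≤ (r / R₁) ^ (1 : ℝ) := Real.rpow_le_rpow_of_exponent_le h hβ1
    rw [Real.rpow_one] at this
    linarith

/-- the rate in the exponent of the growth of the enstrophy -/
lemma rate_le {β ν E M C G : ℝ} (hβ0 : 0 < β) (hβ1 : β ≤ 1) (hν : 0 < ν) (hE : 0 ≤ E)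
    (hM : 0 < M) (hC : 0 < C) (hG : 1 ≤ G) {R₀ δ : ℝ} (hR0 : R₀ = G ^ (-(1 / β)))
    (hδ : δ = min 1 ((1 / 2) ^ 2 * ν / (C * (√(E / R₀) + M)))) :
    ν / ((δ / G) ^ (1 / β)) ^ 2 + M ^ 2 / ν + √(E / R₀ ^ 5)
      ≤ (ν * (1 + 4 * C * (√E + M) / ν) ^ (2 / β) + M ^ 2 / ν + √E)
        * G ^ ((2 * β + 1) / β ^ 2) := by
  have hG0 : 0 < G := by linarith
  set q : ℝ := (2 * β + 1) / β ^ 2 with hq
  have hR0p : 0 < R₀ := by rw [hR0]; positivity
  have hGq : 1 ≤ G ^ q := Real.one_le_rpow hG (by positivity)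
  have hsq : ∀ k : ℕ, √(E / R₀ ^ k) = √E * G ^ ((k : ℝ) / (2 * β)) := by
    intro k
    rw [Real.sqrt_div hE, div_eq_mul_inv]
    congr 1
    rw [Real.sqrt_eq_rpow, hR0, ← Real.rpow_natCast, ← Real.rpow_mul hG0.le,
      ← Real.rpow_mul hG0.le, ← Real.rpow_neg hG0.le]
    congr 1
    field_simp
  set D : ℝ := C * (√(E / R₀) + M) with hD
  have hDp : 0 < D := by
    have : 0 ≤ √(E / R₀) := Real.sqrt_nonneg _
    positivity
  have hδp : 0 < δ := by rw [hδ]; exact lt_min one_pos (by positivity)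
  have hinv : 1 / δ ≤ (1 + 4 * C * (√E + M) / ν) * G ^ (1 / (2 * β)) := by
    have h1 : 1 / δ ≤ 1 + 4 * D / ν := by
      rw [hδ]
      have hq0 : 0 < 4 * D / ν := by positivity
      rcases le_total 1 ((1 / 2) ^ 2 * ν / D) with h | h
      · rw [min_eq_left h]
        simp only [ne_eq, one_ne_zero, not_false_eq_true, div_self]
        linarith
      · rw [min_eq_right h, one_div_div]
        have : D / ((1 / 2) ^ 2 * ν) = 4 * D / ν := by field_simp; norm_num
        linarith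
    have h2 := hsq 1
    rw [pow_one, Nat.cast_one] at h2
    have h3 : 1 ≤ G ^ (1 / (2 * β)) := Real.one_le_rpow hG (by positivity)
    refine h1.trans ?_
    rw [hD, h2, add_mul, one_mul]
    have h4 : 4 * (C * (√E * G ^ (1 / (2 * β)) + M)) / ν
        ≤ 4 * C * (√E + M) / ν * G ^ (1 / (2 * β)) := by
      rw [div_mul_eq_mul_div, mul_assoc, mul_assoc]
      gcongr
      rw [add_mul]
      have : M * 1 ≤ M * G ^ (1 / (2 * β)) := mul_le_mul_of_nonneg_left h3 hM.le
      linarith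
    linarith
  set a : ℝ := 1 + 4 * C * (√E + M) / ν with ha
  have ha0 : 0 < a := by
    have : 0 ≤ √E := Real.sqrt_nonneg _
    positivity
  have t1 : ν / ((δ / G) ^ (1 / β)) ^ 2 ≤ ν * a ^ (2 / β) * G ^ q := by
    have e1 : ((δ / G) ^ (1 / β)) ^ 2 = (δ / G) ^ (2 / β) := by
      rw [← Real.rpow_natCast, ← Real.rpow_mul (by positivity)]
      congr 1
      push_cast
      ring
    have e2 : ν / (δ / G) ^ (2 / β) = ν * (G * (1 / δ)) ^ (2 / β) := by
      rw [div_eq_mul_inv, ← Real.inv_rpow (by positivity)]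
      congr 2
      field_simp
    rw [e1, e2, mul_assoc]
    refine mul_le_mul_of_nonneg_left ?_ hν.le
    have h1 : G * (1 / δ) ≤ a * G ^ (1 + 1 / (2 * β)) := by
      rw [Real.rpow_add hG0, Real.rpow_one]
      calc G * (1 / δ) ≤ G * (a * G ^ (1 / (2 * β))) := mul_le_mul_of_nonneg_left hinv hG0.le
        _ = _ := by ring
    calc (G * (1 / δ)) ^ (2 / β) ≤ (a * G ^ (1 + 1 / (2 * β))) ^ (2 / β) :=
          Real.rpow_le_rpow (by positivity) h1 (by positivity)
      _ = a ^ (2 / β) * G ^ q := by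
          rw [Real.mul_rpow ha0.le (by positivity), ← Real.rpow_mul hG0.le]
          congr 2
          rw [hq]
          field_simp
  have t2 : M ^ 2 / ν ≤ M ^ 2 / ν * G ^ q := by
    have : 0 ≤ M ^ 2 / ν := by positivity
    nlinarith
  have t3 : √(E / R₀ ^ 5) ≤ √E * G ^ q := by
    rw [hsq 5]
    refine mul_le_mul_of_nonneg_left ?_ (Real.sqrt_nonneg _)
    refine Real.rpow_le_rpow_of_exponent_le hG ?_
    rw [hq, div_le_div_iff₀ (by positivity) (by positivity)]
    push_cast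
    nlinarith [mul_pos hβ0 hβ0]
  rw [add_mul, add_mul]
  linarith

/-- Hoelder continuous directions. -/
theorem holder {C : ℝ} (hC : 0 < C) (hcrit : Crit C) {β ν E M : ℝ} (hβ0 : 0 < β) (hβ1 : β ≤ 1)
    (hν : 0 < ν) (hE : 0 ≤ E) (hM : 0 < M) : ∃ Λ : ℝ, 0 < Λ ∧
    ∀ (T : ℝ) (u : ℝ → V → V) (p : ℝ → V → ℝ) (T₀ : ℝ) (g : ℝ → ℝ),
    IsSol ν T u p → T₀ ∈ Ico 0 T → energy (u T₀) ≤ E → (∀ t ∈ Ioo T₀ T, 0 ≤ g t) →
    (∀ t ∈ Ioo T₀ T, ∀ x y, M < om (u t) x → M < om (u t) y →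
      len (dir (u t) x - dir (u t) y) ≤ g t * ‖x - y‖ ^ β) →
    IntegrableOn (fun t => g t ^ ((2 * β + 1) / β ^ 2)) (Ioo T₀ T) →
    (∀ t ∈ Ico T₀ T, enstrophy (u t) ≤ enstrophy (u T₀)
      * Real.exp (Λ * ∫ s in T₀..t, (1 + g s) ^ ((2 * β + 1) / β ^ 2))) ∧
    ∃ B, ∀ t ∈ Ico 0 T, ∀ x i, |u t x i| ≤ B := by
  set q : ℝ := (2 * β + 1) / β ^ 2 with hq
  have hq0 : 0 < q := by positivity
  set Λ' : ℝ := ν * (1 + 4 * C * (√E + M) / ν) ^ (2 / β) + M ^ 2 / ν + √E with hΛ'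
  have hsE : 0 ≤ √E := Real.sqrt_nonneg _
  have hΛ'0 : 0 < Λ' := by positivity
  refine ⟨C * Λ', by positivity, ?_⟩
  intro T u p T₀ g hsol hT₀ hEn hg hdir hgi
  set G : ℝ → ℝ := fun t => 1 + g t with hG
  have hG1 : ∀ t ∈ Ioo T₀ T, 1 ≤ G t := fun t ht => by
    have := hg t ht
    simp only [hG]
    linarith
  set R₀ : ℝ → ℝ := fun t => G t ^ (-(1 / β)) with hR₀
  set δ : ℝ → ℝ := fun t => min 1 ((1 / 2) ^ 2 * ν / (C * (√(E / R₀ t) + M))) with hδ
  set R₁ : ℝ → ℝ := fun t => (δ t / G t) ^ (1 / β) with hR₁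
  have hint : IntegrableOn (fun t => Λ' * G t ^ q) (Ioo T₀ T) := by
    refine Integrable.const_mul ?_ _
    have hmeas : AEStronglyMeasurable (fun t => G t ^ q) (volume.restrict (Ioo T₀ T)) := by
      have h1 : AEMeasurable (fun t => g t ^ q) (volume.restrict (Ioo T₀ T)) :=
        hgi.aestronglyMeasurable.aemeasurable
      have h2 : AEMeasurable (fun t => (1 + (g t ^ q) ^ (1 / q)) ^ q)
          (volume.restrict (Ioo T₀ T)) := ((h1.pow_const _).const_add 1).pow_const _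
      refine AEMeasurable.aestronglyMeasurable (h2.congr ?_)
      refine (ae_restrict_iff' measurableSet_Ioo).2 (Eventually.of_forall fun t ht => ?_)
      simp only [hG]
      rw [← Real.rpow_mul (hg t ht), mul_one_div_cancel hq0.ne', Real.rpow_one]
    have hb : IntegrableOn (fun t => (2 : ℝ) ^ q * (1 + g t ^ q)) (Ioo T₀ T) := by
      refine Integrable.const_mul (Integrable.add ?_ hgi) _
      exact integrableOn_const (by simp)
    refine hb.mono' hmeas ?_
    refine (ae_restrict_iff' measurableSet_Ioo).2 (Eventually.of_forall fun t ht => ?_)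
    have hgt := hg t ht
    simp only [hG]
    rw [Real.norm_eq_abs, abs_of_nonneg (by positivity)]
    have h3 : 0 ≤ g t ^ q := Real.rpow_nonneg hgt _
    rcases le_total (g t) 1 with h | h
    · calc (1 + g t) ^ q ≤ 2 ^ q := Real.rpow_le_rpow (by positivity) (by linarith) hq0.le
        _ ≤ 2 ^ q * (1 + g t ^ q) := by
            have : (0 : ℝ) ≤ 2 ^ q := by positivity
            nlinarith
    · calc (1 + g t) ^ q ≤ (2 * g t) ^ q :=
            Real.rpow_le_rpow (by positivity) (by linarith) hq0.le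
        _ = 2 ^ q * g t ^ q := Real.mul_rpow (by norm_num) hgt
        _ ≤ 2 ^ q * (1 + g t ^ q) := by
            have : (0 : ℝ) ≤ 2 ^ q := by positivity
            nlinarith
  have key := hcrit ν T u p T₀ (fun _ => 1 / 2) R₀ R₁ (fun _ => M) (fun t => Λ' * G t ^ q) hν hsol hT₀
    (fun t ht => ?_) hint
  · obtain ⟨k1, k2⟩ := key
    refine ⟨fun t ht => ?_, k2⟩
    have h1 := k1 t ht
    rw [intervalIntegral.integral_const_mul, ← mul_assoc] at h1
    exact h1
  · have hG1t := hG1 t ht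
    have hG0 : 0 < G t := by linarith
    have hR0p : 0 < R₀ t := Real.rpow_pos_of_pos hG0 _
    have hDp : 0 < C * (√(E / R₀ t) + M) := by
      have : 0 ≤ √(E / R₀ t) := Real.sqrt_nonneg _
      positivity
    have hδp : 0 < δ t := lt_min one_pos (by positivity)
    have hδ1 : δ t ≤ 1 := min_le_left _ _
    have hR1p : 0 < R₁ t := Real.rpow_pos_of_pos (by positivity) _
    have hR10 : R₁ t ≤ R₀ t := by
      simp only [hR₁, hR₀]
      rw [Real.rpow_neg hG0.le, ← Real.inv_rpow hG0.le]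
      refine Real.rpow_le_rpow (by positivity) ?_ (by positivity)
      rw [div_eq_mul_inv]
      have : 0 ≤ (G t)⁻¹ := by positivity
      nlinarith
    have hR01 : R₀ t ≤ 1 := by
      simp only [hR₀]
      exact Real.rpow_le_one_of_one_le_of_nonpos hG1t (by
        have : 0 < 1 / β := by positivity
        linarith)
    have hgG : g t ≤ G t := by simp only [hG]; linarith
    refine ⟨hM, by norm_num, by norm_num, hR1p, hR10, hR01, ?_, fun x y hxy hx hy => ?_⟩
    · have h1 := rate_le hβ0 hβ1 hν hE hM hC hG1t (R₀ := R₀ t) (δ := δ t) rfl rfl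
      refine le_trans ?_ h1
      have h2 : √(energy (u T₀) / R₀ t ^ 5) ≤ √(E / R₀ t ^ 5) :=
        Real.sqrt_le_sqrt (div_le_div_of_nonneg_right hEn (by positivity))
      exact add_le_add le_rfl h2
    · have hn := norm_nonneg (x - y)
      have h1 : len (dir (u t) x - dir (u t) y) ≤ G t * ‖x - y‖ ^ β :=
        (hdir t ht x y hx hy).trans (mul_le_mul_of_nonneg_right hgG (Real.rpow_nonneg hn _))
      constructor
      · refine half_le_of_dir (hM.trans hx) (hM.trans hy) (h1.trans ?_)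
        have h2 : ‖x - y‖ ^ β ≤ R₀ t ^ β := Real.rpow_le_rpow hn hxy hβ0.le
        have h3 : R₀ t ^ β = (G t)⁻¹ := by
          simp only [hR₀]
          rw [← Real.rpow_mul hG0.le, ← Real.rpow_neg_one]
          congr 1
          field_simp
        calc G t * ‖x - y‖ ^ β ≤ G t * (G t)⁻¹ := by
              rw [← h3]
              exact mul_le_mul_of_nonneg_left h2 hG0.le
          _ = 1 := mul_inv_cancel₀ hG0.ne'
      · refine h1.trans ((two_scales hβ0 hβ1 hG0 hδp hn rfl).trans ?_)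
        refine mul_le_mul_of_nonneg_right ?_ (by positivity)
        refine min_le_min le_rfl ?_
        refine div_le_div_of_nonneg_left (by positivity) ?_ ?_
        · have : 0 ≤ √(energy (u T₀) / R₀ t) := Real.sqrt_nonneg _
          positivity
        · refine mul_le_mul_of_nonneg_left ?_ hC.le
          have : √(energy (u T₀) / R₀ t) ≤ √(E / R₀ t) :=
            Real.sqrt_le_sqrt (div_le_div_of_nonneg_right hEn hR0p.le)
          linarith

end Pool.Agent.Q67.VD
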