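import Pool.Agent.Q67.VD.Shell

/-!
Tools for the local estimate of the production of enstrophy.
-/

set_option autoImplicit false

open MeasureTheory Set Metric Filter
open scoped ENNReal ContDiff Topology
open H459R3.NS Pool.Agent.W268.NS

namespace Pool.Agent.Q67.VD

/-- The sum of the moduli of the derivatives of the velocity. -/
noncomputable def gm (v : V → V) (x : V) : ℝ := ∑ i, ∑ j, |gradM v x i j|

/-- The density in the local estimate. -/
noncomputable def Bf (v : V → V) (K L ρ δ M : ℝ) (x : V) : ℝ :=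
  (δ * pot ρ (om v) x + M * ρ) * (om v x * dom v x + om v x ^ 2 / ρ)
    + (δ * K / ρ ^ 2 + M / ρ + √(energy v / L ^ 5)) * om v x ^ 2 + M * (om v x * gm v x)

/-- The local estimate of the production of enstrophy. -/
def StmLoc2 : Prop := ∃ C : ℝ, 0 < C ∧ ∀ (v : V → V) (K L ρ δ M : ℝ),
  (∀ i, SP (fun y => v y i)) → (∀ x, ∑ i, pd i (fun y => v y i) x = 0) → 0 ≤ K → 0 < ρ → ρ ≤ L →
  L ≤ 1 / 2 → 0 ≤ δ → δ ≤ 1 → 0 < M → Mor K L (om v) → Coh v M δ ρ (4 * L) →
    ∫ x in cube, stretchRate v x ≤ C * ∫ x in cube, Bf v K L ρ δ M x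

lemma pd_mul_of {f g : V → ℝ} {x : V} (hf : DifferentiableAt ℝ f x) (hg : DifferentiableAt ℝ g x)
    (j : Fin 3) : pd j (fun y => f y * g y) x = f x * pd j g x + pd j f x * g x := by
  unfold pd
  have h : HasFDerivAt (fun y => f y * g y) _ x := hf.hasFDerivAt.mul hg.hasFDerivAt
  rw [h.fderiv]
  simp only [add_apply, smul_apply, smul_eq_mul]
  ring

lemma cs_of {F : V → ℝ} {x₀ : V} {ρ : ℝ} (h0 : ∀ y, y ∉ closedBall x₀ ρ → F y = 0) :
    HasCompactSupport F := HasCompactSupport.intro (isCompact_closedBall x₀ ρ) h0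

lemma pd_out {F : V → ℝ} {x₀ : V} {ρ : ℝ} (h0 : ∀ y, y ∉ closedBall x₀ ρ → F y = 0) (j : Fin 3)
    {y : V} (hy : y ∉ closedBall x₀ ρ) : pd j F y = 0 := by
  have h1 : F =ᶠ[𝓝 y] fun _ => (0 : ℝ) := by
    filter_upwards [isClosed_closedBall.isOpen_compl.mem_nhds hy] with z hz
    exact h0 z hz
  rw [pd, h1.fderiv_eq]
  simp

lemma far_part {χ R P : V → ℝ} {x₀ : V} {ρ : ℝ} (hχ : Continuous χ) (hR : Continuous R)
    (hP : Continuous P) (h0 : ∀ y, y ∉ closedBall x₀ ρ → χ y = 0)
    (h : ∀ y ∈ closedBall x₀ ρ, |χ y * R y| ≤ P y) :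
    |∫ y, χ y * R y| ≤ ∫ y in closedBall x₀ ρ, P y := by
  refine abs_integral_le_integral_abs.trans ?_
  rw [← setIntegral_eq_integral_of_forall_compl_eq_zero (s := closedBall x₀ ρ)]
  · refine setIntegral_mono_on ?_ ?_ isClosed_closedBall.measurableSet h
    · exact ((hχ.mul hR).abs.continuousOn).integrableOn_compact (isCompact_closedBall _ _)
    · exact hP.continuousOn.integrableOn_compact (isCompact_closedBall _ _)
  · intro y hy
    rw [h0 y hy, zero_mul, abs_zero]

lemma near_part {F g P : V → ℝ} {x₀ : V} {ρ : ℝ} (hF : ContDiff ℝ 1 F) (hg : ContDiff ℝ 1 g)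
    (hP : Continuous P) (h0 : ∀ y, y ∉ closedBall x₀ ρ → F y = 0) (j : Fin 3)
    (h : ∀ y ∈ closedBall x₀ ρ, |pd j F y * g y| ≤ P y) :
    |∫ y, F y * pd j g y| ≤ ∫ y in closedBall x₀ ρ, P y := by
  rw [ibp_cs hF (cs_of h0) hg j, abs_neg]
  exact far_part ((hF.continuous_fderiv one_ne_zero).clm_apply continuous_const) hg.continuous hP
    (fun y hy => pd_out h0 j hy) h

section

variable {v : V → V} (hv : ∀ i, SP (fun y => v y i))

include hv in
lemma om_cont : Continuous (om v) := by
  have h : Continuous (fun x => vort v x ⬝ᵥ vort v x) := by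
    simp only [dotProduct]
    exact continuous_finsetSum _ fun i _ => (sp_vort hv i).cont.mul (sp_vort hv i).cont
  exact h.sqrt

include hv in
lemma om_per : Per (om v) := by
  intro i x
  have h : vort v (x + Pi.single i 1) = vort v x := by
    funext j
    exact (sp_vort hv j).per i x
  unfold om
  rw [h]

include hv in
lemma dom_cont : Continuous (dom v) := by
  unfold dom
  exact continuous_finsetSum _ fun i _ => continuous_finsetSum _ fun j _ =>
    ((sp_vort hv i).pd j).cont.abs

include hv in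
lemma dom_per : Per (dom v) := by
  intro k x
  unfold dom
  refine Finset.sum_congr rfl fun i _ => Finset.sum_congr rfl fun j _ => ?_
  rw [((sp_vort hv i).pd j).per k x]

include hv in
lemma gm_cont : Continuous (gm v) := by
  unfold gm
  exact continuous_finsetSum _ fun i _ => continuous_finsetSum _ fun j _ =>
    (sp_grad hv i j).cont.abs

include hv in
lemma gm_per : Per (gm v) := by
  intro k x
  unfold gm
  refine Finset.sum_congr rfl fun i _ => Finset.sum_congr rfl fun j _ => ?_
  exact congrArg abs ((sp_grad hv i j).per k x)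

lemma gm_nonneg (v : V → V) (x : V) : 0 ≤ gm v x :=
  Finset.sum_nonneg fun _ _ => Finset.sum_nonneg fun _ _ => abs_nonneg _

lemma grad_le_gm (v : V → V) (x : V) (i j : Fin 3) : |gradM v x i j| ≤ gm v x := by
  unfold gm
  refine (Finset.single_le_sum (f := fun j => |gradM v x i j|)
    (fun j _ => abs_nonneg _) (Finset.mem_univ j)).trans ?_
  exact Finset.single_le_sum (f := fun i => ∑ j, |gradM v x i j|)
    (fun i _ => Finset.sum_nonneg fun j _ => abs_nonneg _) (Finset.mem_univ i)

include hv in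
lemma Bf_cont (K L ρ δ M : ℝ) : Continuous (Bf v K L ρ δ M) := by
  have h1 := om_cont hv
  have h2 := dom_cont hv
  have h3 := gm_cont hv
  have h4 := pot_cont (om_per hv) h1 ρ
  unfold Bf
  fun_prop

include hv in
lemma Bf_per (K L ρ δ M : ℝ) : Per (Bf v K L ρ δ M) := by
  intro i x
  have h1 := om_per hv i x
  have h2 := dom_per hv i x
  have h3 := gm_per hv i x
  have h4 := pot_per (om_per hv) ρ i x
  unfold Bf
  rw [h1, h2, h3, h4]

lemma Bf_nonneg (v : V → V) {K L ρ δ M : ℝ} (hK : 0 ≤ K) (hρ : 0 < ρ) (hδ : 0 ≤ δ)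
    (hM : 0 ≤ M) (x : V) : 0 ≤ Bf v K L ρ δ M x := by
  have h1 := om_nonneg v x
  have h2 := dom_nonneg v x
  have h3 := gm_nonneg v x
  have h4 := pot_nonneg (om v) ρ x
  unfold Bf
  positivity

/-- the stretching rate is trivially bounded where the vorticity is small -/
lemma stretch_le (v : V → V) (x : V) : |stretchRate v x| ≤ om v x * (om v x * gm v x) := by
  unfold stretchRate
  refine (Finset.abs_sum_le_sum_abs _ _).trans ?_
  have h1 : ∀ i ∈ (Finset.univ : Finset (Fin 3)),
      |∑ j, vort v x i * gradM v x i j * vort v x j| ≤ ∑ j, om v x * om v x * |gradM v x i j| := by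
    intro i _
    refine (Finset.abs_sum_le_sum_abs _ _).trans (Finset.sum_le_sum fun j _ => ?_)
    rw [abs_mul, abs_mul]
    have h2 := vort_le v x i
    have h3 := vort_le v x j
    calc |vort v x i| * |gradM v x i j| * |vort v x j|
        ≤ om v x * |gradM v x i j| * om v x :=
          mul_le_mul (mul_le_mul_of_nonneg_right h2 (abs_nonneg _)) h3 (abs_nonneg _)
            (mul_nonneg (om_nonneg _ _) (abs_nonneg _))
      _ = _ := by ring
  refine (Finset.sum_le_sum h1).trans (le_of_eq ?_)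
  unfold gm
  simp_rw [← Finset.mul_sum]
  ring

lemma energy_nonneg' (v : V → V) : 0 ≤ energy v :=
  Finset.sum_nonneg fun _ _ => integral_nonneg fun _ => sq_nonneg _

lemma comp_le_energy (v : V → V) (j : Fin 3) : ∫ y in cube, v y j ^ 2 ≤ energy v :=
  Finset.single_le_sum (f := fun i => ∫ x in cube, v x i ^ 2)
    (fun _ _ => integral_nonneg fun _ => sq_nonneg _) (Finset.mem_univ j)

include hv in
lemma lin_le_energy {e : V} (he : len e = 1) : ∫ y in cube, lin e v y ^ 2 ≤ energy v := by
  have h1 : ∀ y, lin e v y ^ 2 ≤ ∑ i, v y i ^ 2 := by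
    intro y
    have h2 := dot_le_len (a := v y) he
    have h3 : lin e v y ^ 2 ≤ len (v y) ^ 2 := by
      rw [← sq_abs]
      exact pow_le_pow_left₀ (abs_nonneg _) h2 2
    rw [len_sq] at h3
    rw [Fin.sum_univ_three]
    exact h3
  have h4 : ∫ y in cube, lin e v y ^ 2 ≤ ∫ y in cube, ∑ i, v y i ^ 2 := by
    refine integral_mono ?_ ?_ h1
    · exact integrableOn_cube ((sp_lin hv e).cont.pow 2)
    · exact integrableOn_cube (continuous_finsetSum _ fun i _ => (hv i).cont.pow 2)
  refine h4.trans (le_of_eq ?_)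
  have h5 : ∀ i : Fin 3, Continuous (fun y => v y i ^ 2) := fun i => (hv i).cont.pow 2
  rw [integral_finsetSum _ fun i _ => integrableOn_cube (h5 i)]
  rfl

end

end Pool.Agent.Q67.VD
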