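import Pool.Agent.Q67.VD.Str
import Pool.Agent.Q67.VD.Defs2
import Pool.Agent.H459R3.NS.High

/-!
Integrals over shells, under a Morrey bound.
-/

set_option autoImplicit false

open MeasureTheory Set Metric Filter
open scoped ENNReal ContDiff Topology
open H459R3.NS Pool.Agent.W268.NS

namespace Pool.Agent.Q67.VD

lemma ball_shift (f : V → ℝ) (x : V) (r : ℝ) :
    ∫ z in closedBall (0 : V) r, f (x + z) = ∫ y in closedBall x r, f y := by
  have h3 : (MeasurableEmbedding (fun y : V => y + x)) := measurableEmbedding_addRight _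
  have h4 := (measurePreserving_add_right (volume : Measure V) x).setIntegral_image_emb h3 f
    (closedBall 0 r)
  have h5 : (fun y : V => y + x) '' closedBall 0 r = closedBall x r := by
    ext y
    simp only [mem_image, mem_closedBall, dist_eq_norm, sub_zero]
    constructor
    · rintro ⟨z, hz, rfl⟩
      simpa using hz
    · intro h
      exact ⟨y - x, h, by simp⟩
  rw [h5] at h4
  rw [h4]
  simp_rw [add_comm x]

lemma shell {f : V → ℝ} (hp : Per f) (hc : Continuous f) {K L : ℝ} (hf : Mor K L f) (x : V) (n : ℕ) :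
    ∀ r, 0 < r → r ≤ L → L ≤ 2 ^ n * r →
      ∫ z in closedBall (0 : V) L \ closedBall 0 r, |f (x + z)| / ‖z‖ ^ 2 ≤ 4 * K / r := by
  have hK : ∀ r, 0 < r → r ≤ L → 0 ≤ K := by
    intro r hr hrL
    have h1 := hf x r hr hrL
    have h2 : 0 ≤ ∫ y in closedBall x r, |f y| := integral_nonneg fun _ => abs_nonneg _
    by_contra h3
    push Not at h3
    have := mul_neg_of_neg_of_pos h3 hr
    linarith
  -- one shell
  have one : ∀ a b, 0 < a → a ≤ b → b ≤ 2 * a → b ≤ L →
      ∫ z in closedBall (0 : V) b \ closedBall 0 a, |f (x + z)| / ‖z‖ ^ 2 ≤ 2 * K / a := by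
    intro a b ha hab hb hbL
    have hK0 := hK a ha (hab.trans hbL)
    have h1 : ∫ z in closedBall (0 : V) b \ closedBall 0 a, |f (x + z)| / ‖z‖ ^ 2
        ≤ ∫ z in closedBall (0 : V) b \ closedBall 0 a, |f (x + z)| / a ^ 2 := by
      refine setIntegral_mono_on ((pot_integrable hp hc b x).mono_set sdiff_subset) ?_
        (isClosed_closedBall.measurableSet.diff isClosed_closedBall.measurableSet) fun z hz => ?_
      · refine IntegrableOn.mono_set ?_ sdiff_subset
        refine Continuous.continuousOn ?_ |>.integrableOn_compact (isCompact_closedBall 0 b)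
        fun_prop
      · have h2 : a < ‖z‖ := by
          have := hz.2
          rw [mem_closedBall, dist_zero_right, not_le] at this
          exact this
        exact div_le_div_of_nonneg_left (abs_nonneg _) (by positivity)
          (pow_le_pow_left₀ ha.le h2.le 2)
    have h2 : ∫ z in closedBall (0 : V) b \ closedBall 0 a, |f (x + z)| / a ^ 2
        ≤ ∫ z in closedBall (0 : V) b, |f (x + z)| / a ^ 2 := by
      refine setIntegral_mono_set ?_ (Eventually.of_forall fun z => by positivity)
        (Eventually.of_forall sdiff_subset)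
      refine Continuous.continuousOn ?_ |>.integrableOn_compact (isCompact_closedBall 0 b)
      fun_prop
    refine h1.trans (h2.trans ?_)
    rw [integral_div, ball_shift (fun y => |f y|) x b, div_le_div_iff₀ (by positivity) ha]
    have h3 := hf x b (ha.trans_le hab) hbL
    calc (∫ y in closedBall x b, |f y|) * a ≤ (K * b) * a := mul_le_mul_of_nonneg_right h3 ha.le
      _ ≤ (K * (2 * a)) * a := by
          refine mul_le_mul_of_nonneg_right (mul_le_mul_of_nonneg_left hb hK0) ha.le
      _ = 2 * K * a ^ 2 := by ring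
  induction n with
  | zero =>
    intro r hr hrL h
    rw [pow_zero, one_mul] at h
    have hK0 := hK r hr hrL
    refine (one r L hr hrL (by linarith) le_rfl).trans ?_
    exact div_le_div_of_nonneg_right (by linarith) hr.le
  | succ n ih =>
    intro r hr hrL h
    have hK0 := hK r hr hrL
    rcases le_total L (2 * r) with h2 | h2
    · refine (one r L hr hrL h2 le_rfl).trans ?_
      exact div_le_div_of_nonneg_right (by linarith) hr.le
    · have h3 := ih (2 * r) (by positivity) h2 (by rw [pow_succ] at h; linarith)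
      have h4 := one r (2 * r) hr (by linarith) le_rfl h2
      have h5 : closedBall (0 : V) L \ closedBall 0 r
          = (closedBall (0 : V) L \ closedBall 0 (2 * r)) ∪ (closedBall (0 : V) (2 * r) \ closedBall 0 r) := by
        ext z
        simp only [Set.mem_sdiff, mem_union, mem_closedBall, dist_zero_right, not_le]
        constructor
        · rintro ⟨h6, h7⟩
          rcases lt_or_ge (2 * r) ‖z‖ with h8 | h8
          · exact Or.inl ⟨h6, h8⟩
          · exact Or.inr ⟨h8, h7⟩
        · rintro (⟨h6, h7⟩ | ⟨h6, h7⟩)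
          · exact ⟨h6, by linarith⟩
          · exact ⟨by linarith, h7⟩
      rw [h5, setIntegral_union]
      · have h6 : 4 * K / r = 4 * K / (2 * r) + 2 * K / r := by field_simp; ring
        rw [h6]
        exact add_le_add h3 h4
      · rw [Set.disjoint_left]
        rintro z ⟨_, h7⟩ ⟨h8, _⟩
        exact h7 h8
      · exact isClosed_closedBall.measurableSet.diff isClosed_closedBall.measurableSet
      · exact (pot_integrable hp hc L x).mono_set sdiff_subset
      · exact (pot_integrable hp hc (2 * r) x).mono_set sdiff_subset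

lemma shell' {f : V → ℝ} (hp : Per f) (hc : Continuous f) {K L : ℝ} (hf : Mor K L f) (x : V)
    {r : ℝ} (hr : 0 < r) (hrL : r ≤ L) :
    ∫ z in closedBall (0 : V) L \ closedBall 0 r, |f (x + z)| / ‖z‖ ^ 2 ≤ 4 * K / r := by
  obtain ⟨n, hn⟩ := pow_unbounded_of_one_lt (L / r) one_lt_two
  refine shell hp hc hf x n r hr hrL ?_
  rw [div_lt_iff₀ hr] at hn
  exact hn.le

/-- The far part of a function bounded by `(a ‖z‖ / ρ) |g| + M`. -/
lemma far_le {f g : V → ℝ} (hg : Per g) (hgc : Continuous g) {K L ρ a M : ℝ}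
    (hm : Mor K L g) (hρ : 0 < ρ) (hρL : ρ ≤ L) (ha : 0 ≤ a) (hM : 0 ≤ M) {x : V}
    (h : ∀ z, ρ / 2 ≤ ‖z‖ → ‖z‖ ≤ L → |f (x + z)| ≤ a * ‖z‖ / ρ * |g (x + z)| + M) :
    far ρ L f x ≤ 8 * a * K / ρ ^ 2 + 48 * M * L / ρ := by
  have hL : 0 < L := hρ.trans_le hρL
  have hρ2 : 0 < ρ / 2 := by positivity
  have hsh := shell' hg hgc hm x hρ2 (by linarith)
  have hmeas : MeasurableSet (closedBall (0 : V) L \ closedBall 0 (ρ / 2)) :=
    isClosed_closedBall.measurableSet.diff isClosed_closedBall.measurableSet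
  have i1 : IntegrableOn (fun z => |g (x + z)| / ‖z‖ ^ 2)
      (closedBall (0 : V) L \ closedBall 0 (ρ / 2)) :=
    (pot_integrable hg hgc L x).mono_set sdiff_subset
  have i2 : IntegrableOn (fun z : V => (‖z‖ ^ 2)⁻¹) (closedBall (0 : V) L \ closedBall 0 (ρ / 2)) :=
    (ker_int L).mono_set sdiff_subset
  have h1 : far ρ L f x ≤ ∫ z in closedBall (0 : V) L \ closedBall 0 (ρ / 2),
      (a / ρ * (|g (x + z)| / ‖z‖ ^ 2) + 2 * M / ρ * (‖z‖ ^ 2)⁻¹) := by
    unfold far
    refine integral_mono_of_nonneg (Eventually.of_forall fun z => by positivity)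
      ((i1.const_mul _).add (i2.const_mul _)) ?_
    refine (ae_restrict_iff' hmeas).2 (Eventually.of_forall fun z hz => ?_)
    have hz1 : ρ / 2 < ‖z‖ := by
      have := hz.2
      rw [mem_closedBall, dist_zero_right, not_le] at this
      exact this
    have hz2 : ‖z‖ ≤ L := by simpa using hz.1
    have hz0 : 0 < ‖z‖ := hρ2.trans hz1
    have h2 := h z hz1.le hz2
    calc |f (x + z)| / ‖z‖ ^ 3 ≤ (a * ‖z‖ / ρ * |g (x + z)| + M) / ‖z‖ ^ 3 :=
          div_le_div_of_nonneg_right h2 (by positivity)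
      _ = a / ρ * (|g (x + z)| / ‖z‖ ^ 2) + M / ‖z‖ * (‖z‖ ^ 2)⁻¹ := by
          field_simp
      _ ≤ a / ρ * (|g (x + z)| / ‖z‖ ^ 2) + 2 * M / ρ * (‖z‖ ^ 2)⁻¹ := by
          have h3 : M / ‖z‖ ≤ 2 * M / ρ := by
            rw [div_le_div_iff₀ hz0 hρ]
            nlinarith
          have h4 : 0 ≤ (‖z‖ ^ 2)⁻¹ := by positivity
          linarith [mul_le_mul_of_nonneg_right h3 h4]
  refine h1.trans ?_
  rw [integral_add (i1.const_mul _) (i2.const_mul _), integral_const_mul, integral_const_mul]
  have h5 : ∫ z in closedBall (0 : V) L \ closedBall 0 (ρ / 2), (‖z‖ ^ 2)⁻¹ ≤ 24 * L := by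
    rw [← ker_val hL.le]
    exact setIntegral_mono_set (ker_int L) (Eventually.of_forall fun z => by positivity)
      (Eventually.of_forall sdiff_subset)
  have h6 : a / ρ * ∫ z in closedBall (0 : V) L \ closedBall 0 (ρ / 2), |g (x + z)| / ‖z‖ ^ 2
      ≤ a / ρ * (4 * K / (ρ / 2)) := mul_le_mul_of_nonneg_left hsh (by positivity)
  have h7 : 2 * M / ρ * ∫ z in closedBall (0 : V) L \ closedBall 0 (ρ / 2), (‖z‖ ^ 2)⁻¹
      ≤ 2 * M / ρ * (24 * L) := mul_le_mul_of_nonneg_left h5 (by positivity)
  have h8 : a / ρ * (4 * K / (ρ / 2)) = 8 * a * K / ρ ^ 2 := by field_simp; ring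
  have h9 : 2 * M / ρ * (24 * L) = 48 * M * L / ρ := by ring
  linarith

/-- The mean over a large cube. -/
lemma mean_le {f : V → ℝ} (hp : Per f) (hc : Continuous f) {L E : ℝ} (hL : 0 < L)
    (hL2 : L ≤ 1 / 2) (x : V) (hE : ∫ y in cube, f y ^ 2 ≤ E) :
    (∫ z in closedBall (0 : V) L, |f (x + z)|) / L ^ 4 ≤ 3 * √(E / L ^ 5) := by
  rw [ball_shift (fun y => |f y|) x L]
  set a := ∫ y in closedBall x L, |f y| with ha
  have hE0 : 0 ≤ E := le_trans (integral_nonneg fun y => sq_nonneg _) hE
  have hc2 : Continuous (fun y => f y ^ 2) := by fun_prop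
  have hca : Continuous (fun y => |f y|) := by fun_prop
  have hb : ∫ y in closedBall x L, f y ^ 2 ≤ E :=
    (int_ball_le hc2 (fun i y => by show f _ ^ 2 = f _ ^ 2; rw [hp i y]) (fun y => sq_nonneg _) x
      hL2).trans hE
  have ha0 : 0 ≤ a := integral_nonneg fun y => abs_nonneg _
  have ic : ∀ g : V → ℝ, Continuous g → IntegrableOn g (closedBall x L) := fun g hg =>
    hg.continuousOn.integrableOn_compact (isCompact_closedBall x L)
  have h1 : 0 ≤ ∫ y in closedBall x L, (|f y| - a / (8 * L ^ 3)) ^ 2 :=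
    integral_nonneg fun y => sq_nonneg _
  have h2 : ∫ y in closedBall x L, (|f y| - a / (8 * L ^ 3)) ^ 2
      = (∫ y in closedBall x L, f y ^ 2) - a ^ 2 / (8 * L ^ 3) := by
    have e1 : ∀ y, (|f y| - a / (8 * L ^ 3)) ^ 2
        = (f y ^ 2 - 2 * (a / (8 * L ^ 3)) * |f y|) + (a / (8 * L ^ 3)) ^ 2 := by
      intro y
      rw [sub_sq, sq_abs]; ring
    simp_rw [e1]
    have j1 : Integrable (fun y => f y ^ 2 - 2 * (a / (8 * L ^ 3)) * |f y|)
        (volume.restrict (closedBall x L)) := ic _ (by fun_prop)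
    have j2 : Integrable (fun y => 2 * (a / (8 * L ^ 3)) * |f y|)
        (volume.restrict (closedBall x L)) := ic _ (by fun_prop)
    rw [integral_add j1 (ic _ continuous_const), integral_sub (ic _ hc2) j2, integral_const_mul,
      ← ha]
    simp only [integral_const, measureReal_restrict_apply MeasurableSet.univ, univ_inter,
      vol_ball_real x hL.le, smul_eq_mul]
    field_simp
    ring
  rw [h2] at h1
  have h3 : a ^ 2 ≤ 8 * L ^ 3 * E := by
    have h4 : a ^ 2 / (8 * L ^ 3) ≤ E := by linarith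
    rw [div_le_iff₀ (by positivity)] at h4
    linarith
  have h5 : (a / L ^ 4) ^ 2 ≤ 9 * (E / L ^ 5) := by
    rw [div_pow, div_le_iff₀ (by positivity)]
    have e2 : 9 * (E / L ^ 5) * (L ^ 4) ^ 2 = 9 * L ^ 3 * E := by field_simp
    rw [e2]
    have : 0 ≤ L ^ 3 * E := by positivity
    nlinarith
  have h6 : a / L ^ 4 ≤ √(9 * (E / L ^ 5)) := Real.le_sqrt_of_sq_le h5
  refine h6.trans (le_of_eq ?_)
  rw [Real.sqrt_mul (by norm_num), show (9 : ℝ) = 3 ^ 2 by norm_num, Real.sqrt_sq (by norm_num)]

end Pool.Agent.Q67.VD
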