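import Pool.Agent.Q67.VD.Fields

/-!
The strong part of the vorticity orthogonal to `e`.
-/

set_option autoImplicit false

open MeasureTheory Set Metric Filter
open scoped ENNReal ContDiff Topology
open H459R3.NS Pool.Agent.W268.NS

namespace Pool.Agent.Q67.VD

/-- a smooth step -/
noncomputable def stp (s : ℝ) : ℝ := Real.smoothTransition ((s - 1) / 3)

lemma stp_smooth : ContDiff ℝ ∞ stp :=
  Real.smoothTransition.contDiff.comp ((contDiff_id.sub contDiff_const).div_const 3)

lemma stp_nonneg (s : ℝ) : 0 ≤ stp s := Real.smoothTransition.nonneg _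

lemma stp_le_one (s : ℝ) : stp s ≤ 1 := Real.smoothTransition.le_one _

lemma stp_zero {s : ℝ} (h : s ≤ 1) : stp s = 0 :=
  Real.smoothTransition.zero_of_nonpos (by linarith)

lemma stp_one {s : ℝ} (h : 4 ≤ s) : stp s = 1 :=
  Real.smoothTransition.one_of_one_le (by linarith)

lemma stp_deriv_zero {s : ℝ} (h : s < 1 ∨ 4 < s) : deriv stp s = 0 := by
  rcases h with h | h
  · have h1 : stp =ᶠ[𝓝 s] fun _ => 0 := by
      filter_upwards [Iio_mem_nhds h] with t ht
      exact stp_zero (le_of_lt ht)
    rw [h1.deriv_eq]; simp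
  · have h1 : stp =ᶠ[𝓝 s] fun _ => 1 := by
      filter_upwards [Ioi_mem_nhds h] with t ht
      exact stp_one (le_of_lt ht)
    rw [h1.deriv_eq]; simp

lemma stp_bdd : ∃ C : ℝ, 0 < C ∧ ∀ s, |deriv stp s| ≤ C := by
  have hc : Continuous (deriv stp) := stp_smooth.continuous_deriv (by norm_cast)
  obtain ⟨C, hC⟩ := (isCompact_Icc (a := (1 : ℝ)) (b := 4)).exists_bound_of_continuousOn
    hc.continuousOn
  refine ⟨max C 1, by positivity, fun s => ?_⟩
  by_cases h : s ∈ Icc (1 : ℝ) 4
  · exact (hC s h).trans (le_max_left _ _)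
  · have h2 : s < 1 ∨ 4 < s := by
      rcases lt_or_ge s 1 with h3 | h3
      · exact Or.inl h3
      · rcases lt_or_ge 4 s with h4 | h4
        · exact Or.inr h4
        · exact absurd ⟨h3, h4⟩ h
    rw [stp_deriv_zero h2, abs_zero]
    positivity

/-- the square of the length of the vorticity -/
noncomputable def qf (v : V → V) (x : V) : ℝ := ∑ i, vort v x i * vort v x i

lemma qf_eq (v : V → V) (x : V) : qf v x = om v x ^ 2 := by
  rw [om, len_sq, qf, Fin.sum_univ_three]; ring

/-- the cut-off function for the strong vorticity -/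
noncomputable def th (v : V → V) (M : ℝ) (x : V) : ℝ := stp (1 / M ^ 2 * qf v x)

/-- the strong part of the vorticity orthogonal to `e` -/
noncomputable def bs (e : V) (v : V → V) (M : ℝ) (i : Fin 3) (x : V) : ℝ := th v M x * bf e v i x

lemma dom_nonneg (v : V → V) (x : V) : 0 ≤ dom v x :=
  Finset.sum_nonneg fun _ _ => Finset.sum_nonneg fun _ _ => abs_nonneg _

lemma pd_vort_le (v : V → V) (x : V) (i j : Fin 3) : |pd j (fun y => vort v y i) x| ≤ dom v x := by
  unfold dom
  refine (Finset.single_le_sum (f := fun j => |pd j (fun y => vort v y i) x|)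
    (fun j _ => abs_nonneg _) (Finset.mem_univ j)).trans ?_
  exact Finset.single_le_sum (f := fun i => ∑ j, |pd j (fun y => vort v y i) x|)
    (fun i _ => Finset.sum_nonneg fun j _ => abs_nonneg _) (Finset.mem_univ i)

lemma sum_pd_vort_le (v : V → V) (x : V) (j : Fin 3) :
    ∑ i, |pd j (fun y => vort v y i) x| ≤ dom v x := by
  unfold dom
  exact Finset.sum_le_sum fun i _ => Finset.single_le_sum
    (f := fun j => |pd j (fun y => vort v y i) x|) (fun j _ => abs_nonneg _) (Finset.mem_univ j)

lemma abs_le_one_of_len {e : V} (he : len e = 1) (i : Fin 3) : |e i| ≤ 1 := by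
  rw [← he]; exact abs_le_len e i

section

variable {v : V → V} (hv : ∀ i, SP (fun y => v y i))

include hv in
lemma sp_qf : SP (qf v) := SP.sum fun i _ => (sp_vort hv i).mul (sp_vort hv i)

include hv in
lemma sp_th (M : ℝ) : SP (th v M) := sp_comp ((sp_qf hv).cmul (1 / M ^ 2)) stp_smooth

include hv in
lemma sp_bs (e : V) (M : ℝ) (i : Fin 3) : SP (bs e v M i) := (sp_th hv M).mul (sp_bf hv e i)

lemma th_nonneg (v : V → V) (M : ℝ) (x : V) : 0 ≤ th v M x := stp_nonneg _

lemma th_le_one (v : V → V) (M : ℝ) (x : V) : th v M x ≤ 1 := stp_le_one _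

lemma th_zero {M : ℝ} (hM : 0 < M) {x : V} (h : om v x ≤ M) : th v M x = 0 := by
  unfold th
  apply stp_zero
  rw [qf_eq, one_div, inv_mul_le_iff₀ (by positivity), mul_one]
  exact pow_le_pow_left₀ (om_nonneg _ _) h 2

lemma th_one {M : ℝ} (hM : 0 < M) {x : V} (h : 2 * M ≤ om v x) : th v M x = 1 := by
  unfold th
  apply stp_one
  rw [qf_eq, one_div, le_inv_mul_iff₀ (by positivity)]
  nlinarith

lemma af_le {e : V} (he : len e = 1) (v : V → V) (x : V) : |af e v x| ≤ om v x := dot_le_len he

lemma bf_le {e : V} (he : len e = 1) (v : V → V) (i : Fin 3) (x : V) : |bf e v i x| ≤ om v x :=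
  perp_le_len he i

lemma bs_le {e : V} (he : len e = 1) (v : V → V) (M : ℝ) (i : Fin 3) (x : V) :
    |bs e v M i x| ≤ om v x := by
  unfold bs
  rw [abs_mul, abs_of_nonneg (th_nonneg _ _ _)]
  calc th v M x * |bf e v i x| ≤ 1 * om v x :=
        mul_le_mul (th_le_one _ _ _) (bf_le he v i x) (abs_nonneg _) zero_le_one
    _ = om v x := one_mul _

lemma bf_sub_bs_le {e : V} (he : len e = 1) {M : ℝ} (hM : 0 < M) (v : V → V) (i : Fin 3) (x : V) :
    |bf e v i x - bs e v M i x| ≤ 2 * M := by
  have h1 : bf e v i x - bs e v M i x = (1 - th v M x) * bf e v i x := by unfold bs; ring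
  rw [h1, abs_mul]
  rcases le_total (2 * M) (om v x) with h | h
  · rw [th_one hM h, sub_self, abs_zero, zero_mul]; positivity
  · calc |1 - th v M x| * |bf e v i x| ≤ 1 * om v x := by
          refine mul_le_mul ?_ (bf_le he v i x) (abs_nonneg _) zero_le_one
          rw [abs_le]
          constructor <;> linarith [th_nonneg v M x, th_le_one v M x]
      _ ≤ 2 * M := by rw [one_mul]; exact h

include hv in
lemma pd_af_le {e : V} (he : len e = 1) (j : Fin 3) (x : V) : |pd j (af e v) x| ≤ dom v x := by
  have h1 : pd j (af e v) x = ∑ m, e m * pd j (fun y => vort v y m) x := by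
    have := pd_sum (s := Finset.univ) (f := fun m => fun y => e m * vort v y m)
      (fun m _ => (sp_vort hv m).cmul (e m)) j x
    rw [show af e v = fun y => ∑ m, e m * vort v y m from rfl, this]
    exact Finset.sum_congr rfl fun m _ => pd_cmul (sp_vort hv m) _ _ _
  rw [h1]
  refine (Finset.abs_sum_le_sum_abs _ _).trans ((Finset.sum_le_sum fun m _ => ?_).trans
    (sum_pd_vort_le v x j))
  rw [abs_mul]
  calc |e m| * |pd j (fun y => vort v y m) x| ≤ 1 * |pd j (fun y => vort v y m) x| :=
        mul_le_mul_of_nonneg_right (abs_le_one_of_len he m) (abs_nonneg _)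
    _ = _ := one_mul _

include hv in
lemma pd_bf_le {e : V} (he : len e = 1) (i j : Fin 3) (x : V) :
    |pd j (bf e v i) x| ≤ 2 * dom v x := by
  have h1 : pd j (bf e v i) x = pd j (fun y => vort v y i) x - e i * pd j (af e v) x := by
    have e1 : bf e v i = fun x => vort v x i - e i * af e v x := by
      funext x; unfold bf; ring
    rw [e1, pd_sub' (sp_vort hv i) ((sp_af hv e).cmul (e i)), pd_cmul (sp_af hv e)]
  rw [h1]
  have h2 := pd_vort_le v x i j
  have h3 : |e i * pd j (af e v) x| ≤ dom v x := by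
    rw [abs_mul]
    calc |e i| * |pd j (af e v) x| ≤ 1 * dom v x :=
          mul_le_mul (abs_le_one_of_len he i) (pd_af_le hv he j x) (abs_nonneg _) zero_le_one
      _ = _ := one_mul _
  exact (abs_sub _ _).trans (by linarith)

omit hv in
lemma pd_bs_le : ∃ C : ℝ, 0 < C ∧ ∀ (v : V → V), (∀ i, SP (fun y => v y i)) → ∀ (e : V) (M : ℝ),
    len e = 1 → 0 < M → ∀ (i j : Fin 3) (x : V), |pd j (bs e v M i) x| ≤ C * dom v x := by
  obtain ⟨C, hC, hCb⟩ := stp_bdd
  refine ⟨24 * C + 2, by positivity, fun v hv e M he hM i j x => ?_⟩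
  have hD := dom_nonneg v x
  have h1 : pd j (bs e v M i) x = th v M x * pd j (bf e v i) x + pd j (th v M) x * bf e v i x := by
    have := pd_mul (sp_th hv M) (sp_bf hv e i) j x
    rw [show bs e v M i = fun y => th v M y * bf e v i y from rfl, this]
  have h2 : |th v M x * pd j (bf e v i) x| ≤ 2 * dom v x := by
    rw [abs_mul, abs_of_nonneg (th_nonneg _ _ _)]
    calc th v M x * |pd j (bf e v i) x| ≤ 1 * (2 * dom v x) :=
          mul_le_mul (th_le_one _ _ _) (pd_bf_le hv he i j x) (abs_nonneg _) zero_le_one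
      _ = _ := one_mul _
  have h3 : pd j (th v M) x = deriv stp (1 / M ^ 2 * qf v x) * (1 / M ^ 2 * pd j (qf v) x) := by
    have := pd_comp ((sp_qf hv).cmul (1 / M ^ 2)) stp_smooth j x
    rw [pd_cmul (sp_qf hv)] at this
    exact this
  have h4 : |pd j (qf v) x| ≤ 6 * (om v x * dom v x) := by
    have e1 : pd j (qf v) x = ∑ m, 2 * (vort v x m * pd j (fun y => vort v y m) x) := by
      have := pd_sum (s := Finset.univ) (f := fun m => fun y => vort v y m * vort v y m)
        (fun m _ => (sp_vort hv m).mul (sp_vort hv m)) j x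
      rw [show qf v = fun y => ∑ m, vort v y m * vort v y m from rfl, this]
      refine Finset.sum_congr rfl fun m _ => ?_
      rw [pd_mul (sp_vort hv m) (sp_vort hv m)]
      ring
    rw [e1]
    refine (Finset.abs_sum_le_sum_abs _ _).trans ?_
    have : ∀ m ∈ (Finset.univ : Finset (Fin 3)),
        |2 * (vort v x m * pd j (fun y => vort v y m) x)| ≤ 2 * (om v x * dom v x) := by
      intro m _
      rw [abs_mul, abs_mul, abs_of_pos (by norm_num : (0 : ℝ) < 2)]
      exact mul_le_mul_of_nonneg_left (mul_le_mul (vort_le v x m) (pd_vort_le v x m j)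
        (abs_nonneg _) (om_nonneg _ _)) (by norm_num)
    refine (Finset.sum_le_sum this).trans ?_
    simp
    linarith
  have h5 : |pd j (th v M) x * bf e v i x| ≤ 24 * C * dom v x := by
    rw [h3]
    rcases lt_or_ge 4 (1 / M ^ 2 * qf v x) with h6 | h6
    · rw [stp_deriv_zero (Or.inr h6), zero_mul, zero_mul, abs_zero]
      positivity
    · rw [qf_eq, one_div, inv_mul_le_iff₀ (by positivity)] at h6
      rw [abs_mul, abs_mul, abs_mul, abs_of_pos (by positivity : 0 < 1 / M ^ 2)]
      have h7 := om_nonneg v x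
      calc |deriv stp (1 / M ^ 2 * qf v x)| * (1 / M ^ 2 * |pd j (qf v) x|) * |bf e v i x|
          ≤ C * (1 / M ^ 2 * (6 * (om v x * dom v x))) * om v x := by
            refine mul_le_mul (mul_le_mul (hCb _) ?_ (by positivity) hC.le) (bf_le he v i x)
              (abs_nonneg _) (by positivity)
            exact mul_le_mul_of_nonneg_left h4 (by positivity)
        _ = C * 6 * dom v x * (1 / M ^ 2 * om v x ^ 2) := by ring
        _ ≤ C * 6 * dom v x * 4 := by
            refine mul_le_mul_of_nonneg_left ?_ (by positivity)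
            rw [one_div, inv_mul_le_iff₀ (by positivity)]
            exact h6
        _ = 24 * C * dom v x := by ring
  rw [h1]
  exact (abs_add_le _ _).trans (by linarith)

end

end Pool.Agent.Q67.VD
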