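import Pool.Agent.Q67.VD.Fix2
import Pool.Agent.H459R3.NS.Gron

/-!
The production of enstrophy at a fixed time, and the growth of the enstrophy.
-/

set_option autoImplicit false

open MeasureTheory Set Metric Filter
open scoped ENNReal ContDiff Topology
open H459R3.NS Pool.Agent.W268.NS

namespace Pool.Agent.Q67.VD

lemma vort_dot {v : V → V} {x y : V} (hx : 0 < om v x) (hy : 0 < om v y) :
    vort v x ⬝ᵥ vort v y = (om v x * om v y) * (dir v x ⬝ᵥ dir v y) := by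
  rw [← om_smul_dir hx, ← om_smul_dir hy, smul_dotProduct, dotProduct_smul]
  simp only [smul_eq_mul]
  ring

/-- Directions at distance at most one make an angle of at most sixty degrees. -/
lemma half_le_of_dir {v : V → V} {x y : V} (hx : 0 < om v x) (hy : 0 < om v y)
    (h : len (dir v x - dir v y) ≤ 1) : 1 / 2 ≤ dir v x ⬝ᵥ dir v y := by
  have h1 : len (dir v x - dir v y) ^ 2 ≤ 1 := by
    have := pow_le_pow_left₀ (len_nonneg _) h 2
    rwa [one_pow] at this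
  have h2 : len (dir v x) ^ 2 = 1 := by rw [len_dir hx, one_pow]
  have h3 : len (dir v y) ^ 2 = 1 := by rw [len_dir hy, one_pow]
  rw [len_sq] at h1 h2 h3
  simp only [Pi.sub_apply] at h1
  rw [dotProduct, Fin.sum_univ_three]
  nlinarith

lemma Mor.mono {K K' ρ : ℝ} {f : V → ℝ} (h : Mor K ρ f) (hK : K ≤ K') : Mor K' ρ f :=
  fun x r hr hrρ => (h x r hr hrρ).trans (mul_le_mul_of_nonneg_right hK hr.le)

/-- The production of enstrophy at a fixed time. -/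
theorem fixed (hfix : StmFix2) (hflux : StmFlux) : ∃ C : ℝ, 0 < C ∧
    ∀ (v : V → V) (ν E M κ R₀ R₁ : ℝ), (∀ i, SP (fun y => v y i)) →
    (∀ x, ∑ i, pd i (fun y => v y i) x = 0) → 0 < ν → energy v ≤ E → 0 < M → 0 < κ → κ ≤ 1 →
    0 < R₁ → R₁ ≤ R₀ → R₀ ≤ 1 → (∀ x y, ‖x - y‖ ≤ R₀ → M < om v x → M < om v y →
      κ ≤ dir v x ⬝ᵥ dir v y ∧ len (dir v x - dir v y)
        ≤ min 1 (κ ^ 2 * ν / (C * (√(E / R₀) + M))) * (1 + ‖x - y‖ / R₁)) →
    2 * ∫ x in cube, stretchRate v x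
      ≤ ν * palin v + C * (ν / R₁ ^ 2 + M ^ 2 / ν + √(E / R₀ ^ 5)) * enstrophy v := by
  obtain ⟨C3, hC3, fx⟩ := hfix
  obtain ⟨C4, hC4, fl⟩ := hflux
  set C : ℝ := 16 * C3 * C4 + 64 + 8 * C3 ^ 2 + 364 * C3 with hC
  have hC0 : 0 < C := by positivity
  refine ⟨C, hC0, ?_⟩
  intro v ν E M κ R₀ R₁ hv hdiv hν hE hM hκ hκ1 hR1 hR10 hR0 h
  have hR00 : 0 < R₀ := hR1.trans_le hR10
  have hE0 : 0 ≤ E := (energy_nonneg' v).trans hE
  set s : ℝ := √(E / R₀) + M with hs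
  have hs0 : 0 < s := by positivity
  set K : ℝ := C4 / κ ^ 2 * s with hK
  have hK0 : 0 < K := by positivity
  set δ₀ : ℝ := κ ^ 2 * ν / (C * s) with hδ₀
  have hδ₀0 : 0 < δ₀ := by positivity
  set δ : ℝ := min 1 δ₀ with hδ
  have hδ0 : 0 ≤ δ := le_min zero_le_one hδ₀0.le
  have hδ1 : δ ≤ 1 := min_le_left _ _
  have hδK : δ * K ≤ ν / (4 * C3) := by
    have h1 : δ * K ≤ δ₀ * K := mul_le_mul_of_nonneg_right (min_le_right _ _) hK0.le
    have h2 : δ₀ * K = C4 * ν / C := by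
      rw [hδ₀, hK]
      field_simp
    have h3 : C4 * ν / C ≤ ν / (4 * C3) := by
      rw [div_le_div_iff₀ hC0 (by positivity)]
      have h4 : 4 * C3 * C4 ≤ C := by
        rw [hC]
        have : 0 < C3 ^ 2 := by positivity
        have : 0 < C3 * C4 := by positivity
        linarith
      nlinarith
    linarith
  -- the Morrey bound
  have hm : Mor K (R₀ / 8) (om v) := by
    refine (fl v M R₀ κ hv hdiv hM.le hR00 hR0 hκ hκ1 fun x y hxy hx hy => ?_).mono ?_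
    · have hx0 := hM.trans hx
      have hy0 := hM.trans hy
      rw [vort_dot hx0 hy0, mul_comm]
      exact mul_le_mul_of_nonneg_left (h x y hxy hx hy).1 (mul_pos hx0 hy0).le
    · have h1 : √(energy v / R₀) ≤ √(E / R₀) :=
        Real.sqrt_le_sqrt (div_le_div_of_nonneg_right hE hR00.le)
      have h2 : M * R₀ ^ 2 ≤ M := by
        have : R₀ ^ 2 ≤ 1 := pow_le_one₀ hR00.le hR0
        nlinarith
      rw [hK]
      exact mul_le_mul_of_nonneg_left (by linarith) (by positivity)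
  -- coherence of the direction
  have hco : Coh v M δ (R₁ / 8) (4 * (R₀ / 8)) := by
    intro x y hxy hx hy
    obtain ⟨_, h2⟩ := h x y (by linarith) hx hy
    have hn := norm_nonneg (x - y)
    have h3 : ‖x - y‖ / R₁ ≤ ‖x - y‖ / (R₁ / 8) :=
      div_le_div_of_nonneg_left hn (by positivity) (by linarith)
    exact h2.trans (mul_le_mul_of_nonneg_left (by linarith) hδ0)
  have key := fx v K (R₀ / 8) (R₁ / 8) δ M (ν / (4 * C3)) hv hdiv hK0.le (by positivity)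
    (by linarith) (by linarith) hδ0 hδ1 hM (by positivity) hm hco
  have hP := palin_nonneg v
  have hEn := enstrophy_nonneg v
  have a1 : 2 * (C3 * ((δ * K + ν / (4 * C3)) * palin v)) ≤ ν * palin v := by
    have e1 : 2 * (C3 * ((ν / (4 * C3) + ν / (4 * C3)) * palin v)) = ν * palin v := by
      field_simp
      ring
    rw [← e1]
    gcongr
  have a2 : √(energy v / (R₀ / 8) ^ 5) ≤ 182 * √(E / R₀ ^ 5) := by
    have e1 : 182 * √(E / R₀ ^ 5) = √(182 ^ 2 * (E / R₀ ^ 5)) := by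
      rw [Real.sqrt_mul (by positivity), Real.sqrt_sq (by norm_num)]
    rw [e1]
    refine Real.sqrt_le_sqrt ?_
    have e2 : energy v / (R₀ / 8) ^ 5 = 32768 * (energy v / R₀ ^ 5) := by field_simp; norm_num
    rw [e2]
    have h1 : energy v / R₀ ^ 5 ≤ E / R₀ ^ 5 := div_le_div_of_nonneg_right hE (by positivity)
    have h2 : 0 ≤ E / R₀ ^ 5 := by positivity
    nlinarith
  have a3 : 2 * (C3 * ((δ * K + ν / (4 * C3)) / (R₁ / 8) ^ 2)) ≤ 64 * (ν / R₁ ^ 2) := by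
    have e1 : 2 * (C3 * ((ν / (4 * C3) + ν / (4 * C3)) / (R₁ / 8) ^ 2)) = 64 * (ν / R₁ ^ 2) := by
      field_simp
      ring
    rw [← e1]
    gcongr
  have a4 : 2 * (C3 * (M ^ 2 / (ν / (4 * C3)))) = 8 * C3 ^ 2 * (M ^ 2 / ν) := by
    field_simp
    ring
  have b1 : 0 ≤ ν / R₁ ^ 2 := by positivity
  have b2 : 0 ≤ M ^ 2 / ν := by positivity
  have b3 : 0 ≤ √(E / R₀ ^ 5) := Real.sqrt_nonneg _
  have a5 : 2 * (C3 * ((δ * K + ν / (4 * C3)) / (R₁ / 8) ^ 2 + M ^ 2 / (ν / (4 * C3))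
      + √(energy v / (R₀ / 8) ^ 5))) ≤ C * (ν / R₁ ^ 2 + M ^ 2 / ν + √(E / R₀ ^ 5)) := by
    have c1 : 2 * (C3 * √(energy v / (R₀ / 8) ^ 5)) ≤ 364 * C3 * √(E / R₀ ^ 5) := by
      nlinarith
    have c2 : 64 * (ν / R₁ ^ 2) ≤ C * (ν / R₁ ^ 2) := by
      refine mul_le_mul_of_nonneg_right ?_ b1
      rw [hC]
      have : 0 < C3 ^ 2 := by positivity
      have : 0 < C3 * C4 := by positivity
      linarith
    have c3 : 8 * C3 ^ 2 * (M ^ 2 / ν) ≤ C * (M ^ 2 / ν) := by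
      refine mul_le_mul_of_nonneg_right ?_ b2
      rw [hC]
      have : 0 < C3 * C4 := by positivity
      linarith
    have c4 : 364 * C3 * √(E / R₀ ^ 5) ≤ C * √(E / R₀ ^ 5) := by
      refine mul_le_mul_of_nonneg_right ?_ b3
      rw [hC]
      have : 0 < C3 ^ 2 := by positivity
      have : 0 < C3 * C4 := by positivity
      linarith
    linarith
  have a6 := mul_le_mul_of_nonneg_right a5 hEn
  have a7 := mul_le_mul_of_nonneg_left key (by norm_num : (0 : ℝ) ≤ 2)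
  linarith

section

variable {ν T : ℝ} {u : ℝ → V → V} {p : ℝ → V → ℝ}

/-- translation in time -/
theorem shift_sol (h : IsSol ν T u p) {t₀ : ℝ} (ht₀ : t₀ ∈ Ico 0 T) :
    IsSol ν (T - t₀) (fun t => u (t + t₀)) (fun t => p (t + t₀)) := by
  have hm : ∀ t ∈ Ico 0 (T - t₀), t + t₀ ∈ Ico 0 T := fun t ht =>
    ⟨by linarith [ht.1, ht₀.1], by linarith [ht.2]⟩
  have hmap : MapsTo (fun z : ℝ × V => (z.1 + t₀, z.2)) (Ico 0 (T - t₀) ×ˢ univ)
      (Ico 0 T ×ˢ univ) := fun z hz => ⟨hm _ hz.1, mem_univ _⟩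
  have hc : ContDiffOn ℝ ∞ (fun z : ℝ × V => (z.1 + t₀, z.2)) (Ico 0 (T - t₀) ×ˢ univ) := by
    fun_prop
  refine ⟨h.smooth_u.comp hc hmap, h.smooth_p.comp hc hmap, fun t ht => h.per_u _ (hm t ht),
    fun t ht => h.per_p _ (hm t ht), fun t ht => h.divfree _ (hm t ht), fun t ht x i => ?_⟩
  have h1 := h.momentum (t + t₀) ⟨by linarith [ht.1, ht₀.1], by linarith [ht.2]⟩ x i
  have h2 : deriv (fun s => u (s + t₀) x i) t = deriv (fun s => u s x i) (t + t₀) :=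
    deriv_comp_add_const (f := fun s => u s x i) t₀ t
  rw [h2]
  exact h1

/-- the solution is bounded on compact intervals -/
theorem bdd_initial (h : IsSol ν T u p) {t₀ : ℝ} (ht₀ : t₀ ∈ Ico 0 T) :
    ∃ B, ∀ t ∈ Icc 0 t₀, ∀ x i, |u t x i| ≤ B := by
  have hc : ContinuousOn (fun z : ℝ × V => u z.1 z.2) (Icc 0 t₀ ×ˢ cube) :=
    h.smooth_u.continuousOn.mono (prod_mono (fun t ht => ⟨ht.1, ht.2.trans_lt ht₀.2⟩)
      (subset_univ _))
  obtain ⟨B, hB⟩ := (isCompact_Icc.prod (isCompact_Icc : IsCompact cube)).exists_bound_of_continuousOn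
    hc
  refine ⟨B, fun t ht x i => ?_⟩
  have htT : t ∈ Ico 0 T := ⟨ht.1, ht.2.trans_lt ht₀.2⟩
  have h1 : u t x = u t (fun i => Int.fract (x i)) := by
    have h2 := (h.per_u t htT).int (fun i => ⌊x i⌋) (fun i => Int.fract (x i))
    rw [← h2]
    congr 1
    funext i
    exact (Int.fract_add_floor (x i)).symm
  rw [h1]
  have h3 := hB (t, fun i => Int.fract (x i))
    ⟨ht, fun i => Int.fract_nonneg _, fun i => (Int.fract_lt_one _).le⟩
  exact (norm_le_pi_norm (u t _) i).trans h3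

end

/-- The growth of the enstrophy. -/
theorem growth (hfix : StmFix2) (hflux : StmFlux) : ∃ C : ℝ, 0 < C ∧
    ∀ (ν T : ℝ) (u : ℝ → V → V) (p : ℝ → V → ℝ) (T₀ : ℝ) (κ R₀ R₁ M Γ : ℝ → ℝ), 0 < ν →
    IsSol ν T u p → T₀ ∈ Ico 0 T →
    (∀ t ∈ Ioo T₀ T, 0 < M t ∧ 0 < κ t ∧ κ t ≤ 1 ∧ 0 < R₁ t ∧ R₁ t ≤ R₀ t ∧ R₀ t ≤ 1 ∧
      ν / R₁ t ^ 2 + M t ^ 2 / ν + √(energy (u T₀) / R₀ t ^ 5) ≤ Γ t ∧
      ∀ x y, ‖x - y‖ ≤ R₀ t → M t < om (u t) x → M t < om (u t) y →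
        κ t ≤ dir (u t) x ⬝ᵥ dir (u t) y ∧
        len (dir (u t) x - dir (u t) y)
          ≤ min 1 (κ t ^ 2 * ν / (C * (√(energy (u T₀) / R₀ t) + M t)))
            * (1 + ‖x - y‖ / R₁ t)) →
    IntegrableOn Γ (Ioo T₀ T) →
    (∀ t ∈ Ico T₀ T, enstrophy (u t) ≤ enstrophy (u T₀) * Real.exp (C * ∫ s in T₀..t, Γ s)) ∧
    ∃ B, ∀ t ∈ Ico 0 T, ∀ x i, |u t x i| ≤ B := by
  obtain ⟨C, hC, fx⟩ := fixed hfix hflux
  refine ⟨C, hC, ?_⟩
  intro ν T u p T₀ κ R₀ R₁ M Γ hν hsol hT₀ h hΓ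
  set w : ℝ → V → V := fun t => u (t + T₀) with hw
  have hsw : IsSol ν (T - T₀) w (fun t => p (t + T₀)) := shift_sol hsol hT₀
  have hw0 : w 0 = u T₀ := by simp [hw]
  set g : ℝ → ℝ := fun s => C * Γ (s + T₀) with hg
  have hsh : ∀ s ∈ Ioo 0 (T - T₀), s + T₀ ∈ Ioo T₀ T := fun s hs =>
    ⟨by linarith [hs.1], by linarith [hs.2]⟩
  have hΓ0 : ∀ t ∈ Ioo T₀ T, 0 ≤ Γ t := by
    intro t ht
    obtain ⟨h1, _, _, h2, h3, h4, h5, _⟩ := h t ht
    have h6 : 0 < R₀ t := h2.trans_le h3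
    refine le_trans ?_ h5
    positivity
  have hg0 : ∀ s ∈ Ioo 0 (T - T₀), 0 ≤ g s := fun s hs => mul_nonneg hC.le (hΓ0 _ (hsh s hs))
  have hΓi : ∀ t ∈ Ico 0 (T - T₀), IntervalIntegrable Γ volume T₀ (t + T₀) := by
    intro t ht
    rw [intervalIntegrable_iff_integrableOn_Ioo_of_le (by linarith [ht.1])]
    exact hΓ.mono_set fun s hs => ⟨hs.1, by linarith [hs.2, ht.2]⟩
  have hgi' : ∀ t ∈ Ico 0 (T - T₀), IntervalIntegrable g volume 0 t := by
    intro t ht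
    have h1 := (hΓi t ht).comp_add_right T₀
    rw [sub_self, add_sub_cancel_right] at h1
    exact h1.const_mul C
  have hgi : ∀ t ∈ Ico 0 (T - T₀), IntegrableOn g (Icc 0 t) := fun t ht =>
    (intervalIntegrable_iff_integrableOn_Icc_of_le ht.1).1 (hgi' t ht)
  have hgint : ∀ t ∈ Ico 0 (T - T₀), ∫ s in (0 : ℝ)..t, g s = C * ∫ s in T₀..(t + T₀), Γ s := by
    intro t _
    rw [hg, intervalIntegral.integral_const_mul,
      intervalIntegral.integral_comp_add_right (fun s => Γ s) T₀, zero_add]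
  have hgB : ∀ t ∈ Ico 0 (T - T₀), ∫ s in (0 : ℝ)..t, g s ≤ C * ∫ s in Ioo T₀ T, Γ s := by
    intro t ht
    rw [hgint t ht]
    refine mul_le_mul_of_nonneg_left ?_ hC.le
    rw [intervalIntegral.integral_of_le (by linarith [ht.1]), integral_Ioc_eq_integral_Ioo]
    refine setIntegral_mono_set hΓ ?_ (Eventually.of_forall fun s hs => ⟨hs.1, by
      linarith [hs.2, ht.2]⟩)
    exact (ae_restrict_iff' measurableSet_Ioo).2 (Eventually.of_forall fun s hs => hΓ0 s hs)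
  have hd : ∀ s ∈ Ioo 0 (T - T₀), -(2 * cub (fun i y => w s y i))
      ≤ (2 - 1) * (ν * palin (w s)) + g s * enstrophy (w s) := by
    intro s hs
    have hsI : s ∈ Ico 0 (T - T₀) := ⟨hs.1.le, hs.2⟩
    obtain ⟨h1, k1, k2, h2, h3, h4, h5, h6⟩ := h _ (hsh s hs)
    have hvs := fun i => hsw.sp hsI i
    have hds := hsw.divfree s hsI
    have hes : energy (w s) ≤ energy (u T₀) := by
      rw [← hw0]
      exact hsw.energy_le hν hsI
    have h7 := fx (w s) ν (energy (u T₀)) (M (s + T₀)) (κ (s + T₀)) (R₀ (s + T₀)) (R₁ (s + T₀))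
      hvs hds hν hes h1 k1 k2 h2 h3 h4 h6
    have h8 := cub_eq_stretch hvs hds
    have h9 : C * (ν / R₁ (s + T₀) ^ 2 + M (s + T₀) ^ 2 / ν + √(energy (u T₀) / R₀ (s + T₀) ^ 5))
        * enstrophy (w s) ≤ g s * enstrophy (w s) := by
      refine mul_le_mul_of_nonneg_right ?_ (enstrophy_nonneg _)
      exact mul_le_mul_of_nonneg_left h5 hC.le
    rw [← h8] at h7
    linarith
  obtain ⟨-, B1, hB1⟩ := hsw.gron hν one_pos hg0 hgi hgB hd
  obtain ⟨B0, hB0⟩ := bdd_initial hsol hT₀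
  refine ⟨fun t ht => ?_, max B0 B1, fun t ht x i => ?_⟩
  · have hs : t - T₀ ∈ Ico 0 (T - T₀) := ⟨by linarith [ht.1], by linarith [ht.2]⟩
    have h1 := hsw.gron_enstrophy hs (fun s hs' => hg0 s ⟨hs'.1, hs'.2.trans hs.2⟩) (hgi _ hs)
      (le_of_eq (hgint _ hs)) fun s hs' => by
        have h2 := hd s ⟨hs'.1, hs'.2.trans hs.2⟩
        have h3 : 0 ≤ ν * palin (w s) := mul_nonneg hν.le (palin_nonneg _)
        linarith
    rw [hw0] at h1
    have e1 : w (t - T₀) = u t := by simp [hw]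
    rw [e1, sub_add_cancel] at h1
    exact h1
  · rcases le_total t T₀ with h1 | h1
    · exact (hB0 t ⟨ht.1, h1⟩ x i).trans (le_max_left _ _)
    · have h2 := hB1 (t - T₀) ⟨by linarith, by linarith [ht.2]⟩ x i
      have e1 : w (t - T₀) = u t := by simp [hw]
      rw [e1] at h2
      exact h2.trans (le_max_right _ _)

end Pool.Agent.Q67.VD
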